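import Pool.Agent.Lib.MP_1176eb_al.Defs

-- part Pool.Agent.Lib.MP_1176eb_al.Base
section

/-! A working form of the objects. -/

set_option autoImplicit false

noncomputable section

namespace Pool.Agent.Lib.MP_1176eb_al

open scoped ContDiff

universe u

variable {F : Type} [RCLike F] {n : ℕ}

/-- The restriction of an action of `G_n` to the maximal compact subgroup `K = O(n)` or `U(n)`. -/
def resK {V : Type*} [AddCommGroup V] [Module ℂ V] [TopologicalSpace V]
    (ρ : GL (Fin n) F →* (V →L[ℂ] V)) : Representation ℂ (Matrix.unitaryGroup (Fin n) F) V where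
  toFun k := ρ (Unitary.toUnits k)
  map_one' := by rw [map_one, map_one]; rfl
  map_mul' k l := by rw [map_mul, map_mul]; rfl

/-- `v` is a `K`-finite vector. -/
def KFinite {V : Type*} [AddCommGroup V] [Module ℂ V] [TopologicalSpace V]
    (ρ : GL (Fin n) F →* (V →L[ℂ] V)) (v : V) : Prop :=
  FiniteDimensional ℂ (Submodule.span ℂ (Set.range fun k => resK ρ k v))

/-- An object of `M_∞(G_n)` on the Fréchet space `V`: a smooth admissible representation `ρ` of
moderate growth, together with its derived action `d` of the Lie algebra. -/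
structure Rep (F : Type) [RCLike F] (n : ℕ) (V : Type u) [AddCommGroup V] [Module ℂ V]
    [UniformSpace V] [Frechet V] where
  /-- the action of the group by continuous linear maps -/
  ρ : GL (Fin n) F →* (V →L[ℂ] V)
  cont : Continuous fun x : GL (Fin n) F × V => ρ x.1 x.2
  /-- the orbit maps are (weakly) smooth on the open set of invertible matrices -/
  smooth : ∀ (v : V) (η : V →L[ℂ] ℂ), ∃ Φ : (Fin n → Fin n → F) → ℂ,
    ContDiffOn ℝ ∞ Φ {A | (Matrix.of A).det ≠ 0} ∧ ∀ g : GL (Fin n) F, Φ g.val = η (ρ g v)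
  /-- the derived action `d X v = (d/dt) ρ(exp tX) v` at `t = 0` -/
  d : Mat F n → V →L[ℂ] V
  deriv : ∀ (X : Mat F n) (v : V) (η : V →L[ℂ] ℂ), HasDerivAt
    (fun t : ℝ => η (ρ (Matrix.isUnit_exp (t • X)).unit v)) (η (d X v)) 0
  d_lie : ∀ X Y : Mat F n, d (X * Y - Y * X) = d X * d Y - d Y * d X
  /-- moderate growth -/
  growth : ∀ p : Seminorm ℂ V, Continuous p → ∃ (q : Seminorm ℂ V) (N : ℕ), Continuous q ∧
    ∀ g v, p (ρ g v) ≤ nrm g ^ N * q v
  /-- admissible: irreducible representations of `K` occur with finite multiplicity -/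
  mult : ∀ (W : Type u) [AddCommGroup W] [Module ℂ W] [FiniteDimensional ℂ W]
    (τ : Representation ℂ (Matrix.unitaryGroup (Fin n) F) W), τ.IsIrreducible →
    FiniteDimensional ℂ (τ.IntertwiningMap (resK ρ))
  /-- admissible: the `(𝔤,K)`-module of `K`-finite vectors is finitely generated -/
  fg : ∃ s : Finset V, (∀ v ∈ s, KFinite ρ v) ∧ ∀ N : Submodule ℂ V, (∀ v ∈ s, v ∈ N) →
    (∀ X, ∀ v ∈ N, d X v ∈ N) → (∀ k, ∀ v ∈ N, resK ρ k v ∈ N) → ∀ v, KFinite ρ v → v ∈ N

/-- The working form of an object. -/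
def Obj.toRep {V : Type u} [AddCommGroup V] [Module ℂ V] [UniformSpace V] [Frechet V]
    (π : Obj F n V) : Rep F n V where
  ρ := ⟨⟨π.ρ, ContinuousLinearMap.ext π.one⟩, fun g h => ContinuousLinearMap.ext (π.mul g h)⟩
  cont := π.cont
  smooth := π.smooth
  d := π.d
  deriv := π.derived.1
  d_lie X Y := ContinuousLinearMap.ext (π.derived.2 X Y)
  growth := π.moderate
  mult := π.finiteMult
  fg := π.finGen

end Pool.Agent.Lib.MP_1176eb_al
end
end

-- part Pool.Agent.Lib.MP_1176eb_al.Int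
section

/-! Duality, uniform boundedness and weak integrals in a Fréchet space. -/

set_option autoImplicit false
set_option linter.unusedSectionVars false

noncomputable section

namespace Pool.Agent.Lib.MP_1176eb_al

open Filter Topology MeasureTheory

/-- the space with one seminorm -/
def Sn {V : Type*} [AddCommGroup V] [Module ℂ V] (_ : Seminorm ℂ V) := V

section

variable {V : Type*} [AddCommGroup V] [Module ℂ V]

instance (p : Seminorm ℂ V) : SeminormedAddCommGroup (Sn p) :=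
  p.toAddGroupSeminorm.toSeminormedAddCommGroup

instance (p : Seminorm ℂ V) : NormedSpace ℂ (Sn p) where
  __ := (inferInstance : Module ℂ V)
  norm_smul_le c x := (map_smul_eq_mul p c x).le

end

variable {V : Type*} [AddCommGroup V] [Module ℂ V] [UniformSpace V] [Frechet V]

theorem ws : WithSeminorms fun p : {p : Seminorm ℂ V // Continuous p} => p.1 :=
  PolynormableSpace.withSeminorms ℂ V

instance : ContinuousSMul ℝ V := IsScalarTower.continuousSMul ℂ

instance : LocallyConvexSpace ℝ V := ws.toLocallyConvexSpace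

instance : BarrelledSpace ℂ V := by
  have : (uniformity V).IsCountablyGenerated := IsUniformAddGroup.uniformity_countably_generated
  infer_instance

/-- the map to the seminormed space -/
def toSn (p : Seminorm ℂ V) (hp : Continuous p) : V →L[ℂ] Sn p where
  toFun x := x
  map_add' _ _ := rfl
  map_smul' _ _ := rfl
  cont := (norm_withSeminorms ℂ (Sn p)).continuous_of_continuous_comp
    (LinearMap.id : V →ₗ[ℂ] Sn p) fun _ => hp

theorem le_of_dual {p : Seminorm ℂ V} (hp : Continuous p) {x : V} {C : ℝ}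
    (h : ∀ η : V →L[ℂ] ℂ, (∀ y, ‖η y‖ ≤ p y) → ‖η x‖ ≤ C) : p x ≤ C := by
  have h0 : 0 ≤ C := by simpa using h 0 fun y => by simp
  refine NormedSpace.norm_le_dual_bound ℂ (toSn p hp x) h0 fun f => ?_
  rcases eq_or_ne ‖f‖ 0 with hf | hf
  · exact (f.le_opNorm _).trans (by simp [hf])
  have hf' : 0 < ‖f‖ := (norm_nonneg f).lt_of_ne' hf
  have := h (((‖f‖⁻¹ : ℝ) : ℂ) • f.comp (toSn p hp)) fun y => by
    rw [smul_apply, norm_smul, Complex.norm_real, norm_inv, norm_norm,
      inv_mul_le_iff₀ hf']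
    exact f.le_opNorm _
  rwa [smul_apply, norm_smul, Complex.norm_real, norm_inv, norm_norm,
    inv_mul_le_iff₀ hf', mul_comm] at this

theorem mackey {p : Seminorm ℂ V} (hp : Continuous p) {ι : Type*} {F : ι → V}
    (h : ∀ η : V →L[ℂ] ℂ, ∃ C, ∀ i, ‖η (F i)‖ ≤ C) : ∃ C, ∀ i, p (F i) ≤ C := by
  obtain ⟨C, hC⟩ := banach_steinhaus
    (g := fun i => NormedSpace.inclusionInDoubleDual ℂ (Sn p) (toSn p hp (F i)))
    fun f => h (f.comp (toSn p hp))
  exact ⟨C, fun i => ((NormedSpace.inclusionInDoubleDualLi ℂ).norm_map _).ge.trans (hC i)⟩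

theorem mem_of_dual {S : Submodule ℂ V} (hS : IsClosed (S : Set V)) {x : V}
    (h : ∀ η : V →L[ℂ] ℂ, (∀ y ∈ S, η y = 0) → η x = 0) : x ∈ S := by
  by_contra hx
  obtain ⟨η, u, h1, h2⟩ := RCLike.geometric_hahn_banach_closed_point (𝕜 := ℂ)
    (S.restrictScalars ℝ).convex hS hx
  have h0 := h1 0 (zero_mem S)
  have h3 : ∀ y ∈ S, η y = 0 := fun y hy => by
    by_contra hy0
    have := h1 (((u : ℂ) / η y) • y) (S.smul_mem _ hy)
    rw [map_smul, smul_eq_mul, div_mul_cancel₀ _ hy0] at this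
    simp at this
  rw [h η h3] at h2
  simp only [map_zero] at h0 h2
  exact lt_asymm h0 h2

theorem eq_of_dual {x y : V} (h : ∀ η : V →L[ℂ] ℂ, η x = η y) : x = y :=
  sub_eq_zero.1 ((Submodule.mem_bot ℂ).1 (mem_of_dual (S := ⊥) isClosed_singleton
    fun η _ => by rw [map_sub, h, sub_self]))

theorem unif {p : Seminorm ℂ V} (hp : Continuous p) {ι : Type*} (T : ι → V →L[ℂ] V)
    (h : ∀ v, ∃ C, ∀ i, p (T i v) ≤ C) :
    ∃ q : Seminorm ℂ V, Continuous q ∧ ∀ i v, p (T i v) ≤ q v := by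
  have hb : BddAbove (Set.range fun i => p.comp (T i : V →ₗ[ℂ] V)) :=
    Seminorm.bddAbove_range_iff.2 fun v => by
      obtain ⟨C, hC⟩ := h v
      exact ⟨C, Set.forall_mem_range.2 hC⟩
  refine ⟨⨆ i, p.comp (T i : V →ₗ[ℂ] V), ?_, fun i v => ?_⟩
  · rw [Seminorm.coe_iSup_eq hb]
    exact Seminorm.continuous_iSup _ (fun i => hp.comp (T i).continuous) hb
  · exact (le_ciSup hb i : p.comp (T i : V →ₗ[ℂ] V) ≤ _) v

theorem cont_of_le (T : V →ₗ[ℂ] V) (h : ∀ p : Seminorm ℂ V, Continuous p →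
    ∃ (q : Seminorm ℂ V) (C : ℝ), Continuous q ∧ ∀ v, p (T v) ≤ C * q v) : Continuous T :=
  ws.continuous_of_continuous_comp T fun p => by
    obtain ⟨q, C, hq, hC⟩ := h p.1 p.2
    exact Seminorm.continuous_of_le (q := C.toNNReal • q) (hq.const_smul C.toNNReal) fun v =>
      (hC v).trans (mul_le_mul_of_nonneg_right (Real.le_coe_toNNReal C) (apply_nonneg q v))

theorem tendsto_of_sn {X : Type*} {l : Filter X} {f : X → V} {y : V}
    (h : ∀ p : Seminorm ℂ V, Continuous p → Tendsto (fun x => p (f x - y)) l (𝓝 0)) :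
    Tendsto f l (𝓝 y) :=
  (ws.tendsto_nhds f y).2 fun p _ hε => (h p.1 p.2).eventually (gt_mem_nhds hε)

/-- the seminorm of a functional -/
def snOf (η : V →L[ℂ] ℂ) : Seminorm ℂ V := (normSeminorm ℂ ℂ).comp (η : V →ₗ[ℂ] ℂ)

theorem snOf_cont (η : V →L[ℂ] ℂ) : Continuous (snOf η) := η.continuous.norm

variable {Y : Type*} [MeasurableSpace Y] {μ : Measure Y}

/-- weak integral -/
def IsInt (μ : Measure Y) (F : Y → V) (y : V) : Prop :=
  ∀ η : V →L[ℂ] ℂ, Integrable (fun s => η (F s)) μ ∧ η y = ∫ s, η (F s) ∂μ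

theorem IsInt.unique {F : Y → V} {y z : V} (h : IsInt μ F y) (h' : IsInt μ F z) : y = z :=
  eq_of_dual fun η => (h η).2.trans (h' η).2.symm

theorem IsInt.map {F : Y → V} {y : V} (h : IsInt μ F y) (T : V →L[ℂ] V) :
    IsInt μ (fun s => T (F s)) (T y) := fun η => h (η.comp T)

theorem IsInt.add {F G : Y → V} {y z : V} (h : IsInt μ F y) (h' : IsInt μ G z) :
    IsInt μ (fun s => F s + G s) (y + z) := fun η => by
  simp only [map_add]
  exact ⟨(h η).1.add (h' η).1, by rw [integral_add (h η).1 (h' η).1, (h η).2, (h' η).2]⟩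

theorem IsInt.smul {F : Y → V} {y : V} (h : IsInt μ F y) (c : ℂ) :
    IsInt μ (fun s => c • F s) (c • y) := h.map (c • 1)

theorem IsInt.mem {F : Y → V} {y : V} (h : IsInt μ F y) {S : Submodule ℂ V}
    (hS : IsClosed (S : Set V)) (hF : ∀ s, F s ∈ S) : y ∈ S :=
  mem_of_dual hS fun η hη => by simp only [(h η).2, hη _ (hF _), integral_zero]

theorem IsInt.le {F : Y → V} {y : V} (h : IsInt μ F y) {p : Seminorm ℂ V} (hp : Continuous p)
    {g : Y → ℝ} (hg : Integrable g μ) (hF : ∀ᵐ s ∂μ, p (F s) ≤ g s) : p y ≤ ∫ s, g s ∂μ :=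
  le_of_dual hp fun η hη => by
    rw [(h η).2]
    exact norm_integral_le_of_norm_le hg (hF.mono fun s hs => (hη _).trans hs)

/-- the weak integral, when it exists -/
def wint (μ : Measure Y) (F : Y → V) : V := Classical.epsilon (IsInt μ F)

theorem isInt_wint {F : Y → V} (h : ∃ y, IsInt μ F y) : IsInt μ F (wint μ F) :=
  Classical.epsilon_spec h

variable [TopologicalSpace Y] [OpensMeasurableSpace Y]

theorem exists_isInt [IsFiniteMeasure μ] {F : Y → V} (hF : Continuous F) {C : Set V}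
    (hC : IsCompact C) (h : ∀ᵐ s ∂μ, F s ∈ C) : ∃ y, IsInt μ F y := by
  have hi : ∀ L : V →L[ℂ] ℂ, Integrable (fun s => L (F s)) μ := fun L => by
    obtain ⟨B, hB⟩ := (hC.image L.continuous).isBounded.exists_norm_le
    exact Integrable.of_bound (L.continuous.comp hF).aestronglyMeasurable B
      (h.mono fun s hs => hB _ ⟨_, hs, rfl⟩)
  rcases eq_zero_or_neZero μ with rfl | hμ
  · exact ⟨0, fun η => by simp⟩
  have hH : IsCompact (closure (convexHull ℝ C)) :=
    hC.totallyBounded.convexHull.closure.isCompact_of_isClosed isClosed_closure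
  obtain ⟨y, -, hy⟩ := hH.inter_iInter_nonempty
    (fun η : V →L[ℂ] ℂ => {y | η y = ⨍ s, η (F s) ∂μ})
    (fun η => isClosed_eq η.continuous continuous_const) fun u => by
      let L : V →L[ℂ] (u → ℂ) := ContinuousLinearMap.pi fun η => η.1
      obtain ⟨y, h1, h2⟩ := (((convex_convexHull ℝ C).closure.linear_image
        (L.restrictScalars ℝ : V →ₗ[ℝ] (u → ℂ))).average_mem (hH.image L.continuous).isClosed
        (h.mono fun s hs => ⟨F s, subset_closure (subset_convexHull ℝ C hs), rfl⟩)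
        (integrable_pi_iff.2 fun η => hi η.1))
      refine ⟨y, h1, Set.mem_iInter₂.2 fun η hη => ?_⟩
      have := congrFun h2 ⟨η, hη⟩
      rw [average_eq, Pi.smul_apply, eval_integral (by exact fun η => hi η.1)] at this
      rw [Set.mem_ofPred_eq, average_eq]
      exact this
  refine ⟨(μ.real Set.univ : ℂ) • y, fun η => ⟨hi η, ?_⟩⟩
  rw [map_smul, Set.mem_iInter.1 hy η, ← measure_smul_average]
  rfl

theorem exists_isInt_of_le {F : Y → V} (hF : Continuous F) {w : Y → ℝ} (hw : Continuous w)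
    (h0 : ∀ s, 0 < w s) (hi : Integrable w μ) (hz : Tendsto w (cocompact Y) (𝓝 0))
    (h : ∀ p : Seminorm ℂ V, Continuous p → ∃ C, ∀ s, p (F s) ≤ C * w s ^ 2) :
    ∃ y, IsInt μ F y := by
  have hc : Continuous fun s => ((w s : ℂ))⁻¹ • F s :=
    ((Complex.continuous_ofReal.comp hw).inv₀ fun s => by simpa using (h0 s).ne').smul hF
  have ht : Tendsto (fun s => ((w s : ℂ))⁻¹ • F s) (cocompact Y) (𝓝 0) :=
    tendsto_of_sn fun p hp => by
      obtain ⟨C, hC⟩ := h p hp
      refine squeeze_zero (fun _ => apply_nonneg _ _) (fun s => ?_)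
        (by simpa using hz.const_mul C)
      rw [sub_zero, map_smul_eq_mul, norm_inv, Complex.norm_real, Real.norm_of_nonneg (h0 s).le,
        inv_mul_le_iff₀ (h0 s)]
      exact (hC s).trans_eq (by ring)
  have hm : Measurable fun s => (w s).toNNReal := hw.measurable.real_toNNReal
  have : IsFiniteMeasure (μ.withDensity fun s => (w s).toNNReal) :=
    isFiniteMeasure_withDensity_ofReal hi.2
  obtain ⟨y, hy⟩ := exists_isInt (μ := μ.withDensity fun s => (w s).toNNReal) hc
    (ht.isCompact_insert_range_of_cocompact hc) (.of_forall fun s => Or.inr ⟨s, rfl⟩)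
  refine ⟨y, fun η => ?_⟩
  have e : ∀ s, (w s).toNNReal • η (((w s : ℂ))⁻¹ • F s) = η (F s) := fun s => by
    rw [map_smul, NNReal.smul_def, Real.coe_toNNReal _ (h0 s).le, Complex.real_smul, smul_eq_mul,
      mul_inv_cancel_left₀ (by simpa using (h0 s).ne')]
  have := hy η
  rw [integrable_withDensity_iff_integrable_smul hm, integral_withDensity_eq_integral_smul hm]
    at this
  simpa only [e] using this

theorem continuous_of_isInt {X : Type*} [TopologicalSpace X] [FirstCountableTopology X]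
    {F : X → Y → V} {k : X → V} (hk : ∀ x, IsInt μ (F x) (k x)) (h1 : ∀ x, Continuous (F x))
    (h2 : ∀ s, Continuous fun x => F x s)
    (hb : ∀ p : Seminorm ℂ V, Continuous p → ∃ g, Integrable g μ ∧
      ∀ x, ∀ᵐ s ∂μ, p (F x s) ≤ g s) :
    Continuous k := by
  refine continuous_iff_continuousAt.2 fun x0 => tendsto_of_sn fun p hp => ?_
  obtain ⟨g, hg, hF⟩ := hb p hp
  have hm : ∀ x, AEStronglyMeasurable (fun s => p (F x s + (-1 : ℂ) • F x0 s)) μ := fun x =>
    (hp.comp ((h1 x).add ((h1 x0).const_smul _))).aestronglyMeasurable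
  have hb'' : ∀ x, ∀ᵐ s ∂μ, ‖p (F x s + (-1 : ℂ) • F x0 s)‖ ≤ g s + g s := fun x => by
    filter_upwards [hF x, hF x0] with s k1 k2
    rw [Real.norm_of_nonneg (apply_nonneg _ _)]
    exact (map_add_le_add p _ _).trans (add_le_add k1 (by simpa using k2))
  have hc := (continuous_of_dominated hm hb'' (hg.add hg) (Eventually.of_forall fun s =>
    hp.comp ((h2 s).add continuous_const))).tendsto x0
  refine squeeze_zero (fun _ => apply_nonneg _ _) (fun x => ?_) (by simpa using hc)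
  have := ((hk x).add ((hk x0).smul (-1))).le hp ((hg.add hg).mono' (hm x) (hb'' x))
    (.of_forall fun _ => le_rfl)
  simpa [sub_eq_add_neg] using this

end Pool.Agent.Lib.MP_1176eb_al
end
end

-- part Pool.Agent.Lib.MP_1176eb_al.Ft
section

/-! Rapidly decreasing functions and Fourier transforms with values in a Fréchet space. -/

set_option autoImplicit false
set_option linter.unusedSectionVars false

noncomputable section

namespace Pool.Agent.Lib.MP_1176eb_al

open Filter Topology MeasureTheory Complex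
open scoped ContDiff FourierTransform RealInnerProductSpace

variable {V : Type*} [AddCommGroup V] [Module ℂ V] [UniformSpace V] [Frechet V]
  {E : Type*} [NormedAddCommGroup E] [InnerProductSpace ℝ E] [FiniteDimensional ℝ E]
  [MeasurableSpace E] [BorelSpace E]

/-- an integrable weight -/
def wt (x : E) : ℝ := ((1 + ‖x‖) ^ (Module.finrank ℝ E + 1))⁻¹

theorem wt_pos (x : E) : 0 < wt x := by unfold wt; positivity

theorem wt_int : Integrable (wt : E → ℝ) := by
  refine (integrable_one_add_norm (r := (Module.finrank ℝ E + 1 : ℕ)) (by simp)).congr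
    (.of_forall fun x => ?_)
  simp only [wt]
  rw [Real.rpow_neg (by positivity), Real.rpow_natCast]

/-- rapid decay -/
def Rapid (k : E → V) : Prop :=
  ∀ p : Seminorm ℂ V, Continuous p → ∀ N : ℕ, ∃ C, ∀ x, (1 + ‖x‖) ^ N * p (k x) ≤ C

theorem Rapid.le {k : E → V} (h : Rapid k) {p : Seminorm ℂ V} (hp : Continuous p) (N : ℕ) :
    ∃ C, 0 ≤ C ∧ ∀ x, (1 + ‖x‖) ^ N * p (k x) ≤ C * wt x := by
  obtain ⟨C, hC⟩ := h p hp (N + (Module.finrank ℝ E + 1))
  refine ⟨C, le_trans (by positivity) (hC 0), fun x => ?_⟩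
  rw [wt, ← div_eq_mul_inv, le_div_iff₀ (by positivity)]
  exact le_of_eq_of_le (by ring) (hC x)

theorem Rapid.exists_isInt {k : E → V} (h : Rapid k) (hc : Continuous k) {μ : Measure E}
    (hμ : Integrable wt μ) : ∃ y, IsInt μ k y := by
  refine exists_isInt_of_le hc (w := wt) ?_ wt_pos hμ ?_ fun p hp => ?_
  · exact Continuous.inv₀ (by fun_prop) fun x => by positivity
  · have := tendsto_norm_cocompact_atTop (E := E)
    exact ((tendsto_pow_atTop (Nat.succ_ne_zero _)).comp
      (tendsto_atTop_add_const_left _ 1 this)).inv_tendsto_atTop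
  · obtain ⟨C, -, hC⟩ := h.le hp (Module.finrank ℝ E + 1)
    refine ⟨C, fun x => ?_⟩
    have := mul_le_mul_of_nonneg_left (hC x) (wt_pos x).le
    rw [wt, inv_mul_cancel_left₀ (by positivity)] at this
    exact this.trans_eq (by rw [wt]; ring)

theorem rapid_of_compact {k : E → V} (hc : Continuous k) (h : HasCompactSupport k) : Rapid k :=
  fun p hp N => by
    obtain ⟨C, hC⟩ := Continuous.bounded_above_of_compact_support
      (f := fun x => (1 + ‖x‖) ^ N * p (k x)) (by fun_prop)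
      (h.comp_left (map_zero p)).mul_left
    exact ⟨C, fun x => (le_abs_self _).trans (hC x)⟩

theorem Rapid.smul {k : E → V} (h : Rapid k) {c : E → ℂ} {B : ℝ} {M : ℕ}
    (hc : ∀ x, ‖c x‖ ≤ B * (1 + ‖x‖) ^ M) : Rapid fun x => c x • k x := fun p hp N => by
  obtain ⟨C, hC⟩ := h p hp (N + M)
  have hB : 0 ≤ B := by simpa using (norm_nonneg _).trans (hc 0)
  refine ⟨B * C, fun x => ?_⟩
  rw [map_smul_eq_mul]
  calc _ ≤ (1 + ‖x‖) ^ N * (B * (1 + ‖x‖) ^ M * p (k x)) := by gcongr; exact hc x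
    _ = B * ((1 + ‖x‖) ^ (N + M) * p (k x)) := by ring
    _ ≤ _ := by gcongr; exact hC x

theorem exists_op {T : E → V →L[ℂ] V} (hc : ∀ v, Continuous fun x => T x v)
    (hr : ∀ v, Rapid fun x => T x v) {μ : Measure E} (hμ : Integrable wt μ) :
    ∃ R : V →L[ℂ] V, ∀ v, IsInt μ (fun x => T x v) (R v) := by
  choose r hr' using fun v => (hr v).exists_isInt (hc v) hμ
  let R : V →ₗ[ℂ] V :=
    { toFun := r
      map_add' := fun v w => (hr' _).unique (by simpa only [map_add] using (hr' v).add (hr' w))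
      map_smul' := fun c v => (hr' _).unique (by
        simpa only [map_smul, RingHom.id_apply] using (hr' v).smul c) }
  refine ⟨⟨R, cont_of_le R fun p hp => ?_⟩, hr'⟩
  have e : ∀ x v, p (((((wt x)⁻¹ : ℝ) : ℂ) • T x) v) = (wt x)⁻¹ * p (T x v) := fun x v => by
    rw [smul_apply, map_smul_eq_mul, norm_real, Real.norm_of_nonneg (inv_pos.2 (wt_pos x)).le]
  obtain ⟨q, hq, h⟩ := unif hp (fun x => (((wt x)⁻¹ : ℝ) : ℂ) • T x) fun v => by
    obtain ⟨C, -, hC⟩ := (hr v).le hp 0
    refine ⟨C, fun x => ?_⟩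
    rw [e, inv_mul_le_iff₀ (wt_pos x), mul_comm]
    simpa using hC x
  refine ⟨q, ∫ x, wt x ∂μ, hq, fun v => ?_⟩
  rw [← integral_mul_const]
  refine (hr' v).le hp (hμ.mul_const _) (.of_forall fun x => ?_)
  rw [← inv_mul_le_iff₀ (wt_pos x), ← e]
  exact h x v

/-- test functions -/
structure Test (F : E → V) : Prop where
  cont : Continuous F
  supp : HasCompactSupport F
  smooth : ∀ η : V →L[ℂ] ℂ, ContDiff ℝ ∞ fun ξ => η (F ξ)

theorem Test.map {F : E → V} (h : Test F) (T : V →L[ℂ] V) : Test fun ξ => T (F ξ) :=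
  ⟨T.continuous.comp h.cont, h.supp.comp_left (map_zero T), fun η => h.smooth (η.comp T)⟩

theorem Test.smul {F : E → V} (h : Test F) {c : E → ℂ} (hc : ContDiff ℝ ∞ c) :
    Test fun ξ => c ξ • F ξ :=
  ⟨hc.continuous.smul h.cont, h.supp.smul_left, fun η => by
    simp only [map_smul, smul_eq_mul]
    exact hc.mul (h.smooth η)⟩

theorem Test.add {F G : E → V} (h : Test F) (h' : Test G) : Test fun ξ => F ξ + G ξ :=
  ⟨h.cont.add h'.cont, h.supp.add h'.supp, fun η => by
    simp only [map_add]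
    exact (h.smooth η).add (h'.smooth η)⟩

/-- the exponential in the Fourier transform -/
def ex (x ξ : E) : ℂ := exp (↑(-2 * Real.pi * ⟪ξ, x⟫) * I)

theorem norm_ex (x ξ : E) : ‖ex x ξ‖ = 1 := norm_exp_ofReal_mul_I _

@[fun_prop] theorem ex_cont {X : Type*} [TopologicalSpace X] {f g : X → E} (hf : Continuous f)
    (hg : Continuous g) : Continuous fun z => ex (f z) (g z) := by
  unfold ex
  fun_prop

/-- the Fourier transform -/
def ft (F : E → V) (x : E) : V := wint volume fun ξ => ex x ξ • F ξ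

theorem Test.isInt {F : E → V} (h : Test F) (x : E) :
    IsInt volume (fun ξ => ex x ξ • F ξ) (ft F x) :=
  have hc : Continuous fun ξ => ex x ξ • F ξ := by have := h.cont; fun_prop
  isInt_wint ((rapid_of_compact hc h.supp.smul_left).exists_isInt hc wt_int)

theorem Test.ft_eq {F : E → V} (h : Test F) (η : V →L[ℂ] ℂ) (x : E) :
    η (ft F x) = 𝓕 (fun ξ => η (F ξ)) x := by
  simp only [(h.isInt x η).2, Real.fourier_eq', map_smul, ex]

theorem Test.ft_cont {F : E → V} (h : Test F) : Continuous (ft F) :=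
  have := h.cont
  continuous_of_isInt h.isInt (fun x => by fun_prop) (fun s => by fun_prop) fun p hp =>
    ⟨fun ξ => p (F ξ), (hp.comp h.cont).integrable_of_hasCompactSupport
      (h.supp.comp_left (map_zero p)), fun x => .of_forall fun s => by
        rw [map_smul_eq_mul, norm_ex, one_mul]⟩

theorem fourier_decay {φ : E → ℂ} (hs : HasCompactSupport φ) (h : ContDiff ℝ ∞ φ) (N : ℕ) :
    ∃ C, ∀ x, (1 + ‖x‖) ^ N * ‖𝓕 φ x‖ ≤ C :=
  ⟨_, fun x => le_of_eq_of_le (by rw [norm_iteratedFDeriv_zero]; rfl)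
    (SchwartzMap.one_add_le_sup_seminorm_apply (𝕜 := ℝ) (m := (N, 0)) le_rfl le_rfl
      (𝓕 (hs.toSchwartzMap h)) x)⟩

theorem Test.ft_rapid {F : E → V} (h : Test F) : Rapid (ft F) := fun p hp N => by
  obtain ⟨C, hC⟩ := mackey hp (F := fun x => (((1 + ‖x‖) ^ N : ℝ) : ℂ) • ft F x) fun η => by
    obtain ⟨C, hC⟩ := fourier_decay (h.supp.comp_left (map_zero η)) (h.smooth η) N
    refine ⟨C, fun x => le_of_eq_of_le ?_ (hC x)⟩
    rw [map_smul, norm_smul, norm_real, Real.norm_of_nonneg (by positivity), h.ft_eq]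
    rfl
  refine ⟨C, fun x => le_of_eq_of_le ?_ (hC x)⟩
  rw [map_smul_eq_mul, norm_real, Real.norm_of_nonneg (by positivity)]

theorem Test.ft_int {F : E → V} (h : Test F) : IsInt volume (ft F) (F 0) := fun η => by
  obtain ⟨y, hy⟩ := h.ft_rapid.exists_isInt h.ft_cont wt_int
  refine ⟨(hy η).1, ?_⟩
  have hc : Continuous fun ξ => η (F ξ) := η.continuous.comp h.cont
  have := congrFun (hc.fourierInv_fourier_eq (hc.integrable_of_hasCompactSupport
    (h.supp.comp_left (map_zero η))) (by simpa only [h.ft_eq] using (hy η).1)) 0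
  rw [Real.fourierInv_eq'] at this
  simp only [h.ft_eq]
  simpa using this.symm

theorem Test.ft_map {F : E → V} (h : Test F) (T : V →L[ℂ] V) (x : E) :
    ft (fun ξ => T (F ξ)) x = T (ft F x) :=
  ((h.map T).isInt x).unique (by simpa only [map_smul] using (h.isInt x).map T)

theorem Test.ft_add {F G : E → V} (h : Test F) (h' : Test G) (x : E) :
    ft (fun ξ => F ξ + G ξ) x = ft F x + ft G x :=
  ((h.add h').isInt x).unique (by simpa only [smul_add] using (h.isInt x).add (h'.isInt x))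

/-- the symbol of a direction -/
def cy (y ξ : E) : ℂ := ↑(2 * Real.pi * ⟪ξ, y⟫) * I

theorem cy_smooth (y : E) : ContDiff ℝ ∞ (cy y) :=
  (ofRealCLM.contDiff.comp (contDiff_const.mul (contDiff_id.inner ℝ contDiff_const))).mul
    contDiff_const

theorem Test.ft_deriv {F : E → V} (h : Test F) (η : V →L[ℂ] ℂ) (x y : E) (t : ℝ) :
    HasDerivAt (fun t : ℝ => η (ft F (x - t • y)))
      (η (ft (fun ξ => cy y ξ • F ξ) (x - t • y))) t := by
  have h' := h.smul (cy_smooth y)
  have := h.cont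
  have := h'.cont
  simp only [fun z => (h.isInt z η).2, (h'.isInt _ η).2]
  refine (hasDerivAt_integral_of_dominated_loc_of_deriv_le (s := Set.univ) univ_mem
    (F := fun (t : ℝ) ξ => η (ex (x - t • y) ξ • F ξ))
    (F' := fun (t : ℝ) ξ => η (ex (x - t • y) ξ • cy y ξ • F ξ))
    (bound := fun ξ => ‖η (cy y ξ • F ξ)‖)
    (.of_forall fun t => (h.isInt _ η).1.1) (h.isInt _ η).1 (h'.isInt _ η).1.1
    (.of_forall fun ξ t _ => ?_) ?_ (.of_forall fun ξ t _ => ?_)).2
  · rw [map_smul, norm_smul, norm_ex, one_mul]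
  · exact (η.continuous.comp h'.cont).norm.integrable_of_hasCompactSupport
      (h'.supp.comp_left (g := fun v => ‖η v‖) (by simp))
  · simp only [map_smul, smul_eq_mul, ex, cy, inner_sub_right, inner_smul_right]
    have h1 : HasDerivAt (fun t : ℝ => -2 * Real.pi * (⟪ξ, x⟫ - t * ⟪ξ, y⟫))
        (2 * Real.pi * ⟪ξ, y⟫) t := by
      simpa using (((hasDerivAt_id t).mul_const ⟪ξ, y⟫).const_sub ⟪ξ, x⟫).const_mul (-2 * Real.pi)
    have h2 := ((h1.ofReal_comp.mul_const I).cexp).mul_const (η (F ξ))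
    rwa [mul_assoc] at h2

end Pool.Agent.Lib.MP_1176eb_al
end
end

-- part Pool.Agent.Lib.MP_1176eb_al.II
section

/-! The functional calculus of a vector group of polynomial growth. -/

set_option autoImplicit false
set_option linter.unusedSectionVars false

noncomputable section

namespace Pool.Agent.Lib.MP_1176eb_al

open Filter Topology MeasureTheory Complex
open scoped ContDiff FourierTransform RealInnerProductSpace

/-- a smooth action of polynomial growth of the vector group `E` -/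
structure UD (E V : Type*) [NormedAddCommGroup E] [NormedSpace ℝ E] [AddCommGroup V] [Module ℂ V]
    [UniformSpace V] where
  U : E → V →L[ℂ] V
  X : E → V →L[ℂ] V
  U_zero : ∀ v, U 0 v = v
  U_add : ∀ x y v, U (x + y) v = U x (U y v)
  cont : Continuous fun z : E × V => U z.1 z.2
  growth : ∀ p : Seminorm ℂ V, Continuous p → ∃ (q : Seminorm ℂ V) (N : ℕ) (C : ℝ),
    Continuous q ∧ 0 ≤ C ∧ ∀ x v, p (U x v) ≤ C * (1 + ‖x‖) ^ N * q v
  X_add : ∀ x y v, X (x + y) v = X x v + X y v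
  X_smul : ∀ (r : ℝ) x v, X (r • x) v = (r : ℂ) • X x v
  deriv : ∀ y v (η : V →L[ℂ] ℂ), HasDerivAt (fun t : ℝ => η (U (t • y) v)) (η (X y v)) 0

variable {V : Type*} [AddCommGroup V] [Module ℂ V] [UniformSpace V] [Frechet V]
  {E : Type*} [NormedAddCommGroup E] [InnerProductSpace ℝ E] [FiniteDimensional ℝ E]
  [MeasurableSpace E] [BorelSpace E] (D : UD E V)

namespace UD

@[fun_prop] theorem cont' {Z : Type*} [TopologicalSpace Z] {f : Z → E} {g : Z → V}
    (hf : Continuous f) (hg : Continuous g) : Continuous fun z => D.U (f z) (g z) :=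
  D.cont.comp (hf.prodMk hg)

theorem U_X (x y : E) (v : V) : D.U x (D.X y v) = D.X y (D.U x v) :=
  eq_of_dual fun η => (D.deriv y v (η.comp (D.U x))).unique (by
    simpa only [ContinuousLinearMap.comp_apply, ← D.U_add, add_comm] using D.deriv y (D.U x v) η)

theorem X_X (x y : E) (v : V) : D.X x (D.X y v) = D.X y (D.X x v) :=
  eq_of_dual fun η => (D.deriv x (D.X y v) η).unique (by
    simpa only [ContinuousLinearMap.comp_apply, D.U_X] using D.deriv x v (η.comp (D.X y)))

theorem deriv_at (y : E) (v : V) (η : V →L[ℂ] ℂ) (t : ℝ) :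
    HasDerivAt (fun t : ℝ => η (D.U (t • y) v)) (η (D.X y (D.U (t • y) v))) t := by
  have := HasDerivAt.comp_sub_const t t (by rw [sub_self]; exact D.deriv y (D.U (t • y) v) η)
  simpa only [← D.U_add, ← add_smul, sub_add_cancel] using this

theorem X_mem {S : Submodule ℂ V} (hS : IsClosed (S : Set V)) (h : ∀ x, ∀ v ∈ S, D.U x v ∈ S)
    (y : E) {v : V} (hv : v ∈ S) : D.X y v ∈ S :=
  mem_of_dual hS fun η hη => (D.deriv y v η).unique (by
    simpa only [hη _ (h _ _ hv)] using hasDerivAt_const (0 : ℝ) (0 : ℂ))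

theorem X_eq (x : E) (v : V) : D.X x v = ∑ j, (⟪stdOrthonormalBasis ℝ E j, x⟫ : ℂ) •
    D.X (stdOrthonormalBasis ℝ E j) v := by
  let f : E →+ V := .mk' (fun x => D.X x v) fun x y => D.X_add x y v
  refine (congrArg f ((stdOrthonormalBasis ℝ E).sum_repr' x).symm).trans ?_
  rw [map_sum]
  exact Finset.sum_congr rfl fun j _ => D.X_smul _ _ _

theorem rapid {k : E → V} (h : Rapid k) {p : Seminorm ℂ V} (hp : Continuous p) (N : ℕ) :
    ∃ C, ∀ x z : E, ‖z‖ ≤ ‖x‖ → (1 + ‖x‖) ^ N * p (D.U z (k x)) ≤ C := by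
  obtain ⟨q, M, B, hq, hB, hU⟩ := D.growth p hp
  obtain ⟨C, hC⟩ := h q hq (N + M)
  refine ⟨B * C, fun x z hz => ?_⟩
  calc _ ≤ (1 + ‖x‖) ^ N * (B * (1 + ‖x‖) ^ M * q (k x)) := by
        gcongr
        exact (hU _ _).trans (by gcongr)
    _ = B * ((1 + ‖x‖) ^ (N + M) * q (k x)) := by ring
    _ ≤ _ := by gcongr; exact hC x

theorem rapid' {k : E → V} (h : Rapid k) : Rapid fun x => D.U x (k x) := fun _ hp N =>
  (D.rapid h hp N).imp fun _ hC x => hC x x le_rfl

/-- the functional calculus -/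
def II (F : E → V) : V := wint volume fun x => D.U x (ft F x)

variable {F G : E → V}

theorem isInt (h : Test F) : IsInt volume (fun x => D.U x (ft F x)) (D.II F) :=
  isInt_wint ((D.rapid' h.ft_rapid).exists_isInt (D.cont' continuous_id h.ft_cont) wt_int)

theorem II_add (h : Test F) (h' : Test G) : D.II (fun ξ => F ξ + G ξ) = D.II F + D.II G :=
  (D.isInt (h.add h')).unique (by
    simpa only [h.ft_add h', map_add] using (D.isInt h).add (D.isInt h'))

theorem II_map (h : Test F) (T : V →L[ℂ] V) (hT : ∀ x v, D.U x (T v) = T (D.U x v)) :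
    D.II (fun ξ => T (F ξ)) = T (D.II F) :=
  (D.isInt (h.map T)).unique (by simpa only [h.ft_map, hT] using (D.isInt h).map T)

theorem II_sum {ι : Type*} (s : Finset ι) {F : ι → E → V} (h : ∀ i, Test (F i)) :
    Test (fun ξ => ∑ i ∈ s, F i ξ) ∧ D.II (fun ξ => ∑ i ∈ s, F i ξ) = ∑ i ∈ s, D.II (F i) := by
  classical
  induction s using Finset.induction_on with
  | empty =>
    have h0 : Test fun _ : E => (0 : V) := ⟨continuous_const, HasCompactSupport.zero, fun η => by
      simpa using contDiff_const⟩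
    exact ⟨h0, by simpa using D.II_map h0 0 (by simp)⟩
  | insert i s hi ih =>
    simp only [Finset.sum_insert hi]
    exact ⟨(h i).add ih.1, by rw [D.II_add (h i) ih.1, ih.2]⟩

theorem II_mem (h : Test F) {S : Submodule ℂ V} (hS : IsClosed (S : Set V))
    (hU : ∀ x, ∀ v ∈ S, D.U x v ∈ S) (hF : ∀ ξ, F ξ ∈ S) : D.II F ∈ S :=
  (D.isInt h).mem hS fun x => hU _ _ ((h.isInt x).mem hS fun ξ => S.smul_mem _ (hF ξ))

theorem II_cy (h : Test F) (y : E) : D.II (fun ξ => cy y ξ • F ξ) = D.X y (D.II F) := by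
  have h' := h.smul (cy_smooth y)
  refine eq_of_dual fun η => HasDerivAt.unique ?_ (D.deriv y (D.II F) η)
  have e : ∀ t : ℝ, η (D.U (t • y) (D.II F)) = ∫ x, η (D.U x (ft F (x - t • y))) := fun t => by
    rw [(((D.isInt h).map _) η).2,
      ← integral_add_left_eq_self (fun x => η (D.U x (ft F (x - t • y)))) (t • y)]
    simp only [← D.U_add, add_sub_cancel_left]
  obtain ⟨q, M, B, hq, hB, hU⟩ := D.growth _ (snOf_cont η)
  obtain ⟨C, hC⟩ := h'.ft_rapid q hq (M + (Module.finrank ℝ E + 1))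
  have c1 := h.ft_cont
  have c2 := h'.ft_cont
  simp only [e, (D.isInt h' η).2]
  have := (hasDerivAt_integral_of_dominated_loc_of_deriv_le (x₀ := 0) (μ := volume)
    (Metric.ball_mem_nhds _ one_pos) (F := fun (t : ℝ) x => η (D.U x (ft F (x - t • y))))
    (F' := fun (t : ℝ) x => η (D.U x (ft (fun ξ => cy y ξ • F ξ) (x - t • y))))
    (bound := fun x => B * (1 + ‖y‖) ^ (M + (Module.finrank ℝ E + 1)) * C * wt x)
    (.of_forall fun t => Continuous.aestronglyMeasurable (by fun_prop))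
    (by simpa using (D.isInt h η).1) (Continuous.aestronglyMeasurable (by fun_prop))
    (.of_forall fun x t ht => (hU _ _).trans ?_) (wt_int.const_mul _)
    (.of_forall fun x t _ => h.ft_deriv (η.comp (D.U x)) x y t)).2
  · simpa using this
  have h1 : 1 + ‖x‖ ≤ (1 + ‖y‖) * (1 + ‖x - t • y‖) := by
    have k1 := norm_add_le (x - t • y) (t • y)
    have k2 : ‖t • y‖ ≤ ‖y‖ := by
      rw [norm_smul]
      exact mul_le_of_le_one_left (norm_nonneg _) (mem_ball_zero_iff.1 ht).le
    rw [sub_add_cancel] at k1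
    nlinarith [norm_nonneg y, norm_nonneg (x - t • y)]
  rw [wt, ← div_eq_mul_inv, le_div_iff₀ (by positivity)]
  calc _ = B * ((1 + ‖x‖) ^ (M + (Module.finrank ℝ E + 1)) * q (ft _ (x - t • y))) := by ring
    _ ≤ B * (((1 + ‖y‖) * (1 + ‖x - t • y‖)) ^ (M + (Module.finrank ℝ E + 1)) *
        q (ft _ (x - t • y))) := by gcongr
    _ ≤ _ := by
      rw [mul_pow, mul_assoc, mul_assoc]
      gcongr
      exact hC _

theorem II_kill (h : Test F) (y : E) : Test (fun ξ => D.X y (F ξ) - cy y ξ • F ξ) ∧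
    D.II (fun ξ => D.X y (F ξ) - cy y ξ • F ξ) = 0 := by
  have h' := h.smul (cy_smooth y)
  have h1 := D.II_add (h.map (D.X y)) (h'.map (-1))
  rw [D.II_map h _ fun _ _ => D.U_X _ _ _, D.II_map h' _ (by simp), D.II_cy h] at h1
  exact ⟨by simpa [sub_eq_add_neg] using (h.map (D.X y)).add (h'.map (-1)),
    by simpa [sub_eq_add_neg] using h1⟩

/-- the span of the images under the generators -/
def xs (S : Submodule ℂ V) : Submodule ℂ V := Submodule.span ℂ {w | ∃ y, ∃ v ∈ S, w = D.X y v}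

theorem II_sub (h : Test F) {S : Submodule ℂ V} (hS : IsClosed (S : Set V))
    (hU : ∀ x, ∀ v ∈ S, D.U x v ∈ S) (hF : ∀ ξ, F ξ ∈ S) : D.II F - F 0 ∈ D.xs S := by
  have c1 := h.ft_cont
  have hae : ∀ᵐ t : ℝ ∂volume.restrict (Set.Ioc 0 1), t ∈ Set.Ioc 0 1 :=
    ae_restrict_mem measurableSet_Ioc
  have hle : ∀ x : E, ∀ t ∈ Set.Ioc (0 : ℝ) 1, ‖t • x‖ ≤ ‖x‖ := fun x t ht => by
    rw [norm_smul, Real.norm_of_nonneg ht.1.le]
    exact mul_le_of_le_one_left (norm_nonneg _) ht.2
  choose m hm using fun x : E => exists_isInt (μ := volume.restrict (Set.Ioc (0 : ℝ) 1))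
    (F := fun t => D.U (t • x) (ft F x)) (by fun_prop)
    ((isCompact_Icc (a := (0 : ℝ)) (b := 1)).image (f := fun t => D.U (t • x) (ft F x))
      (by fun_prop)) (hae.mono fun t ht => ⟨t, Set.Ioc_subset_Icc_self ht, rfl⟩)
  have mc : Continuous m := continuous_of_isInt hm (fun x => by fun_prop) (fun t => by fun_prop)
    fun p hp => by
      obtain ⟨C, hC⟩ := D.rapid h.ft_rapid hp 0
      exact ⟨fun _ => C, integrable_const C, fun x => hae.mono fun t ht => by
        simpa using hC x _ (hle x t ht)⟩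
  have mr : Rapid m := fun p hp N => by
    obtain ⟨C, hC⟩ := D.rapid h.ft_rapid hp N
    refine ⟨C, fun x => ?_⟩
    have := (hm x).le hp (integrable_const (C / (1 + ‖x‖) ^ N)) (hae.mono fun t ht => by
      rw [le_div_iff₀' (by positivity)]
      exact hC x _ (hle x t ht))
    rw [← le_div_iff₀' (by positivity)]
    simpa using this
  have mX : ∀ x, D.X x (m x) = D.U x (ft F x) - ft F x := fun x => eq_of_dual fun η => by
    have := intervalIntegral.integral_eq_sub_of_hasDerivAt (a := 0) (b := 1)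
      (fun t _ => D.deriv_at x (ft F x) η t) (Continuous.intervalIntegrable (by fun_prop) _ _)
    rw [intervalIntegral.integral_of_le zero_le_one] at this
    rw [((hm x).map (D.X x) η).2, this, one_smul, zero_smul, D.U_zero, map_sub]
  choose z hz using fun j => Rapid.exists_isInt (mr.smul
    (c := fun x => (⟪stdOrthonormalBasis ℝ E j, x⟫ : ℂ)) (B := 1) (M := 1) fun x => by
      have := abs_real_inner_le_norm (stdOrthonormalBasis ℝ E j) x
      rw [(stdOrthonormalBasis ℝ E).orthonormal.1 j] at this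
      rw [norm_real, Real.norm_eq_abs]
      linarith) (by fun_prop) wt_int
  have : D.II F - F 0 = ∑ j, D.X (stdOrthonormalBasis ℝ E j) (z j) := eq_of_dual fun η => by
    rw [map_sub, (D.isInt h η).2, (h.ft_int η).2, ← integral_sub (D.isInt h η).1 (h.ft_int η).1,
      map_sum, Finset.sum_congr rfl fun j _ => ((hz j).map _ η).2,
      ← integral_finsetSum _ fun j _ => ((hz j).map _ η).1]
    refine integral_congr_ae (.of_forall fun x => ?_)
    simp only [← map_sub, ← mX]
    rw [D.X_eq, map_sum]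
    simp only [map_smul]
  rw [this]
  exact sum_mem fun j _ => Submodule.subset_span ⟨_, _, (hz j).mem hS fun x => S.smul_mem _
    ((hm x).mem hS fun t => hU _ _ ((h.isInt x).mem hS fun ξ => S.smul_mem _ (hF ξ))), rfl⟩

theorem exists_R {G : E → V →L[ℂ] V} (h : ∀ v, Test fun ξ => G ξ v) :
    ∃ R : V →L[ℂ] V, ∀ v, R v = D.II fun ξ => G ξ v := by
  have hc : ∀ x v, Continuous fun ξ => (ex x ξ • G ξ) v := fun x v => by
    have := (h v).cont
    simp only [smul_apply]
    fun_prop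
  choose K hK using fun x => exists_op (hc x)
    (fun v => rapid_of_compact (hc x v) (h v).supp.smul_left) wt_int
  have e : ∀ x v, K x v = ft (fun ξ => G ξ v) x := fun x v => (hK x v).unique ((h v).isInt x)
  obtain ⟨R, hR⟩ := exists_op (T := fun x => (D.U x).comp (K x))
    (fun v => by
      have := (h v).ft_cont
      simp only [ContinuousLinearMap.comp_apply, e]
      fun_prop)
    (fun v => by simpa only [ContinuousLinearMap.comp_apply, e] using D.rapid' (h v).ft_rapid)
    wt_int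
  exact ⟨R, fun v => IsInt.unique (by simpa only [ContinuousLinearMap.comp_apply, e] using hR v)
    (D.isInt (h v))⟩

end UD

end Pool.Agent.Lib.MP_1176eb_al
end
end

-- part Pool.Agent.Lib.MP_1176eb_al.Proj
section

/-! The natural projection onto twisted coinvariants and the smoothing operator. -/

set_option autoImplicit false
set_option linter.unusedSectionVars false

noncomputable section

namespace Pool.Agent.Lib.MP_1176eb_al

open Filter Topology MeasureTheory Complex Metric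
open scoped ContDiff FourierTransform RealInnerProductSpace

variable {V : Type*} [AddCommGroup V] [Module ℂ V] [UniformSpace V] [Frechet V]
  {E : Type*} [NormedAddCommGroup E] [InnerProductSpace ℝ E] [FiniteDimensional ℝ E]
  [MeasurableSpace E] [BorelSpace E] (D : UD E V)

theorem exists_bump {r : ℝ} (hr : 0 < r) : ∃ b : E → ℂ, ContDiff ℝ ∞ b ∧ HasCompactSupport b ∧
    tsupport b ⊆ ball 0 r ∧ b 0 = 1 := by
  let f : ContDiffBump (0 : E) := ⟨r / 4, r / 2, by positivity, by linarith⟩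
  refine ⟨fun ξ => f ξ, ofRealCLM.contDiff.comp f.contDiff,
    f.hasCompactSupport.comp_left ofReal_zero, ?_, ?_⟩
  · refine (tsupport_comp_subset (g := ofReal) ofReal_zero f).trans ?_
    rw [f.tsupport_eq]
    exact closedBall_subset_ball (half_lt_self hr)
  · simp only [f.one_of_mem_closedBall (mem_closedBall_self f.rIn_pos.le), ofReal_one]

theorem test_of_on {r : ℝ} {b : E → ℂ} (h1 : ContDiff ℝ ∞ b) (h2 : HasCompactSupport b)
    (h3 : tsupport b ⊆ ball 0 r) {F : E → V} (hc : ContinuousOn F (ball 0 r))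
    (hs : ∀ η : V →L[ℂ] ℂ, ContDiffOn ℝ ∞ (fun ξ => η (F ξ)) (ball 0 r)) :
    Test fun ξ => b ξ • F ξ := by
  refine ⟨(h1.continuous.continuousOn.smul hc).continuous_of_tsupport_subset isOpen_ball
    ((tsupport_smul_subset_left _ _).trans h3), h2.smul_right, fun η => ?_⟩
  simp only [map_smul, smul_eq_mul]
  refine contDiff_iff_contDiffAt.2 fun ξ => ?_
  by_cases hξ : ξ ∈ tsupport b
  · exact h1.contDiffAt.mul ((hs η).contDiffAt (isOpen_ball.mem_nhds (h3 hξ)))
  · refine (contDiffAt_const (c := 0)).congr_of_eventuallyEq ?_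
    filter_upwards [notMem_tsupport_iff_eventuallyEq.1 hξ] with z hz
    rw [hz, Pi.zero_apply, zero_mul]

namespace UD

theorem exists_proj {r : ℝ} (hr : 0 < r) (g : E → V →L[ℂ] V) (A : E → E → E)
    (g0 : ∀ v, g 0 v = v) (hc : ∀ v, ContinuousOn (fun ξ => g ξ v) (ball 0 r))
    (hs : ∀ v (η : V →L[ℂ] ℂ), ContDiffOn ℝ ∞ (fun ξ => η (g ξ v)) (ball 0 r))
    (hA : ∀ y, ContDiffOn ℝ ∞ (fun ξ => A ξ y) (ball 0 r))
    (rel : ∀ ξ ∈ ball (0 : E) r, ∀ y v,
      g ξ (D.X y v) = D.X (A ξ y) (g ξ v) - cy (A ξ y) ξ • g ξ v) :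
    ∃ R : V →L[ℂ] V, (∀ y v, R (D.X y v) = 0) ∧ ∀ S : Submodule ℂ V, IsClosed (S : Set V) →
      (∀ x, ∀ v ∈ S, D.U x v ∈ S) → (∀ ξ, ∀ v ∈ S, g ξ v ∈ S) →
      ∀ v ∈ S, R v ∈ S ∧ R v - v ∈ D.xs S := by
  obtain ⟨b, h1, h2, h3, h4⟩ := exists_bump (E := E) hr
  have hT : ∀ v, Test fun ξ => (b ξ • g ξ) v := fun v => test_of_on h1 h2 h3 (hc v) (hs v)
  obtain ⟨R, hR⟩ := D.exists_R hT
  refine ⟨R, fun y v => ?_, fun S hS hU hg v hv => ?_⟩
  · have ha : ∀ j, ContDiffOn ℝ ∞ (fun ξ => (⟪stdOrthonormalBasis ℝ E j, A ξ y⟫ : ℂ))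
        (ball 0 r) := fun j =>
      ofRealCLM.contDiff.comp_contDiffOn (contDiffOn_const.inner ℝ (hA y))
    have hk := fun j => D.II_kill (test_of_on h1 h2 h3 ((ha j).continuousOn.smul (hc v))
      fun η => by simpa only [Pi.smul_apply', map_smul, smul_eq_mul] using (ha j).mul (hs v η))
      (stdOrthonormalBasis ℝ E j)
    have := (D.II_sum Finset.univ fun j => (hk j).1).2
    rw [Finset.sum_eq_zero fun j _ => (hk j).2] at this
    rw [hR, ← this]
    congr 1
    funext ξ
    by_cases hξ : ξ ∈ tsupport b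
    · have e : cy (A ξ y) ξ = ∑ j, (⟪stdOrthonormalBasis ℝ E j, A ξ y⟫ : ℂ) *
          cy (stdOrthonormalBasis ℝ E j) ξ := by
        simp only [cy, ← (stdOrthonormalBasis ℝ E).sum_inner_mul_inner ξ (A ξ y)]
        push_cast
        rw [Finset.mul_sum, Finset.sum_mul]
        exact Finset.sum_congr rfl fun j _ => by ring
      rw [smul_apply, rel ξ (h3 hξ), D.X_eq, e, Finset.sum_smul, ← Finset.sum_sub_distrib,
        Finset.smul_sum]
      refine Finset.sum_congr rfl fun j _ => ?_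
      simp only [Pi.smul_apply', map_smul]
      module
    · simp [image_eq_zero_of_notMem_tsupport hξ]
  · have hF : ∀ ξ, (b ξ • g ξ) v ∈ S := fun ξ => S.smul_mem _ (hg ξ v hv)
    refine ⟨hR v ▸ D.II_mem (hT v) hS hU hF, ?_⟩
    have := D.II_sub (hT v) hS hU hF
    rwa [← hR, smul_apply, h4, g0, one_smul] at this

/-- monomials in the generators -/
def mon : List E → V →L[ℂ] V
  | [] => 1
  | y :: ys => D.X y * mon ys

theorem exists_chi : ∃ χ : V →L[ℂ] V, (∀ y v, χ (D.X y v) = D.X y (χ v)) ∧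
    (∀ S : Submodule ℂ V, IsClosed (S : Set V) → (∀ x, ∀ v ∈ S, D.U x v ∈ S) →
      ∀ v ∈ S, χ v ∈ S ∧ χ v - v ∈ D.xs S) ∧
    ∀ p : Seminorm ℂ V, Continuous p → ∃ q : Seminorm ℂ V, Continuous q ∧
      ∀ ys, ∃ C, 0 ≤ C ∧ ∀ v, p (D.mon ys (χ v)) ≤ C * q v := by
  obtain ⟨b, h1, h2, -, h4⟩ := exists_bump (E := E) one_pos
  have hT : ∀ {b : E → ℂ}, ContDiff ℝ ∞ b → HasCompactSupport b → ∀ v : V,
      Test fun ξ => b ξ • v := fun h1 h2 v =>
    ⟨h1.continuous.smul continuous_const, h2.smul_right, fun η => by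
      simpa only [map_smul, smul_eq_mul] using h1.mul contDiff_const⟩
  obtain ⟨χ, hχ⟩ := D.exists_R (G := fun ξ => b ξ • (1 : V →L[ℂ] V)) (hT h1 h2)
  replace hχ : ∀ v, χ v = D.II fun ξ => b ξ • v := hχ
  refine ⟨χ, fun y v => ?_, fun S hS hU v hv => ?_, fun p hp => ?_⟩
  · rw [hχ, hχ, ← D.II_map (hT h1 h2 v) _ fun _ _ => D.U_X _ _ _]
    simp only [map_smul]
  · refine ⟨hχ v ▸ D.II_mem (hT h1 h2 v) hS hU fun ξ => S.smul_mem _ hv, ?_⟩
    simpa only [← hχ, h4, one_smul] using D.II_sub (hT h1 h2 v) hS hU fun ξ => S.smul_mem _ hv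
  obtain ⟨q, N, B, hq, hB, hU⟩ := D.growth p hp
  refine ⟨q, hq, fun ys => ?_⟩
  obtain ⟨c, k1, k2, hc⟩ : ∃ c : E → ℂ, ContDiff ℝ ∞ c ∧ HasCompactSupport c ∧
      ∀ v, D.mon ys (χ v) = D.II fun ξ => c ξ • v := by
    induction ys with
    | nil => exact ⟨b, h1, h2, hχ⟩
    | cons y ys ih =>
      obtain ⟨c, k1, k2, hc⟩ := ih
      refine ⟨fun ξ => cy y ξ * c ξ, (cy_smooth y).mul k1, k2.mul_left, fun v => ?_⟩
      rw [mon, mul_apply_eq_comp, hc, ← D.II_cy (hT k1 k2 v)]
      simp only [mul_smul]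
  obtain ⟨C, hC⟩ := fourier_decay k2 k1 (N + (Module.finrank ℝ E + 1))
  have C0 : 0 ≤ C := le_trans (by positivity) (hC 0)
  refine ⟨∫ x : E, B * C * wt x, integral_nonneg fun x => (by have := wt_pos x; positivity),
    fun v => ?_⟩
  rw [hc, ← integral_mul_const]
  refine (D.isInt (hT k1 k2 v)).le hp ((wt_int.const_mul _).mul_const _) (.of_forall fun x => ?_)
  have e : ft (fun ξ => c ξ • v) x = 𝓕 c x • v := eq_of_dual fun η => by
    simp only [(hT k1 k2 v).ft_eq, Real.fourier_eq', map_smul, smul_eq_mul, ← mul_assoc,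
      integral_mul_const]
  have : (1 + ‖x‖) ^ N * ‖𝓕 c x‖ ≤ C * wt x := by
    rw [wt, ← div_eq_mul_inv, le_div_iff₀ (by positivity)]
    exact le_of_eq_of_le (by ring) (hC x)
  rw [e, map_smul, map_smul_eq_mul]
  calc _ ≤ ‖𝓕 c x‖ * (B * (1 + ‖x‖) ^ N * q v) := by gcongr; exact hU _ _
    _ = B * ((1 + ‖x‖) ^ N * ‖𝓕 c x‖) * q v := by ring
    _ ≤ B * (C * wt x) * q v := by gcongr
    _ = _ := by ring

end UD

end Pool.Agent.Lib.MP_1176eb_al
end
end

-- part Pool.Agent.Lib.MP_1176eb_al.Pw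
section

/-! Powers of the ideal, polynomials in the grading element, and scalar estimates. -/

set_option autoImplicit false
set_option linter.unusedSectionVars false

noncomputable section

namespace Pool.Agent.Lib.MP_1176eb_al

open Filter Topology MeasureTheory Set

variable {V : Type*} [AddCommGroup V] [Module ℂ V] [UniformSpace V] [Frechet V]

/-- the product of the `a - r` -/
def pa (a : V →L[ℂ] V) (s : Multiset ℂ) : V →L[ℂ] V :=
  Polynomial.aeval a (s.map fun r => Polynomial.X - Polynomial.C r).prod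

section

variable (a : V →L[ℂ] V)

theorem pa_zero (v : V) : pa a 0 v = v := by simp [pa]

theorem pa_add (s t : Multiset ℂ) (v : V) : pa a (s + t) v = pa a s (pa a t v) := by simp [pa]

theorem pa_cons (r : ℂ) (s : Multiset ℂ) (v : V) :
    pa a (r ::ₘ s) v = a (pa a s v) - r • pa a s v := by
  simp [pa, Algebra.algebraMap_eq_smul_one]

theorem pa_cons' (r : ℂ) (s : Multiset ℂ) (v : V) : pa a (r ::ₘ s) v = pa a s (a v - r • v) := by
  rw [← Multiset.singleton_add, add_comm, pa_add, ← Multiset.cons_zero, pa_cons, pa_zero]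

variable {a}

theorem pa_mem {N : Submodule ℂ V} (h : ∀ v ∈ N, a v ∈ N) (s : Multiset ℂ) {v : V} (hv : v ∈ N) :
    pa a s v ∈ N := by
  induction s using Multiset.induction_on with
  | empty => rwa [pa_zero]
  | cons r s ih => rw [pa_cons]; exact N.sub_mem (h _ ih) (N.smul_mem _ ih)

theorem mem_of_pa {N : Submodule ℂ V} (h : ∀ v ∈ N, a v ∈ N) {r : ℂ} {s : Multiset ℂ}
    (hr : r ∉ s) {u : V} (h1 : a u - r • u ∈ N) (h2 : pa a s u ∈ N) : u ∈ N := by
  have : ∃ c : ℂ, c ≠ 0 ∧ pa a s u - c • u ∈ N := by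
    clear h2
    induction s using Multiset.induction_on with
    | empty => exact ⟨1, one_ne_zero, by simp [pa_zero]⟩
    | cons r1 s ih =>
      rw [Multiset.mem_cons, not_or] at hr
      obtain ⟨c, hc, hm⟩ := ih hr.2
      refine ⟨c * (r - r1), mul_ne_zero hc (sub_ne_zero.2 hr.1), ?_⟩
      have := N.add_mem (N.sub_mem (h _ hm) (N.smul_mem r1 hm)) (N.smul_mem c h1)
      rw [map_sub, map_smul] at this
      rw [pa_cons]
      exact (congrArg (· ∈ N) (by module)).mp this
  obtain ⟨c, hc, hm⟩ := this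
  exact (N.smul_mem_iff hc).1 (by simpa using N.sub_mem h2 hm)

end

theorem exists_bound (s : Multiset ℂ) : ∃ B : ℝ, 0 ≤ B ∧ ∀ r ∈ s, |r.re| < B := by
  induction s using Multiset.induction_on with
  | empty => exact ⟨0, le_rfl, by simp⟩
  | cons r s ih =>
    obtain ⟨B, h0, hB⟩ := ih
    refine ⟨B + |r.re| + 1, by positivity, fun x hx => ?_⟩
    rcases Multiset.mem_cons.1 hx with rfl | hx
    · linarith
    · linarith [hB x hx, abs_nonneg r.re]

theorem exp_bound {f f' : ℝ → ℂ} (hf : ∀ t, HasDerivAt f (f' t) t) {C δ : ℝ} (hδ : 0 < δ)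
    (h : ∀ t, 0 ≤ t → ‖f' t‖ ≤ C * Real.exp (δ * t)) {t : ℝ} (ht : 0 ≤ t) :
    ‖f t‖ ≤ (‖f 0‖ + C / δ) * Real.exp (δ * t) := by
  have hC : 0 ≤ C := by simpa using (norm_nonneg _).trans (h 0 le_rfl)
  refine image_norm_le_of_norm_deriv_right_le_deriv_boundary (a := 0) (b := t)
    (B := fun t => (‖f 0‖ + C / δ) * Real.exp (δ * t))
    (B' := fun t => (‖f 0‖ + C / δ) * (Real.exp (δ * t) * δ))
    (fun s _ => (hf s).continuousAt.continuousWithinAt) (fun s _ => (hf s).hasDerivWithinAt)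
    (by simp; positivity) (fun s => ?_) (fun s hs => (h s hs.1).trans ?_) ⟨ht, le_rfl⟩
  · simpa using (((hasDerivAt_id s).const_mul δ).exp).const_mul (‖f 0‖ + C / δ)
  · have : 0 ≤ ‖f 0‖ * (Real.exp (δ * s) * δ) := by positivity
    rw [add_mul, show C / δ * (Real.exp (δ * s) * δ) = C * Real.exp (δ * s) by field_simp]
    linarith

theorem norm_cexp (r : ℂ) (t : ℝ) : ‖Complex.exp (r * t)‖ = Real.exp (r.re * t) := by
  rw [Complex.norm_exp, Complex.re_mul_ofReal]

theorem cexp_deriv (r : ℂ) (t : ℝ) :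
    HasDerivAt (fun t : ℝ => Complex.exp (r * t)) (Complex.exp (r * t) * r) t := by
  simpa using (((hasDerivAt_id t).ofReal_comp).const_mul r).cexp

theorem intOn {f : ℝ → ℂ} (hf : Continuous f) {C : ℝ}
    (h : ∀ t, 0 ≤ t → ‖f t‖ ≤ C * Real.exp (-t)) :
    IntegrableOn f (Ioi 0) ∧ Tendsto f atTop (𝓝 0) :=
  ⟨((integrableOn_exp_neg_Ioi 0).const_mul C).mono' hf.aestronglyMeasurable
    ((ae_restrict_mem measurableSet_Ioi).mono fun t ht => h t (le_of_lt ht)),
    squeeze_zero_norm' ((eventually_ge_atTop 0).mono h)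
      (by simpa using Real.tendsto_exp_neg_atTop_nhds_zero.const_mul C)⟩

theorem exists_isInt_Ioi {F : ℝ → V} (hc : Continuous F) (h : ∀ p : Seminorm ℂ V, Continuous p →
    ∃ C, ∀ t, 0 ≤ t → p (F t) ≤ C * Real.exp (-t)) :
    ∃ y, IsInt (volume.restrict (Ioi 0)) F y := by
  have hae : ∀ᵐ t : ℝ ∂volume.restrict (Ioi 0), |t| = t :=
    (ae_restrict_mem measurableSet_Ioi).mono fun t ht => abs_of_pos ht
  obtain ⟨y, hy⟩ := exists_isInt_of_le (μ := volume.restrict (Ioi 0)) (F := fun t => F |t|)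
    (w := fun t => Real.exp (-(1 / 2) * |t|)) (by fun_prop) (by fun_prop) (fun _ => Real.exp_pos _)
    ((exp_neg_integrableOn_Ioi 0 (b := 1 / 2) (by norm_num)).congr
      (hae.mono fun t ht => by simp only [ht]))
    (Real.tendsto_exp_atBot.comp ((tendsto_norm_cocompact_atTop (E := ℝ)).const_mul_atTop_of_neg
      (by norm_num))) fun p hp => (h p hp).imp fun C hC t => (hC _ (abs_nonneg t)).trans_eq (by
        rw [← Real.exp_nat_mul]
        congr 2
        push_cast
        ring)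
  have e : ∀ η : V →L[ℂ] ℂ, (fun t => η (F |t|)) =ᵐ[volume.restrict (Ioi 0)] fun t => η (F t) :=
    fun η => hae.mono fun t ht => by simp only [ht]
  exact ⟨y, fun η => ⟨(hy η).1.congr (e η), (hy η).2.trans (integral_congr_ae (e η))⟩⟩

variable {E : Type*} [NormedAddCommGroup E] [InnerProductSpace ℝ E] [FiniteDimensional ℝ E]
  [MeasurableSpace E] [BorelSpace E] (D : UD E V)

namespace UD

/-- the span of the monomials of degree `l` applied to `N` -/
def pw (N : Submodule ℂ V) (l : ℕ) : Submodule ℂ V :=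
  Submodule.span ℂ {w | ∃ ys : List E, ys.length = l ∧ ∃ v ∈ N, w = D.mon ys v}

theorem mon_cons (y : E) (ys : List E) (v : V) : D.mon (y :: ys) v = D.X y (D.mon ys v) := rfl

theorem mon_mem_pw {N : Submodule ℂ V} (ys : List E) {v : V} (hv : v ∈ N) :
    D.mon ys v ∈ D.pw N ys.length := Submodule.subset_span ⟨ys, rfl, v, hv, rfl⟩

theorem pw_ind {N M : Submodule ℂ V} {l : ℕ} (T : V →ₗ[ℂ] V)
    (h : ∀ ys : List E, ys.length = l → ∀ v ∈ N, T (D.mon ys v) ∈ M) {w : V} (hw : w ∈ D.pw N l) :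
    T w ∈ M :=
  (Submodule.span_le (p := M.comap T)).2 (by rintro _ ⟨ys, h1, v, h2, rfl⟩; exact h ys h1 v h2) hw

theorem mon_comm {T : V →L[ℂ] V} (h : ∀ y v, T (D.X y v) = D.X y (T v)) (ys : List E) (v : V) :
    T (D.mon ys v) = D.mon ys (T v) := by
  induction ys with
  | nil => rfl
  | cons y ys ih => rw [mon_cons, mon_cons, h, ih]

theorem mon_pw {N : Submodule ℂ V} {l : ℕ} (ys : List E) {w : V} (hw : w ∈ D.pw N l) :
    D.mon ys w ∈ D.pw N (l + ys.length) := by
  induction ys with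
  | nil => exact hw
  | cons y ys ih =>
    refine D.pw_ind (D.X y : V →ₗ[ℂ] V) (fun zs hz v hv => ?_) ih
    rw [List.length_cons, ← add_assoc, ← hz]
    exact D.mon_mem_pw (y :: zs) hv

theorem xs_le (N : Submodule ℂ V) : D.xs N ≤ D.pw N 1 :=
  Submodule.span_mono (by rintro _ ⟨y, v, hv, rfl⟩; exact ⟨[y], rfl, v, hv, rfl⟩)

theorem pw_anti {N : Submodule ℂ V} (h : ∀ y, ∀ v ∈ N, D.X y v ∈ N) : Antitone (D.pw N) :=
  antitone_nat_of_succ_le fun l w hw => D.pw_ind LinearMap.id (fun ys hy v hv => by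
    obtain _ | ⟨y, ys⟩ := ys
    · simp at hy
    · rw [LinearMap.id_apply, mon_cons, D.mon_comm (D.X_X y), ← Nat.succ_injective hy]
      exact D.mon_mem_pw ys (h y v hv)) hw

theorem pw_zero (N : Submodule ℂ V) : D.pw N 0 = N :=
  le_antisymm (fun w hw => D.pw_ind LinearMap.id (fun ys hy v hv => by
    rw [List.length_eq_zero_iff.1 hy]; exact hv) hw) fun _ hv => D.mon_mem_pw [] hv

variable {a : V →L[ℂ] V} (ha : ∀ y v, a (D.X y v) = D.X y (a v) + D.X y v)

include ha

theorem a_mon (ys : List E) (v : V) :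
    a (D.mon ys v) = D.mon ys (a v) + (ys.length : ℂ) • D.mon ys v := by
  induction ys with
  | nil => simp [mon]
  | cons y ys ih =>
    simp only [mon_cons, ha, ih, map_add, map_smul, List.length_cons]
    push_cast
    module

theorem a_pw {N : Submodule ℂ V} (h : ∀ v ∈ N, a v ∈ N) (l : ℕ) : ∀ w ∈ D.pw N l, a w ∈ D.pw N l :=
  fun _ => D.pw_ind (a : V →ₗ[ℂ] V) fun ys hy v hv => by
    rw [ContinuousLinearMap.coe_coe, D.a_mon ha, ← hy]
    exact add_mem (D.mon_mem_pw ys (h v hv)) (Submodule.smul_mem _ _ (D.mon_mem_pw ys hv))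

theorem pa_mon (s : Multiset ℂ) (ys : List E) (v : V) :
    pa a (s.map (· + (ys.length : ℂ))) (D.mon ys v) = D.mon ys (pa a s v) := by
  induction s using Multiset.induction_on with
  | empty => simp [pa_zero]
  | cons r s ih =>
    rw [Multiset.map_cons, pa_cons, pa_cons, ih, D.a_mon ha, map_sub, map_smul]
    module

theorem exists_pa {N : Submodule ℂ V} {s : Multiset ℂ} (h : ∀ v ∈ N, pa a s v ∈ D.pw N 1)
    (l : ℕ) : ∃ t : Multiset ℂ, (∀ r ∈ t, ∃ r0 ∈ s, r0.re ≤ r.re) ∧
      ∀ v ∈ N, pa a t v ∈ D.pw N l := by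
  induction l with
  | zero => exact ⟨0, by simp, fun v hv => by rwa [pa_zero, pw_zero]⟩
  | succ l ih =>
    obtain ⟨t, h1, h2⟩ := ih
    refine ⟨s.map (· + (l : ℂ)) + t, fun r hr => ?_, fun v hv => ?_⟩
    · rcases Multiset.mem_add.1 hr with hr | hr
      · obtain ⟨r0, k, rfl⟩ := Multiset.mem_map.1 hr
        exact ⟨r0, k, by simp⟩
      · exact h1 r hr
    · rw [pa_add]
      refine D.pw_ind (pa a _ : V →ₗ[ℂ] V) (fun ys hy u hu => ?_) (h2 v hv)
      rw [ContinuousLinearMap.coe_coe, ← hy, D.pa_mon ha, add_comm]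
      exact D.mon_pw ys (h u hu)

end UD

end Pool.Agent.Lib.MP_1176eb_al
end
end

-- part Pool.Agent.Lib.MP_1176eb_al.AR
section

/-! An Artin-Rees property from a contracting one-parameter group. -/

set_option autoImplicit false
set_option linter.unusedSectionVars false

noncomputable section

namespace Pool.Agent.Lib.MP_1176eb_al

open Filter Topology MeasureTheory Set

variable {V : Type*} [AddCommGroup V] [Module ℂ V] [UniformSpace V] [Frechet V]
  {E : Type*} [NormedAddCommGroup E] [InnerProductSpace ℝ E] [FiniteDimensional ℝ E]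
  [MeasurableSpace E] [BorelSpace E]

/-- a one-parameter group `exp (-t a)` that contracts the vector group -/
structure AD (D : UD E V) where
  A : ℝ → V →L[ℂ] V
  a : V →L[ℂ] V
  A_zero : ∀ v, A 0 v = v
  A_add : ∀ s t v, A (s + t) v = A s (A t v)
  cont : ∀ v, Continuous fun t => A t v
  growth : ∀ p : Seminorm ℂ V, Continuous p → ∃ (q : Seminorm ℂ V) (N : ℕ) (C : ℝ),
    Continuous q ∧ 0 ≤ C ∧ ∀ t v, 0 ≤ t → p (A t v) ≤ C * Real.exp (N * t) * q v
  deriv : ∀ v (η : V →L[ℂ] ℂ), HasDerivAt (fun t => η (A t v)) (-η (a v)) 0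
  A_X : ∀ (t : ℝ) y v, A t (D.X y v) = Complex.exp (-1 * t) • D.X y (A t v)

namespace AD

variable {D : UD E V} (B : AD D)

theorem deriv_at (v : V) (η : V →L[ℂ] ℂ) (t : ℝ) :
    HasDerivAt (fun t => η (B.A t v)) (-η (B.A t (B.a v))) t := by
  have := HasDerivAt.comp_sub_const t t (by rw [sub_self]; exact B.deriv v (η.comp (B.A t)))
  simpa only [ContinuousLinearMap.comp_apply, ← B.A_add, add_sub_cancel] using this

theorem deriv_exp (r : ℂ) (v : V) (η : V →L[ℂ] ℂ) (t : ℝ) :
    HasDerivAt (fun t : ℝ => Complex.exp (r * t) * η (B.A t v))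
      (-(Complex.exp (r * t) * η (B.A t (B.a v - r • v)))) t :=
  ((cexp_deriv r t).mul (B.deriv_at v η t)).congr_deriv (by
    simp only [map_sub, map_smul, smul_eq_mul]; ring)

theorem a_X (y : E) (v : V) : B.a (D.X y v) = D.X y (B.a v) + D.X y v := eq_of_dual fun η => by
  have h := B.deriv (D.X y v) η
  simp only [B.A_X, map_smul, smul_eq_mul] at h
  have := h.unique (B.deriv_exp (-1) v (η.comp (D.X y)) 0)
  simp [B.A_zero] at this
  rw [map_add]
  linear_combination -this

theorem a_mem {S : Submodule ℂ V} (hS : IsClosed (S : Set V)) (h : ∀ t, ∀ v ∈ S, B.A t v ∈ S) :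
    ∀ v ∈ S, B.a v ∈ S := fun v hv => mem_of_dual hS fun η hη =>
  neg_eq_zero.1 ((B.deriv v η).unique (by
    simpa only [hη _ (h _ _ hv)] using hasDerivAt_const (0 : ℝ) (0 : ℂ)))

theorem A_mon (t : ℝ) (ys : List E) (v : V) :
    B.A t (D.mon ys v) = Complex.exp (-(ys.length : ℂ) * t) • D.mon ys (B.A t v) := by
  induction ys with
  | nil => simp [UD.mon]
  | cons y ys ih =>
    rw [UD.mon_cons, UD.mon_cons, B.A_X, ih, map_smul, smul_smul, ← Complex.exp_add,
      List.length_cons]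
    congr 2
    push_cast
    ring

/-- vectors with exponential growth after `T` -/
def Gr (T : V →L[ℂ] V) (p : Seminorm ℂ V) (κ : ℝ) : Submodule ℂ V where
  carrier := {y | ∃ C, ∀ t, 0 ≤ t → p (T (B.A t y)) ≤ C * Real.exp (κ * t)}
  zero_mem' := ⟨0, by simp⟩
  add_mem' := by
    rintro x y ⟨C, hC⟩ ⟨C', hC'⟩
    refine ⟨C + C', fun t ht => ?_⟩
    rw [map_add, map_add, add_mul]
    exact (map_add_le_add p _ _).trans (add_le_add (hC t ht) (hC' t ht))
  smul_mem' := by
    rintro c x ⟨C, hC⟩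
    refine ⟨‖c‖ * C, fun t ht => ?_⟩
    rw [map_smul, map_smul, map_smul_eq_mul, mul_assoc]
    exact mul_le_mul_of_nonneg_left (hC t ht) (norm_nonneg c)

theorem gr_peel (T : V →L[ℂ] V) {p : Seminorm ℂ V} (hp : Continuous p) {κ : ℝ} {s : Multiset ℂ}
    (hs : ∀ r ∈ s, -κ < r.re) {y : V} (h : pa B.a s y ∈ B.Gr T p κ) : y ∈ B.Gr T p κ := by
  induction s using Multiset.induction_on generalizing y with
  | empty => rwa [pa_zero] at h
  | cons r s ih =>
    rw [pa_cons'] at h
    obtain ⟨C, hC⟩ := ih (fun x hx => hs x (Multiset.mem_cons_of_mem hx)) h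
    have hr : 0 < κ + r.re := by linarith [hs r (Multiset.mem_cons_self _ _)]
    refine ⟨p (T y) + C / (κ + r.re), fun t ht => le_of_dual hp fun η hη => ?_⟩
    have := exp_bound (B.deriv_exp r y (η.comp T)) hr (C := C) (fun t ht => by
      rw [norm_neg, norm_mul, norm_cexp, add_mul, Real.exp_add, ← mul_assoc, mul_comm]
      exact mul_le_mul_of_nonneg_right ((hη _).trans (hC t ht)) (Real.exp_pos _).le) ht
    rw [norm_mul, norm_cexp, add_mul κ, Real.exp_add, ← mul_assoc, mul_comm,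
      mul_le_mul_iff_left₀ (Real.exp_pos _)] at this
    refine this.trans (mul_le_mul_of_nonneg_right ?_ (Real.exp_pos _).le)
    simpa [B.A_zero] using hη _

theorem kernel {L : ℝ} {s : Multiset ℂ} (hs : ∀ r ∈ s, r.re < L) :
    ∃ (c : ℂ) (G : ℝ → ℂ) (C : ℝ), Continuous G ∧ (∀ t, 0 ≤ t → ‖G t‖ ≤ C * Real.exp (L * t)) ∧
      ∀ (T : V →L[ℂ] ℂ) (Z : Submodule ℂ V), (∀ w ∈ Z, B.a w ∈ Z) →
        (∀ w ∈ Z, w ∈ B.Gr 1 (snOf T) (-(L + 1))) → ∀ w ∈ Z,
        T w = c * T (pa B.a s w) + ∫ t in Ioi 0, G t * T (B.A t (pa B.a s w)) := by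
  induction s using Multiset.induction_on with
  | empty => exact ⟨1, 0, 0, continuous_const, by simp, by simp [pa_zero]⟩
  | cons r s ih =>
    obtain ⟨c, G, C, h1, h2, h3⟩ := ih fun x hx => hs x (Multiset.mem_cons_of_mem hx)
    have hr : 0 < L - r.re := sub_pos.2 (hs r (Multiset.mem_cons_self _ _))
    have hc : Continuous fun t : ℝ => Complex.exp (-r * t) * G t := by fun_prop
    obtain ⟨H, hH, H0⟩ : ∃ H : ℝ → ℂ, (∀ t : ℝ, HasDerivAt H (Complex.exp (-r * t) * G t) t) ∧
        H 0 = c := ⟨fun t => c + ∫ u in 0..t, Complex.exp (-r * u) * G u,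
      fun t => (hc.integral_hasStrictDerivAt 0 t).hasDerivAt.const_add c, by simp⟩
    have Hc : Continuous H := continuous_iff_continuousAt.2 fun t => (hH t).continuousAt
    have k2 : ∀ t, 0 ≤ t → ‖H t * Complex.exp (r * t)‖ ≤
        (‖H 0‖ + C / (L - r.re)) * Real.exp (L * t) := fun t ht => by
      have := exp_bound hH hr (C := C) (fun t ht => by
        rw [norm_mul, norm_cexp, mul_comm, show (L - r.re) * t = L * t + (-r).re * t by
          rw [Complex.neg_re]; ring, Real.exp_add, ← mul_assoc]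
        exact mul_le_mul_of_nonneg_right (h2 t ht) (Real.exp_pos _).le) ht
      rw [norm_mul, norm_cexp, show L * t = (L - r.re) * t + r.re * t by ring, Real.exp_add,
        ← mul_assoc]
      exact mul_le_mul_of_nonneg_right this (Real.exp_pos _).le
    refine ⟨0, fun t => H t * Complex.exp (r * t), _, by fun_prop, k2, fun T Z hZ hG w hw => ?_⟩
    have io : ∀ {K : ℝ → ℂ} {C : ℝ}, Continuous K → (∀ t, 0 ≤ t → ‖K t‖ ≤ C * Real.exp (L * t)) →
        ∀ u ∈ Z, IntegrableOn (fun t => K t * T (B.A t u)) (Ioi 0) ∧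
          Tendsto (fun t => K t * T (B.A t u)) atTop (𝓝 0) := fun {K C} k1 k2 u hu => by
      obtain ⟨C', hC'⟩ := hG u hu
      have := B.cont u
      refine intOn (by fun_prop) (C := C * C') fun t ht => ?_
      rw [norm_mul, show -t = L * t + -(L + 1) * t by ring, Real.exp_add, mul_mul_mul_comm]
      exact mul_le_mul (k2 t ht) (hC' t ht) (norm_nonneg _) ((norm_nonneg _).trans (k2 t ht))
    have hu := pa_mem hZ s hw
    have hu' := pa_mem hZ (r ::ₘ s) hw
    have i1 := (io h1 h2 _ hu).1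
    have i2 := (io (by fun_prop) k2 _ hu').1
    have := integral_Ioi_of_hasDerivAt_of_tendsto' (a := 0)
      (f := fun t : ℝ => H t * Complex.exp (r * t) * T (B.A t (pa B.a s w)))
      (f' := fun t : ℝ => G t * T (B.A t (pa B.a s w)) -
        H t * Complex.exp (r * t) * T (B.A t (pa B.a (r ::ₘ s) w)))
      (fun t _ => by
        simp only [mul_assoc]
        refine ((hH t).mul (B.deriv_exp r (pa B.a s w) T t)).congr_deriv ?_
        rw [← pa_cons, mul_mul_mul_comm, ← Complex.exp_add, neg_mul, neg_add_cancel,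
          Complex.exp_zero, one_mul, mul_neg, ← sub_eq_add_neg])
      (i1.sub i2) (io (by fun_prop) k2 _ hu).2
    rw [integral_sub i1 i2, H0, B.A_zero] at this
    rw [h3 T Z hZ hG w hw]
    simp only [Complex.ofReal_zero, mul_zero, Complex.exp_zero, mul_one] at this
    linear_combination this

theorem artin_rees {S W : Submodule ℂ V} (hS : IsClosed (S : Set V)) (hW : IsClosed (W : Set V))
    (SU : ∀ x, ∀ v ∈ S, D.U x v ∈ S) (WU : ∀ x, ∀ v ∈ W, D.U x v ∈ W)
    (SA : ∀ t, ∀ v ∈ S, B.A t v ∈ S) (WA : ∀ t, ∀ v ∈ W, B.A t v ∈ W) {s0 s1 : Multiset ℂ}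
    (h0 : ∀ v, pa B.a s0 v ∈ D.pw ⊤ 1) (h1 : ∀ v ∈ S, pa B.a s1 v ∈ D.pw S 1) (l : ℕ) :
    ∃ m, ∀ w ∈ S, w ∈ W ⊔ D.pw ⊤ m → w ∈ W ⊓ S ⊔ D.pw S l := by
  classical
  obtain ⟨χ, c1, c2, c3⟩ := D.exists_chi
  obtain ⟨κ, κ0, hκ⟩ := exists_bound s0
  have Sa := B.a_mem hS SA
  have Wa := B.a_mem hW WA
  have SX := fun y v (hv : v ∈ S) => D.X_mem hS SU y hv
  have gr : ∀ p : Seminorm ℂ V, Continuous p → ∀ y, y ∈ B.Gr χ p κ := fun p hp y => by
    obtain ⟨q, hq, k1⟩ := c3 p hp
    obtain ⟨q', N, C', -, C0, k2⟩ := B.growth q hq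
    obtain ⟨t, t1, t2⟩ := D.exists_pa B.a_X (N := ⊤) (fun v _ => h0 v) N
    refine B.gr_peel χ hp (s := t) (fun r hr => ?_)
      (D.pw_ind LinearMap.id (fun ys hy v _ => ?_) (t2 y trivial))
    · obtain ⟨r0, k3, k4⟩ := t1 r hr
      linarith [(abs_lt.1 (hκ r0 k3)).1]
    · obtain ⟨C, C1, k3⟩ := k1 ys
      refine ⟨C * (C' * q' v), fun t ht => ?_⟩
      rw [LinearMap.id_apply, B.A_mon, map_smul, map_smul_eq_mul, norm_cexp, D.mon_comm c1, hy]
      calc _ ≤ Real.exp ((-(N : ℂ)).re * t) * (C * (C' * Real.exp (N * t) * q' v)) := by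
            gcongr
            exact (k3 _).trans (by gcongr; exact k2 t v ht)
        _ = C * (C' * q' v) * (Real.exp (-(N * t)) * Real.exp (N * t)) := by simp; ring
        _ ≤ _ := by
          rw [← Real.exp_add]
          gcongr
          simpa using mul_nonneg κ0 ht
  obtain ⟨t0, -, ht0⟩ := D.exists_pa B.a_X h1 l
  obtain ⟨L, L0, hL⟩ := exists_bound t0
  obtain ⟨m, hm⟩ := exists_nat_ge (L + 1 + κ + l)
  obtain ⟨t1, -, ht1⟩ := D.exists_pa B.a_X h1 m
  obtain ⟨c, G, C, G1, G2, G3⟩ := B.kernel (L := L) (s := t1.filter fun r => r.re < L)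
    fun r hr => (Multiset.mem_filter.1 hr).2
  have vec : ∀ u ∈ D.pw S m, ∃ z ∈ D.pw S m,
      IsInt (volume.restrict (Ioi 0)) (fun t => G t • χ (B.A t u)) z := fun u hu => by
    induction hu using Submodule.span_induction with
    | zero => exact ⟨0, zero_mem _, fun η => by simp⟩
    | add x y _ _ hx hy =>
      obtain ⟨z, k1, k2⟩ := hx
      obtain ⟨z', k3, k4⟩ := hy
      exact ⟨z + z', add_mem k1 k3, by simpa only [map_add, smul_add] using k2.add k4⟩
    | smul b x _ hx =>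
      obtain ⟨z, k1, k2⟩ := hx
      exact ⟨b • z, Submodule.smul_mem _ _ k1, by
        simpa only [map_smul, smul_comm b] using k2.smul b⟩
    | mem u hu =>
      obtain ⟨ys, rfl, v, hv, rfl⟩ := hu
      have := B.cont v
      obtain ⟨z, hz⟩ := exists_isInt_Ioi (F := fun t : ℝ =>
        (G t * Complex.exp (-(ys.length : ℂ) * t)) • χ (B.A t v)) (by fun_prop) fun p hp => by
          obtain ⟨C', hC'⟩ := gr p hp v
          have C0 : 0 ≤ C := by simpa using (norm_nonneg _).trans (G2 0 le_rfl)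
          have C1 : 0 ≤ C' := by simpa using (apply_nonneg _ _).trans (hC' 0 le_rfl)
          refine ⟨C * C', fun t ht => ?_⟩
          rw [map_smul_eq_mul, norm_mul, norm_cexp]
          calc _ ≤ C * Real.exp (L * t) * Real.exp ((-(ys.length : ℂ)).re * t) *
                (C' * Real.exp (κ * t)) := by gcongr; exacts [G2 t ht, hC' t ht]
            _ = C * C' * Real.exp (L * t + -ys.length * t + κ * t) := by
              simp only [Real.exp_add, Complex.neg_re, Complex.natCast_re]; ring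
            _ ≤ _ := by gcongr; nlinarith [(Nat.cast_nonneg l : (0 : ℝ) ≤ l)]
      refine ⟨_, D.mon_mem_pw ys (hz.mem hS fun t => S.smul_mem _ (c2 S hS SU _ (SA t v hv)).1), ?_⟩
      simpa only [B.A_mon, map_smul, D.mon_comm c1, mul_smul] using hz.map (D.mon ys)
  have step : ∀ j, ∀ u ∈ D.pw S j, χ u - u ∈ D.pw S (j + 1) := fun j u =>
    D.pw_ind ((χ : V →ₗ[ℂ] V) - LinearMap.id) fun ys hy v hv => by
      rw [LinearMap.sub_apply, ContinuousLinearMap.coe_coe, D.mon_comm c1, LinearMap.id_apply,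
        ← map_sub, ← hy, add_comm]
      exact D.mon_pw ys (D.xs_le S (c2 S hS SU v hv).2)
  have χp : ∀ j, ∀ u ∈ D.pw S j, χ u ∈ D.pw S j := fun j u hu => by
    simpa using add_mem (D.pw_anti SX j.le_succ (step j u hu)) hu
  have pS : ∀ j, D.pw S j ≤ S := fun j => (D.pw_anti SX j.zero_le).trans (D.pw_zero S).le
  have stab : ∀ {T : V →L[ℂ] V} {M N : Submodule ℂ V}, (∀ v ∈ M, T v ∈ M) → (∀ v ∈ N, T v ∈ N) →
      ∀ v ∈ M ⊔ N, T v ∈ M ⊔ N := fun {T M N} k1 k2 v hv => by
    obtain ⟨x, hx, y, hy, rfl⟩ := Submodule.mem_sup.1 hv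
    rw [map_add]
    exact Submodule.add_mem_sup (k1 x hx) (k2 y hy)
  have Za : ∀ v ∈ S ⊓ (W ⊔ D.pw ⊤ m), B.a v ∈ S ⊓ (W ⊔ D.pw ⊤ m) := fun v hv =>
    ⟨Sa v hv.1, stab Wa (D.a_pw B.a_X (N := ⊤) (fun _ _ => trivial) m) v hv.2⟩
  refine ⟨m, fun w hw1 hw2 => ?_⟩
  have hw : pa B.a (t1.filter fun r => ¬ r.re < L) w ∈ S ⊓ (W ⊔ D.pw ⊤ m) := pa_mem Za _ ⟨hw1, hw2⟩
  have hu := ht1 w hw1
  rw [← Multiset.filter_add_not (fun r => r.re < L) t1, pa_add] at hu
  have fin : pa B.a (t1.filter fun r => ¬ r.re < L) w ∈ W ⊓ S ⊔ D.pw S l := by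
    generalize pa B.a (t1.filter fun r => ¬ r.re < L) w = w at hw hu
    obtain ⟨z, z1, z2⟩ := vec _ hu
    have z3 := add_mem (Submodule.smul_mem _ c (χp _ _ hu)) z1
    have k1 := mem_of_dual hW (x := χ w - (c • χ (pa B.a _ w) + z)) fun η hη => by
      have := G3 (η.comp χ) _ Za (fun x hx => by
        obtain ⟨x1, h1, x2, h2, rfl⟩ := Submodule.mem_sup.1 hx.2
        refine add_mem ⟨0, fun t _ => ?_⟩ (D.pw_ind LinearMap.id (fun ys hy v _ => ?_) h2)
        · simp [snOf, hη _ (c2 W hW WU _ (WA t x1 h1)).1]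
        · obtain ⟨C', hC'⟩ := gr _ (snOf_cont (η.comp (D.mon ys))) v
          have C1 : 0 ≤ C' := by simpa using (apply_nonneg _ _).trans (hC' 0 le_rfl)
          refine ⟨C', fun t ht => ?_⟩
          rw [LinearMap.id_apply, B.A_mon, map_smul, map_smul_eq_mul, norm_cexp, hy]
          calc _ = Real.exp ((-(m : ℂ)).re * t) * snOf (η.comp (D.mon ys)) (χ (B.A t v)) := by
                simp [snOf, D.mon_comm c1]
            _ ≤ Real.exp ((-(m : ℂ)).re * t) * (C' * Real.exp (κ * t)) := by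
              gcongr; exact hC' t ht
            _ = C' * Real.exp (-m * t + κ * t) := by
              simp only [Real.exp_add, Complex.neg_re, Complex.natCast_re]; ring
            _ ≤ _ := by gcongr; nlinarith [(Nat.cast_nonneg l : (0 : ℝ) ≤ l)]) w hw
      rw [map_sub, map_add, map_smul, (z2 η).2, sub_eq_zero]
      simpa only [ContinuousLinearMap.comp_apply, map_smul, smul_eq_mul] using this
    have hl : l ≤ m := by exact_mod_cast (by linarith : (l : ℝ) ≤ m)
    have k2 : χ w ∈ W ⊓ S ⊔ D.pw S l := by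
      simpa using Submodule.add_mem_sup
        (S := W ⊓ S) ⟨k1, sub_mem (c2 S hS SU w hw.1).1 (pS _ z3)⟩ (D.pw_anti SX hl z3)
    have k3 : ∀ j, ∃ u ∈ D.pw S j, w - u ∈ W ⊓ S ⊔ D.pw S l ∧ χ u ∈ W ⊓ S ⊔ D.pw S l := fun j => by
      induction j with
      | zero => exact ⟨w, (D.pw_zero S).ge hw.1, by simp, k2⟩
      | succ j ih =>
        obtain ⟨u, u1, u2, u3⟩ := ih
        refine ⟨u - χ u, by simpa using neg_mem (step j u u1), ?_, ?_⟩
        · exact (congrArg (· ∈ _) (by abel)).mp (add_mem u2 u3)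
        · rw [map_sub]
          exact sub_mem u3 (stab (M := W ⊓ S)
            (fun v hv => ⟨(c2 W hW WU v hv.1).1, (c2 S hS SU v hv.2).1⟩) (χp l) _ u3)
    obtain ⟨u, u1, u2, -⟩ := k3 l
    simpa using add_mem u2 (Submodule.mem_sup_right u1)
  have Fa := stab (M := W ⊓ S) (fun v hv => ⟨Wa v hv.1, Sa v hv.2⟩) (D.a_pw B.a_X Sa l)
  have hi : ∀ r ∈ t1.filter fun r => ¬ r.re < L, r ∉ t0 := fun r hr h =>
    (Multiset.mem_filter.1 hr).2 (abs_lt.1 (hL r h)).2
  generalize (t1.filter fun r => ¬ r.re < L) = t at fin hi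
  induction t using Multiset.induction_on with
  | empty => rwa [pa_zero] at fin
  | cons r t ih =>
    rw [pa_cons] at fin
    exact ih (mem_of_pa Fa (hi r (Multiset.mem_cons_self _ _)) fin
      (Submodule.mem_sup_right (ht0 _ (pa_mem Sa t hw1))))
      fun x hx => hi x (Multiset.mem_cons_of_mem hx)

end AD

end Pool.Agent.Lib.MP_1176eb_al
end
end
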