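import Mathlib

/-!
# Definitions: the category `M_∞(GL(n,F))` and the derivative functors `D^k`

Matrices are indexed by `Fin n` (from `0`), so `𝔳_{c+1}` is the column `c` above the diagonal.
-/

set_option autoImplicit false

noncomputable section

namespace Pool.Agent.Lib.MP_1176eb_al

open scoped ContDiff

universe u

/-- A complex Fréchet space: a complete, Hausdorff, first countable (so metrizable) topological
vector space whose topology is given by its continuous seminorms (locally convex). -/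
class Frechet (V : Type*) [AddCommGroup V] [Module ℂ V] [UniformSpace V] : Prop extends
  IsUniformAddGroup V, ContinuousSMul ℂ V, PolynormableSpace ℂ V, T2Space V, CompleteSpace V,
  FirstCountableTopology V

/-- `n × n` matrices over `F`: the real Lie algebra of `G_n = GL(n,F)`. -/
abbrev Mat (F : Type) (n : ℕ) := Matrix (Fin n) (Fin n) F

variable {F : Type} [RCLike F] {n : ℕ}

/-- The norm on `G_n` that measures moderate growth. -/
def nrm (g : GL (Fin n) F) : ℝ := 1 + ∑ a, ∑ b, (‖g.val a b‖ + ‖(g⁻¹).val a b‖)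

section

variable {V : Type u} [AddCommGroup V] [Module ℂ V] [TopologicalSpace V]

variable (F n V) in
/-- A continuous representation of `G_n` on `V` by continuous linear maps. -/
structure Act where
  ρ : GL (Fin n) F → V →L[ℂ] V
  one : ∀ v, ρ 1 v = v
  mul : ∀ g h v, ρ (g * h) v = ρ g (ρ h v)
  cont : Continuous fun x : GL (Fin n) F × V => ρ x.1 x.2

variable (π : Act F n V)

/-- The orbit maps are (weakly) smooth on the open set of invertible matrices. -/
def Act.Smooth : Prop := ∀ (v : V) (η : V →L[ℂ] ℂ), ∃ Φ : (Fin n → Fin n → F) → ℂ,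
  ContDiffOn ℝ ∞ Φ {A | (Matrix.of A).det ≠ 0} ∧ ∀ g : GL (Fin n) F, Φ g.val = η (π.ρ g v)

/-- `d` is the derived action of the Lie algebra: `d X v = (d/dt) ρ(exp tX) v` at `t = 0`. -/
def Act.Derived (d : Mat F n → V →L[ℂ] V) : Prop :=
  (∀ (X : Mat F n) (v : V) (η : V →L[ℂ] ℂ), HasDerivAt
    (fun t : ℝ => η (π.ρ (Matrix.isUnit_exp (t • X)).unit v)) (η (d X v)) 0) ∧
  ∀ (X Y : Mat F n) (v : V), d (X * Y - Y * X) v = d X (d Y v) - d Y (d X v)

/-- Moderate growth. -/
def Act.Moderate : Prop := ∀ p : Seminorm ℂ V, Continuous p →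
  ∃ (q : Seminorm ℂ V) (N : ℕ), Continuous q ∧ ∀ g v, p (π.ρ g v) ≤ nrm g ^ N * q v

/-- The restriction to the maximal compact subgroup `K = O(n)` or `U(n)`. -/
def Act.resK : Representation ℂ (Matrix.unitaryGroup (Fin n) F) V where
  toFun k := π.ρ (Unitary.toUnits k)
  map_one' := LinearMap.ext fun v => by rw [map_one]; exact π.one v
  map_mul' k l := LinearMap.ext fun v => by rw [map_mul]; exact π.mul _ _ v

/-- `v` is a `K`-finite vector. -/
def Act.KFinite (v : V) : Prop :=
  FiniteDimensional ℂ (Submodule.span ℂ (Set.range fun k => π.resK k v))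

/-- Irreducible finite-dimensional representations of `K` occur with finite multiplicity. -/
def Act.FiniteMult : Prop := ∀ (W : Type u) [AddCommGroup W] [Module ℂ W] [FiniteDimensional ℂ W]
  (τ : Representation ℂ (Matrix.unitaryGroup (Fin n) F) W), τ.IsIrreducible →
  FiniteDimensional ℂ (τ.IntertwiningMap π.resK)

/-- The `(𝔤,K)`-module of `K`-finite vectors is finitely generated. -/
def Act.FinGen (d : Mat F n → V →L[ℂ] V) : Prop :=
  ∃ s : Finset V, (∀ v ∈ s, π.KFinite v) ∧ ∀ N : Submodule ℂ V, (∀ v ∈ s, v ∈ N) →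
    (∀ X, ∀ v ∈ N, d X v ∈ N) → (∀ k, ∀ v ∈ N, π.resK k v ∈ N) → ∀ v, π.KFinite v → v ∈ N

variable (F n V) in
/-- For a Fréchet space `V`, an object of `M_∞(G_n)` on `V`: a smooth admissible representation
of moderate growth, together with its derived action `d` of the Lie algebra. -/
structure Obj extends Act F n V where
  d : Mat F n → V →L[ℂ] V
  smooth : toAct.Smooth
  derived : toAct.Derived d
  moderate : toAct.Moderate
  finiteMult : toAct.FiniteMult
  finGen : toAct.FinGen d

end

section Derivative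

variable {V W : Type*} [AddCommGroup V] [Module ℂ V] [AddCommGroup W] [Module ℂ W]

/-- `𝔳_{c+1}`: the matrices supported in the column `c` above the diagonal. -/
def col (c : ℕ) : Set (Mat F n) := {X | ∀ a b, X a b ≠ 0 → b.val = c ∧ a.val < c}

/-- The character `ψ_{c+1}` of `𝔳_{c+1}`: `√-1 π Re` of the entry just above the diagonal. -/
def psi (c : ℕ) (X : Mat F n) : ℂ :=
  Complex.I * Real.pi * ∑ a, ∑ b, if a.val + 1 = c ∧ b.val = c then (RCLike.re (X a b) : ℝ) else 0

/-- The kernel of `π → Φ^j(π)`: the step from `j` to `j+1` divides by the span of the vectors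
`α v - ψ_{n-j}(α) v`, `α ∈ 𝔳_{n-j}`. -/
def phiKer (L : Mat F n → V → V) : ℕ → Submodule ℂ V
  | 0 => ⊥
  | j + 1 => phiKer L j ⊔
      Submodule.span ℂ {w | ∃ X ∈ col (n - 1 - j), ∃ v, w = L X v - psi (n - 1 - j) X • v}

/-- The span of the vectors `β v`, `β ∈ 𝔳_{c+1}^{⊗ l}`. -/
def vPow (L : Mat F n → V → V) (c : ℕ) : ℕ → Submodule ℂ V
  | 0 => ⊤
  | l + 1 => Submodule.span ℂ {w | ∃ X ∈ col c, ∃ v ∈ vPow L c l, w = L X v}

/-- The kernel of `π → Φ^{k-1}(π) / 𝔳_{n-k+1}^{⊗ l} Φ^{k-1}(π)`. -/
def fil (L : Mat F n → V → V) (k l : ℕ) : Submodule ℂ V := phiKer L (k - 1) ⊔ vPow L (n - k) l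

/-- The inverse limit over `l` of the quotients `V / N l` of a decreasing filtration. -/
@[ext] structure Lim (N : ℕ → Submodule ℂ V) where
  val : ∀ l, V ⧸ N l
  compat : ∀ l, ∃ v, val (l + 1) = Submodule.Quotient.mk v ∧ val l = Submodule.Quotient.mk v

/-- `a` is the map induced by `f` on the inverse limits. -/
def Induces {N : ℕ → Submodule ℂ V} {N' : ℕ → Submodule ℂ W} (f : V → W) (a : Lim N → Lim N') :
    Prop :=
  ∀ x l v, x.val l = Submodule.Quotient.mk v → (a x).val l = Submodule.Quotient.mk (f v)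

/-- `D^k(π) = Ψ(Φ^{k-1}(π))` as a vector space. -/
abbrev Der [TopologicalSpace V] (π : Obj F n V) (k : ℕ) := Lim (fil (fun X => π.d X) k)

end Derivative

end Pool.Agent.Lib.MP_1176eb_al
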