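import Pool.Agent.Lib.MP_1176eb_al.Tower


/-! Inverse limits and the Artin-Rees property of the filtration. -/

set_option autoImplicit false
set_option linter.unusedSectionVars false

noncomputable section

namespace Pool.Agent.Lib.MP_1176eb_al

open Submodule

variable {F : Type} [RCLike F] {n : ℕ}

section

variable {U V W : Type*} [AddCommGroup U] [Module ℂ U] [AddCommGroup V] [Module ℂ V]
  [AddCommGroup W] [Module ℂ W]

/-- powers applied to a subspace -/
def vN (L : Mat F n → V → V) (N : Submodule ℂ V) (c : ℕ) : ℕ → Submodule ℂ V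
  | 0 => N
  | l + 1 => span ℂ {w | ∃ X ∈ col c, ∃ v ∈ vN L N c l, w = L X v}

variable {K : Mat F n → U → U} {L : Mat F n → V → V} {L' : Mat F n → W → W} {k : ℕ}

theorem map_fil (f : V →ₗ[ℂ] W) (h : ∀ X v, f (L X v) = L' X (f v)) (l : ℕ) :
    (fil L k l).map f = phiN L' (LinearMap.range f) (k - 1) ⊔
      vN L' (LinearMap.range f) (n - k) l := by
  rw [fil, Submodule.map_sup]
  congr 1
  · induction k - 1 with
    | zero => exact Submodule.map_bot f
    | succ j ih =>
      rw [phiKer, phiN, Submodule.map_sup, ih, map_span, cN]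
      congr 2
      ext w
      constructor
      · rintro ⟨_, ⟨X, hX, v, rfl⟩, rfl⟩
        exact ⟨X, hX, f v, ⟨v, rfl⟩, by rw [map_sub, map_smul, h]⟩
      · rintro ⟨X, hX, _, ⟨v, rfl⟩, rfl⟩
        exact ⟨_, ⟨X, hX, v, rfl⟩, by rw [map_sub, map_smul, h]⟩
  · induction l with
    | zero => exact Submodule.map_top f
    | succ l ih =>
      rw [vPow, vN, map_span, ← ih]
      congr 1
      ext w
      constructor
      · rintro ⟨_, ⟨X, hX, v, hv, rfl⟩, rfl⟩
        exact ⟨X, hX, f v, ⟨v, hv, rfl⟩, h X v⟩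
      · rintro ⟨X, hX, _, ⟨v, hv, rfl⟩, rfl⟩
        exact ⟨_, ⟨X, hX, v, hv, rfl⟩, h X v⟩

theorem fil_eq (l : ℕ) : fil L k l = phiN L ⊤ (k - 1) ⊔ vN L ⊤ (n - k) l := by
  simpa using map_fil (L := L) (k := k) LinearMap.id (fun _ _ => rfl) l

theorem phiN_mono {N N' : Submodule ℂ V} (h : N ≤ N') (j : ℕ) : phiN L N j ≤ phiN L N' j := by
  induction j with
  | zero => exact le_rfl
  | succ j ih =>
    exact sup_le_sup ih (span_mono fun _ ⟨X, hX, v, hv, e⟩ => ⟨X, hX, v, h hv, e⟩)

theorem vN_mono {N N' : Submodule ℂ V} (h : N ≤ N') (c l : ℕ) : vN L N c l ≤ vN L N' c l := by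
  induction l with
  | zero => exact h
  | succ l ih => exact span_mono fun _ ⟨X, hX, v, hv, e⟩ => ⟨X, hX, v, ih hv, e⟩

theorem cN_le {N : Submodule ℂ V} {c j : ℕ} (h1 : c < n) (h2 : n ≤ c + j) :
    cN L N c ≤ phiN L N j := by
  induction j with
  | zero => omega
  | succ j ih =>
    by_cases h : n ≤ c + j
    · exact le_sup_of_le_left (ih h)
    · exact le_sup_of_le_right (by rw [show n - 1 - j = c by omega])

theorem fil_anti : Antitone (fil L k) := antitone_nat_of_succ_le fun l => by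
  refine sup_le_sup_left ?_ _
  induction l with
  | zero => exact le_top
  | succ l ih => exact span_mono fun _ ⟨X, hX, v, hv, e⟩ => ⟨X, hX, v, ih hv, e⟩

theorem der_le (x : Lim (fil L k)) {l m : ℕ} (h : l ≤ m) {v : V}
    (hv : x.val m = Submodule.Quotient.mk v) : x.val l = Submodule.Quotient.mk v := by
  induction m, h using Nat.le_induction with
  | base => exact hv
  | succ m h ih =>
    obtain ⟨u, h1, h2⟩ := x.2 m
    exact ih (h2.trans ((Submodule.Quotient.eq _).2
      (fil_anti m.le_succ ((Submodule.Quotient.eq _).1 (h1.symm.trans hv)))))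

theorem exists_der (v : ℕ → V) (h : ∀ l, v (l + 1) - v l ∈ fil L k l) :
    ∃ x : Lim (fil L k), ∀ l, x.val l = Submodule.Quotient.mk (v l) :=
  ⟨⟨fun l => Submodule.Quotient.mk (v l), fun l => ⟨v (l + 1), rfl,
    ((Submodule.Quotient.eq _).2 (h l)).symm⟩⟩, fun _ => rfl⟩

theorem exists_induces (f : V →ₗ[ℂ] W) (h : ∀ l, fil L k l ≤ (fil L' k l).comap f) :
    ∃ a : Lim (fil L k) → Lim (fil L' k), Induces f a :=
  ⟨fun x => ⟨fun l => mapQ _ _ f (h l) (x.val l), fun l => by
    obtain ⟨v, h1, h2⟩ := x.2 l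
    exact ⟨f v, by simp [h1], by simp [h2]⟩⟩, fun x l v hv => by simp [hv]⟩

theorem exact_of_ar {f : U →ₗ[ℂ] V} {g : V →ₗ[ℂ] W} (hf : ∀ X v, f (K X v) = L X (f v))
    (hg : ∀ X v, g (L X v) = L' X (g v)) (ex : Function.Exact f g) (su : Function.Surjective g)
    (ar : ∀ l, ∃ m, ∀ v, f v ∈ fil L k m → v ∈ fil K k l) :
    ∃ (a : Lim (fil K k) → Lim (fil L k)) (b : Lim (fil L k) → Lim (fil L' k)),
      Induces f a ∧ Induces g b ∧ Function.Injective a ∧
      (∀ y, (∀ l, (b y).val l = 0) ↔ ∃ x, a x = y) ∧ Function.Surjective b := by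
  have h1 : ∀ l, fil K k l ≤ (fil L k l).comap f := fun l => map_le_iff_le_comap.1 (by
    rw [map_fil f hf, fil_eq]
    exact sup_le_sup (phiN_mono le_top _) (vN_mono le_top _ _))
  have h2 : ∀ l, (fil L k l).map g = fil L' k l := fun l => by
    rw [map_fil g hg, fil_eq, LinearMap.range_eq_top.2 su]
  obtain ⟨a, ha⟩ := exists_induces f h1
  obtain ⟨b, hb⟩ := exists_induces g fun l => map_le_iff_le_comap.1 (h2 l).le
  choose m hm using ar
  refine ⟨a, b, ha, hb, fun x x' hx => ?_, fun y => ⟨fun hy => ?_, ?_⟩, fun y => ?_⟩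
  · refine Lim.ext (funext fun l => ?_)
    obtain ⟨v, hv⟩ := Submodule.Quotient.mk_surjective _ (x.val (max l (m l)))
    obtain ⟨v', hv'⟩ := Submodule.Quotient.mk_surjective _ (x'.val (max l (m l)))
    have := ha x _ v (der_le x (le_max_right _ _) hv.symm)
    rw [hx, ha x' _ v' (der_le x' (le_max_right _ _) hv'.symm), Submodule.Quotient.eq,
      ← map_sub] at this
    rw [der_le x (le_max_left _ _) hv.symm, der_le x' (le_max_left _ _) hv'.symm]
    exact ((Submodule.Quotient.eq _).2 (hm l _ this)).symm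
  · choose s hs using fun l => show ∃ s, y.val l = Submodule.Quotient.mk (f s) by
      obtain ⟨v, hv⟩ := Submodule.Quotient.mk_surjective _ (y.val l)
      have := hb y l v hv.symm
      rw [hy] at this
      obtain ⟨u, h3, h4⟩ := (h2 l).ge ((Submodule.Quotient.mk_eq_zero _).1 this.symm)
      obtain ⟨s, h5⟩ := (ex (v - u)).1 (by rw [map_sub, h4, sub_self])
      exact ⟨s, hv.symm.trans ((Submodule.Quotient.eq _).2 (by simpa [h5] using h3))⟩
    let M : ℕ → ℕ := fun l => l + ∑ j ∈ Finset.range (l + 1), m j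
    have M1 : ∀ l, m l ≤ M l := fun l => by simp only [M, Finset.sum_range_succ]; omega
    have M2 : ∀ l, M l ≤ M (l + 1) := fun l => by
      simp only [M, Finset.sum_range_succ _ (l + 1)]; omega
    obtain ⟨x, hx⟩ := exists_der (L := K) (k := k) (fun l => s (M l)) fun l => hm l _ (by
      rw [map_sub]
      exact (Submodule.Quotient.eq _).1 ((der_le y ((M1 l).trans (M2 l)) (hs _)).symm.trans
        (der_le y (M1 l) (hs _))))
    exact ⟨x, Lim.ext (funext fun l => (ha x l _ (hx l)).trans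
      (der_le y (Nat.le_add_right _ _) (hs _)).symm)⟩
  · rintro ⟨x, rfl⟩ l
    obtain ⟨v, hv⟩ := Submodule.Quotient.mk_surjective _ (x.val l)
    rw [hb _ l _ (ha x l v hv.symm), ex.apply_apply_eq_zero]
    rfl
  · choose t ht using fun l => show ∃ t, y.val l = Submodule.Quotient.mk (g t) by
      obtain ⟨v, hv⟩ := Submodule.Quotient.mk_surjective _ (y.val l)
      obtain ⟨t, rfl⟩ := su v
      exact ⟨t, hv.symm⟩
    choose u u1 u2 using fun l => (h2 l).ge ((Submodule.Quotient.eq _).1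
      ((der_le y l.le_succ (ht _)).symm.trans (ht l)))
    obtain ⟨x, hx⟩ := exists_der (L := L) (k := k) (fun l => t 0 + ∑ j ∈ Finset.range l, u j)
      fun l => by simpa [Finset.sum_range_succ] using u1 l
    refine ⟨x, Lim.ext (funext fun l => (hb x l _ (hx l)).trans ?_)⟩
    rw [ht, map_add, map_sum]
    simp only [u2, Finset.sum_range_sub (fun j => g (t j)), add_sub_cancel]

end

variable {V W : Type*} [AddCommGroup V] [Module ℂ V] [UniformSpace V] [Frechet V] [AddCommGroup W]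
  [Module ℂ W] [UniformSpace W] [Frechet W]

theorem Rep.ar (π : Rep F n V) (σ : Rep F n W) (f : V →L[ℂ] W)
    (hf : ∀ g v, f (π.ρ g v) = σ.ρ g (f v)) (inj : Function.Injective f)
    (hS : IsClosed (Set.range f)) {k : ℕ} (h1 : 1 ≤ k) (h2 : k ≤ n) (l : ℕ) :
    ∃ m, ∀ v, f v ∈ fil (fun X => σ.d X) k m → v ∈ fil (fun X => π.d X) k l := by
  have hd := π.map_d σ f hf
  set S := LinearMap.range (f : V →ₗ[ℂ] W)
  have SG : ∀ g, ∀ v ∈ S, σ.ρ g v ∈ S := by
    rintro g _ ⟨v, rfl⟩
    exact ⟨π.ρ g v, hf g v⟩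
  obtain ⟨t1, t2⟩ := σ.tower (S := S) hS SG (j := k - 1) (by omega)
  have WG : ∀ {g}, Hc (n - k) g → _ := fun {g} h => σ.phiN_inv (g := g) (j := k - 1) h (by omega)
  obtain ⟨s0, h0⟩ := σ.exists_pa (Nat.sub_le n k)
  obtain ⟨s1, h3⟩ := π.exists_pa (Nat.sub_le n k)
  have eX : ∀ y v, ((uMask n (n - k)).ud σ 0).X y v = σ.d ((uMask n (n - k)).mk' y) v :=
    fun y v => by simp [Mask.ud]
  have SU : ∀ x, ∀ v ∈ S, ((uMask n (n - k)).ud σ 0).U x v ∈ S := fun x v hv =>
    S.smul_mem _ (SG _ v hv)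
  have WU : ∀ x, ∀ v ∈ phiN (fun X => σ.d X) ⊤ (k - 1),
      ((uMask n (n - k)).ud σ 0).U x v ∈ phiN (fun X => σ.d X) ⊤ (k - 1) := fun x v hv =>
    smul_mem _ _ (WG ((uMask n (n - k)).uu_Hc (fun _ _ h => h.1) x) v hv)
  obtain ⟨m, hm⟩ := (σ.ad (n - k)).artin_rees (S := S) hS t1 SU WU (fun t => SG _)
    (fun t => WG fun a b ha => by simp [dg, dd, Matrix.diagonal_apply, Matrix.one_apply, ha.not_gt])
    h0 (s1 := s1) (by
      rintro _ ⟨v, rfl⟩
      have e : ∀ s, f (pa (π.d (IA F n (n - k))) s v) = pa (σ.d (IA F n (n - k))) s (f v) :=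
        fun s => by
          induction s using Multiset.induction_on with
          | empty => rw [pa_zero, pa_zero]
          | cons r s ih => rw [pa_cons, pa_cons, map_sub, map_smul, hd, ih]
      change pa (σ.d _) s1 (f v) ∈ _
      rw [← e]
      refine (span_le (p := (UD.pw _ S 1).comap (f : V →ₗ[ℂ] W))).2 ?_ (h3 v)
      rintro _ ⟨ys, hy, u, -, rfl⟩
      obtain ⟨y, rfl⟩ := List.length_eq_one_iff.1 hy
      exact subset_span ⟨[y], rfl, f u, ⟨u, rfl⟩, by simp [UD.mon, Mask.ud, hd]⟩) l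
  refine ⟨m, fun v hv => ?_⟩
  have k1 : ∀ l, vN (fun X => σ.d X) ⊤ (n - k) l ≤ ((uMask n (n - k)).ud σ 0).pw ⊤ l := fun l => by
    induction l with
    | zero => exact (UD.pw_zero _ _).ge
    | succ l ih =>
      refine span_le.2 ?_
      rintro _ ⟨X, hX, u, hu, rfl⟩
      have := UD.mon_pw _ [WithLp.toLp 2 fun i => X i.1 i.2] (ih hu)
      rwa [UD.mon_cons, eX, (uMask n (n - k)).mk_eq fun a b h => ⟨(hX a b h).2, (hX a b h).1.ge⟩]
        at this
  have k2 : ∀ l, vN (fun X => σ.d X) S (n - k) l ≤ S := fun l => by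
    induction l with
    | zero => exact le_rfl
    | succ l ih =>
      refine span_le.2 ?_
      rintro _ ⟨X, -, u, hu, rfl⟩
      exact σ.d_mem hS SG X (ih hu)
  have k3 : ∀ ys : List (EE F n), ∀ u ∈ S, ((uMask n (n - k)).ud σ 0).mon ys u ∈
      phiN (fun X => σ.d X) ⊤ (k - 1) ⊓ S ⊔ vN (fun X => σ.d X) S (n - k) ys.length :=
    fun ys u hu => by
      induction ys with
      | nil => exact mem_sup_right hu
      | cons y ys ih =>
        obtain ⟨w1, a1, w2, a2, e⟩ := mem_sup.1 ih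
        rw [UD.mon_cons, ← e, map_add]
        refine add_mem (mem_sup_left ⟨UD.X_mem _ t1 WU y a1.1, UD.X_mem _ hS SU y a1.2⟩) ?_
        have e2 : (uMask n (n - k)).mk' y = ∑ c, Matrix.of fun a b =>
            if b = c then (uMask n (n - k)).mk' y a b else 0 := by
          ext a b
          simp [Matrix.sum_apply]
        rw [eX, e2]
        refine (congrArg (· ∈ _) (map_sum (σ.dv w2) _ _)).mpr (sum_mem fun c _ => ?_)
        generalize hY : (Matrix.of fun a b => if b = c then (uMask n (n - k)).mk' y a b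
          else 0 : Mat F n) = Y
        have a3 : ∀ a b, Y a b ≠ 0 → b = c ∧ a.val < n - k ∧ n - k ≤ b.val := fun a b h => by
          rw [← hY, Matrix.of_apply, ite_ne_right_iff] at h
          exact ⟨h.1, (uMask n (n - k)).mk_ne h.2⟩
        by_cases hc : c.val ≤ n - k
        · exact mem_sup_right (subset_span ⟨Y, fun a b h => by
            obtain ⟨rfl, k4, k5⟩ := a3 a b h
            omega, w2, a2, rfl⟩)
        · refine mem_sup_left ⟨cN_le c.2 (by omega) (subset_span ⟨Y, fun a b h => by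
            obtain ⟨rfl, k4, k5⟩ := a3 a b h
            omega, w2, trivial, ?_⟩), σ.d_mem hS SG Y (k2 _ a2)⟩
          rw [psi, Finset.sum_eq_zero fun a _ => Finset.sum_eq_zero fun b _ => ?_]
          · simp [Rep.dv]
          · split_ifs with h
            · rw [show Y a b = 0 from not_not.1 fun k => by have := a3 a b k; omega]
              simp
            · rfl
  rw [fil_eq] at hv
  have := hm (f v) ⟨v, rfl⟩ (sup_le_sup_left (k1 m) _ hv)
  have k4 : f v ∈ (fil (fun X => π.d X) k l).map (f : V →ₗ[ℂ] W) := by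
    rw [map_fil (L' := fun X => σ.d X) _ hd]
    have k5 : phiN (fun X => σ.d X) ⊤ (k - 1) ⊓ S ≤ phiN (fun X => σ.d X) S (k - 1) :=
      fun w hw => t2 w hw.2 hw.1
    refine sup_le (le_sup_of_le_left k5) (span_le.2 ?_) this
    rintro _ ⟨ys, rfl, u, hu, rfl⟩
    exact sup_le_sup_right k5 _ (k3 ys u hu)
  obtain ⟨u, hu, e⟩ := k4
  exact inj e ▸ hu

end Pool.Agent.Lib.MP_1176eb_al
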