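import Pool.Agent.Lib.MP_1176eb_al.AR

-- part Pool.Agent.Lib.MP_1176eb_al.Grp
section

/-! The derived action, unipotent subgroups and the contracting torus of `GL(n,F)`. -/

set_option autoImplicit false
set_option linter.unusedSectionVars false

noncomputable section

namespace Pool.Agent.Lib.MP_1176eb_al

open Filter Topology Complex
open scoped ContDiff RealInnerProductSpace

variable {F : Type} [RCLike F] {n : ℕ} {V : Type*} [AddCommGroup V] [Module ℂ V] [UniformSpace V]
  [Frechet V] (π : Rep F n V)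

theorem isOpen_det : IsOpen {A : Fin n → Fin n → F | (Matrix.of A).det ≠ 0} :=
  isOpen_ne_fun (Continuous.matrix_det continuous_id) continuous_const

namespace Rep

theorem mul_apply (g h : GL (Fin n) F) (v : V) : π.ρ (g * h) v = π.ρ g (π.ρ h v) := by
  rw [map_mul]; rfl

theorem one_apply (v : V) : π.ρ 1 v = v := by rw [map_one]; rfl

@[fun_prop] theorem cont' {Z : Type*} [TopologicalSpace Z] {f : Z → GL (Fin n) F} {g : Z → V}
    (hf : Continuous f) (hg : Continuous g) : Continuous fun z => π.ρ (f z) (g z) :=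
  π.cont.comp (hf.prodMk hg)

theorem exists_fd (v : V) (η : V →L[ℂ] ℂ) : ∃ L : (Fin n → Fin n → F) →L[ℝ] ℂ,
    (∀ X : Mat F n, η (π.d X v) = L X) ∧ ∀ (γ : ℝ → GL (Fin n) F) (X : Mat F n), γ 0 = 1 →
      HasDerivAt (F := Fin n → Fin n → F) (fun t => (γ t).val) X 0 →
      HasDerivAt (fun t => η (π.ρ (γ t) v)) (L X) 0 := by
  obtain ⟨Φ, h1, h2⟩ := π.smooth v η
  obtain ⟨o, ho⟩ : ∃ o : Fin n → Fin n → F, o = (1 : Mat F n) := ⟨_, rfl⟩
  have h3 := ((h1.contDiffAt (x := o) (isOpen_det.mem_nhds (by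
    rw [ho]
    change (1 : Mat F n).det ≠ 0
    simp))).differentiableAt (by simp)).hasFDerivAt
  have key : ∀ (γ : ℝ → GL (Fin n) F) (X : Mat F n), γ 0 = 1 →
      HasDerivAt (F := Fin n → Fin n → F) (fun t => (γ t).val) X 0 →
      HasDerivAt (fun t => η (π.ρ (γ t) v)) (fderiv ℝ Φ o X) 0 := fun γ X h0 hγ => by
    simp only [← h2]
    exact h3.comp_hasDerivAt_of_eq 0 hγ (by rw [h0, ho]; rfl)
  refine ⟨_, fun X => (π.deriv X v η).unique (key _ X (Units.ext (by simp)) ?_), key⟩
  open scoped Matrix.Norms.Operator in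
  have := hasDerivAt_exp_smul_const (𝕂 := ℝ) X 0
  rw [zero_smul, NormedSpace.exp_zero, one_mul] at this
  exact this

theorem curve {γ : ℝ → GL (Fin n) F} {X : Mat F n} (h0 : γ 0 = 1)
    (h : ∀ a b, HasDerivAt (fun t => (γ t).val a b) (X a b) 0) (v : V) (η : V →L[ℂ] ℂ) :
    HasDerivAt (fun t => η (π.ρ (γ t) v)) (η (π.d X v)) 0 := by
  obtain ⟨L, h1, h2⟩ := π.exists_fd v η
  exact h1 X ▸ h2 γ X h0 (hasDerivAt_pi.2 fun a => hasDerivAt_pi.2 (h a))

theorem d_add (X Y : Mat F n) (v : V) : π.d (X + Y) v = π.d X v + π.d Y v :=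
  eq_of_dual fun η => by
    obtain ⟨L, h1, -⟩ := π.exists_fd v η
    rw [map_add, h1, h1, h1]
    exact L.map_add X Y

theorem d_smul (r : ℝ) (X : Mat F n) (v : V) : π.d (r • X) v = (r : ℂ) • π.d X v :=
  eq_of_dual fun η => by
    obtain ⟨L, h1, -⟩ := π.exists_fd v η
    rw [map_smul, h1, h1]
    exact L.map_smul r X

/-- the derived action on a vector as an additive map -/
def dv (v : V) : Mat F n →+ V := .mk' (fun X => π.d X v) fun X Y => π.d_add X Y v

theorem Ad (g : GL (Fin n) F) (X : Mat F n) (v : V) :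
    π.ρ g (π.d X v) = π.d (g.val * X * (g⁻¹).val) (π.ρ g v) :=
  eq_of_dual fun η => (π.deriv X v (η.comp (π.ρ g))).unique (by
    have e : ∀ t : ℝ, (Matrix.isUnit_exp (t • (g.val * X * (g⁻¹).val))).unit * g =
        g * (Matrix.isUnit_exp (t • X)).unit := fun t => by
      rw [← eq_mul_inv_iff_mul_eq]
      refine Units.ext ?_
      simp only [Units.val_mul, IsUnit.unit_spec]
      rw [← Matrix.exp_units_conj, mul_smul_comm, smul_mul_assoc]
    simpa only [← π.mul_apply, e, ContinuousLinearMap.comp_apply] using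
      π.deriv (g.val * X * (g⁻¹).val) (π.ρ g v) η)

theorem d_mem {S : Submodule ℂ V} (hS : IsClosed (S : Set V)) (h : ∀ g, ∀ v ∈ S, π.ρ g v ∈ S)
    (X : Mat F n) {v : V} (hv : v ∈ S) : π.d X v ∈ S :=
  mem_of_dual hS fun η hη => (π.deriv X v η).unique (by
    simpa only [hη _ (h _ _ hv)] using hasDerivAt_const (0 : ℝ) (0 : ℂ))

theorem map_d {W : Type*} [AddCommGroup W] [Module ℂ W] [UniformSpace W] [Frechet W]
    (σ : Rep F n W) (f : V →L[ℂ] W) (hf : ∀ g v, f (π.ρ g v) = σ.ρ g (f v)) (X : Mat F n) (v : V) :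
    f (π.d X v) = σ.d X (f v) :=
  eq_of_dual fun η => (π.deriv X v (η.comp f)).unique (by
    simpa only [hf, ContinuousLinearMap.comp_apply] using σ.deriv X (f v) η)

end Rep

theorem nrm_le {g : GL (Fin n) F} {B : ℝ} (hB : 1 ≤ B) (h1 : ∀ a b, ‖g.val a b‖ ≤ B)
    (h2 : ∀ a b, ‖(g⁻¹).val a b‖ ≤ B) : 0 ≤ nrm g ∧ nrm g ≤ (1 + 2 * n ^ 2) * B := by
  refine ⟨by unfold nrm; positivity, ?_⟩
  have : ∑ a, ∑ b, (‖g.val a b‖ + ‖(g⁻¹).val a b‖) ≤ ∑ a : Fin n, ∑ b : Fin n, (B + B) :=
    Finset.sum_le_sum fun a _ => Finset.sum_le_sum fun b _ => add_le_add (h1 a b) (h2 a b)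
  simp only [Finset.sum_const, Finset.card_univ, Fintype.card_fin, nsmul_eq_mul] at this
  unfold nrm
  nlinarith

theorem norm_one_le (a b : Fin n) : ‖(1 : Mat F n) a b‖ ≤ 1 := by
  rw [Matrix.one_apply]
  split_ifs <;> simp

/-- the parameter space -/
abbrev EE (F : Type) [RCLike F] (n : ℕ) := EuclideanSpace F (Fin n × Fin n)

/-- a set of positions that spans an abelian nilpotent algebra -/
structure Mask (n : ℕ) where
  M : Fin n → Fin n → Prop
  nil : ∀ a b c, M a b → M b c → False

open Classical in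
/-- the matrix with the given entries in the positions of the mask -/
def Mask.mk' (M : Mask n) (x : EE F n) : Mat F n := Matrix.of fun a b =>
  if M.M a b then x (a, b) else 0

namespace Mask

variable (M : Mask n)

theorem mk_ne {x : EE F n} {a b : Fin n} (h : M.mk' x a b ≠ 0) : M.M a b := by
  by_contra hc
  exact h (if_neg hc)

theorem mk_add (x y : EE F n) : M.mk' (x + y) = M.mk' x + M.mk' y := by
  ext a b
  simp only [mk', Matrix.of_apply, Matrix.add_apply]
  split_ifs <;> simp

theorem mk_smul (r : ℝ) (x : EE F n) : M.mk' (r • x) = r • M.mk' x := by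
  ext a b
  simp only [mk', Matrix.of_apply, Matrix.smul_apply]
  split_ifs <;> simp

theorem mk_mul (x y : EE F n) : M.mk' x * M.mk' y = 0 := by
  ext a c
  rw [Matrix.mul_apply]
  refine Finset.sum_eq_zero fun b _ => ?_
  by_contra h
  exact M.nil a b c (M.mk_ne (left_ne_zero_of_mul h)) (M.mk_ne (right_ne_zero_of_mul h))

theorem mk_le (x : EE F n) (a b : Fin n) : ‖M.mk' x a b‖ ≤ ‖x‖ := by
  simp only [mk', Matrix.of_apply]
  split_ifs
  · exact PiLp.norm_apply_le x _
  · simp

theorem mk_eq {X : Mat F n} (h : ∀ a b, X a b ≠ 0 → M.M a b) :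
    M.mk' (WithLp.toLp 2 fun i => X i.1 i.2) = X := by
  ext a b
  simp only [mk', Matrix.of_apply]
  split_ifs with hc
  · rfl
  · exact (not_not.1 (mt (h a b) hc)).symm

theorem mk_cont : Continuous (M.mk' : EE F n → Mat F n) :=
  continuous_matrix fun a b => by
    simp only [mk', Matrix.of_apply]
    split_ifs <;> fun_prop

/-- the unipotent element -/
def uu (x : EE F n) : GL (Fin n) F :=
  ⟨1 + M.mk' x, 1 - M.mk' x, by simp [mul_sub, add_mul, mk_mul], by simp [mul_add, sub_mul, mk_mul]⟩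

/-- the twisted action of the unipotent group -/
def ud (ℓ : EE F n →L[ℝ] ℝ) : UD (EE F n) V where
  U x := exp (-(ℓ x * I)) • π.ρ (M.uu x)
  X y := π.d (M.mk' y) - (ℓ y * I) • 1
  U_zero v := by
    have : M.uu (0 : EE F n) = 1 := Units.ext (by simpa [uu] using M.mk_smul 0 (0 : EE F n))
    simp [this]
  U_add x y v := by
    have : M.uu (x + y) = M.uu x * M.uu y :=
      Units.ext (by simp [uu, mk_add, mul_add, add_mul, mk_mul]; abel)
    simp only [this, smul_apply, map_smul, π.mul_apply, smul_smul, ← exp_add, map_add]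
    congr 2
    push_cast
    ring
  cont := by
    have := M.mk_cont (F := F)
    have : Continuous (M.uu (F := F)) := Units.continuous_iff.2
      ⟨continuous_const.add this, continuous_const.sub this⟩
    simp only [smul_apply]
    fun_prop
  growth p hp := by
    obtain ⟨q, N, hq, h⟩ := π.growth p hp
    refine ⟨q, N, (1 + 2 * n ^ 2) ^ N, hq, by positivity, fun x v => ?_⟩
    obtain ⟨h1, h2⟩ := nrm_le (g := M.uu x) (B := 1 + ‖x‖) (by simp)
      (fun a b => (norm_add_le _ _).trans (add_le_add (norm_one_le a b) (M.mk_le x a b)))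
      fun a b => (norm_sub_le _ _).trans (add_le_add (norm_one_le a b) (M.mk_le x a b))
    rw [smul_apply, map_smul_eq_mul, ← neg_mul, ← ofReal_neg, norm_exp_ofReal_mul_I, one_mul,
      ← mul_pow]
    exact (h _ _).trans (by gcongr)
  X_add x y v := by
    simp only [mk_add, sub_apply, π.d_add, smul_apply, map_add, ofReal_add]
    module
  X_smul r x v := by
    simp only [mk_smul, sub_apply, π.d_smul, smul_apply, map_smul, smul_eq_mul, ofReal_mul]
    module
  deriv y v η := by
    have h0 : M.uu ((0 : ℝ) • y) = 1 := Units.ext (by simp [uu, mk_smul, -zero_smul])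
    have h1 := π.curve (γ := fun t : ℝ => M.uu (t • y)) (X := M.mk' y) h0 (fun a b => by
      simpa [uu, mk_smul] using ((hasDerivAt_id (0 : ℝ)).smul_const (M.mk' y a b)).const_add
        ((1 : Mat F n) a b)) v η
    have h2 := (cexp_deriv (-(ℓ y * I)) 0).mul h1
    simp only [smul_apply, map_smul, smul_eq_mul, ofReal_mul]
    refine (h2.congr_of_eventuallyEq (.of_forall fun t => ?_)).congr_deriv ?_
    · simp only [Pi.mul_apply]
      ring_nf
    · rw [h0]
      simp
      ring

end Mask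

/-- the mask of the unipotent radical of the parabolic subgroup `(m, n - m)` -/
def uMask (n m : ℕ) : Mask n := ⟨fun a b => a.val < m ∧ m ≤ b.val, fun _ _ _ h k => by omega⟩

/-- the mask of a column -/
def cMask (n c : ℕ) : Mask n := ⟨fun a b => b.val = c ∧ a.val < c, fun _ _ _ h k => by omega⟩

/-- the grading element -/
def IA (F : Type) [RCLike F] (n m : ℕ) : Mat F n :=
  Matrix.diagonal fun a => if a.val < m then 1 else 0

/-- the diagonal entries of the torus -/
def dd (F : Type) [RCLike F] (n m : ℕ) (t : ℝ) (a : Fin n) : F :=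
  if a.val < m then (Real.exp (-t) : ℝ) else 1

theorem dd_add (m : ℕ) (s t : ℝ) : Matrix.diagonal (dd F n m (s + t)) =
    Matrix.diagonal (dd F n m s) * Matrix.diagonal (dd F n m t) := by
  rw [Matrix.diagonal_mul_diagonal]
  congr 1
  funext a
  simp only [dd]
  split_ifs <;> simp [Real.exp_add, mul_comm]

theorem dd_zero (m : ℕ) : Matrix.diagonal (dd F n m 0) = 1 := by
  rw [← Matrix.diagonal_one]
  congr 1
  funext a
  simp [dd]

/-- the torus -/
def dg (F : Type) [RCLike F] (n m : ℕ) (t : ℝ) : GL (Fin n) F :=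
  ⟨Matrix.diagonal (dd F n m t), Matrix.diagonal (dd F n m (-t)), by rw [← dd_add]; simp [dd_zero],
    by rw [← dd_add]; simp [dd_zero]⟩

/-- the contracting torus -/
def Rep.ad (m : ℕ) : AD ((uMask n m).ud π 0) where
  A t := π.ρ (dg F n m t)
  a := π.d (IA F n m)
  A_zero v := by rw [show dg F n m 0 = 1 from Units.ext (dd_zero m), π.one_apply]
  A_add s t v := by
    rw [show dg F n m (s + t) = dg F n m s * dg F n m t from Units.ext (dd_add m s t), π.mul_apply]
  cont v := by
    have h : Continuous fun t => Matrix.diagonal (dd F n m t) :=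
      Continuous.matrix_diagonal (continuous_pi fun a => by unfold dd; split_ifs <;> fun_prop)
    exact π.cont' (Units.continuous_iff.2 ⟨h, h.comp continuous_neg⟩) continuous_const
  growth p hp := by
    obtain ⟨q, N, hq, h⟩ := π.growth p hp
    refine ⟨q, N, (1 + 2 * n ^ 2) ^ N, hq, by positivity, fun t v ht => ?_⟩
    have e : ∀ s, -s ≤ t → ∀ a b, ‖Matrix.diagonal (dd F n m s) a b‖ ≤ Real.exp t :=
      fun s hs a b => by
        rw [Matrix.diagonal_apply, dd]
        split_ifs <;> simp [*, Real.exp_nonneg]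
    obtain ⟨h1, h2⟩ := nrm_le (g := dg F n m t) (Real.one_le_exp ht) (e t (by linarith))
      (e (-t) (by linarith))
    rw [Real.exp_nat_mul, ← mul_pow]
    exact (h _ _).trans (by gcongr)
  deriv v η := by
    have := π.curve (γ := dg F n m) (X := (-1 : ℝ) • IA F n m) (Units.ext (dd_zero m))
      (fun a b => by
        simp only [dg, IA, Matrix.smul_apply, Matrix.diagonal_apply, dd]
        split_ifs
        · simpa [RCLike.real_smul_eq_coe_mul] using
            (hasDerivAt_neg (0 : ℝ)).exp.smul_const (1 : F)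
        all_goals simpa using hasDerivAt_const _ _) v η
    simpa [π.d_smul, -neg_smul] using this
  A_X t y v := by
    have e : (dg F n m t).val * (uMask n m).mk' y * ((dg F n m t)⁻¹).val =
        Real.exp (-t) • (uMask n m).mk' y := by
      ext a b
      change (Matrix.diagonal _ * _ * Matrix.diagonal _ : Mat F n) a b = _
      rw [Matrix.mul_diagonal, Matrix.diagonal_mul, Matrix.smul_apply]
      by_cases h : (uMask n m).mk' y a b = 0
      · simp [h]
      · have := (uMask n m).mk_ne h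
        simp [dd, this.1, this.2.not_gt, RCLike.real_smul_eq_coe_mul]
    simp [Mask.ud, π.Ad, e, π.d_smul, -Matrix.coe_units_inv]

end Pool.Agent.Lib.MP_1176eb_al
end
end

-- part Pool.Agent.Lib.MP_1176eb_al.Dens
section

/-! The `K`-finite vectors are dense; finite multiplicities for all finite-dimensional modules. -/

set_option autoImplicit false
set_option linter.unusedSectionVars false

noncomputable section

namespace Pool.Agent.Lib.MP_1176eb_al

open Filter Topology MeasureTheory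

universe u

variable {F : Type} [RCLike F] {n : ℕ}

/-- the maximal compact subgroup -/
abbrev KK (F : Type) [RCLike F] (n : ℕ) : Type := Matrix.unitaryGroup (Fin n) F

instance : CompactSpace (KK F n) := by
  refine isCompact_iff_compactSpace.1 ?_
  have : ProperSpace F := FiniteDimensional.proper_rclike F F
  have h1 : IsCompact (Set.pi Set.univ fun _ : Fin n => Set.pi Set.univ fun _ : Fin n =>
      Metric.closedBall (0 : F) 1) :=
    isCompact_univ_pi fun _ => isCompact_univ_pi fun _ => isCompact_closedBall _ _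
  refine IsCompact.of_isClosed_subset (s := (Set.pi Set.univ fun _ : Fin n => Set.pi Set.univ
    fun _ : Fin n => Metric.closedBall (0 : F) 1 : Set (Mat F n))) h1
    (isClosed_unitary (R := Mat F n)) ?_
  intro A hA i _ j _
  rw [mem_closedBall_zero_iff]
  exact entry_norm_bound_of_unitary hA i j

/-- left translation of functions -/
def lt (k : KK F n) : C(KK F n, ℝ) →ₐ[ℝ] C(KK F n, ℝ) :=
  ContinuousMap.compRightAlgHom ℝ ℝ (ContinuousMap.mulLeft k)

/-- the functions of finite type -/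
def fin (F : Type) [RCLike F] (n : ℕ) : Subalgebra ℝ C(KK F n, ℝ) where
  carrier := {f | ∃ U : Submodule ℝ C(KK F n, ℝ), U.FG ∧ f ∈ U ∧ ∀ k, ∀ g ∈ U, lt k g ∈ U}
  mul_mem' := by
    rintro f g ⟨U, h1, h2, h3⟩ ⟨U', h4, h5, h6⟩
    refine ⟨U * U', h1.mul h4, Submodule.mul_mem_mul h2 h5, fun k x hx => ?_⟩
    refine Submodule.mul_induction_on hx (fun a ha b hb => ?_) fun a b ha hb => ?_
    · rw [map_mul]
      exact Submodule.mul_mem_mul (h3 k a ha) (h6 k b hb)
    · rw [map_add]
      exact add_mem ha hb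
  add_mem' := by
    rintro f g ⟨U, h1, h2, h3⟩ ⟨U', h4, h5, h6⟩
    refine ⟨U ⊔ U', h1.sup h4, Submodule.add_mem_sup h2 h5, fun k x hx => ?_⟩
    obtain ⟨a, ha, b, hb, rfl⟩ := Submodule.mem_sup.1 hx
    rw [map_add]
    exact Submodule.add_mem_sup (h3 k a ha) (h6 k b hb)
  algebraMap_mem' r := ⟨1, Submodule.fg_unit 1, Submodule.algebraMap_mem r, fun k x hx => by
    obtain ⟨c, rfl⟩ := Submodule.mem_one.1 hx
    rw [AlgHom.commutes]
    exact hx⟩

theorem fin_sep : (fin F n).SeparatesPoints := fun x y hxy => by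
  let J : Module.Dual ℝ (Mat F n) →ₗ[ℝ] C(KK F n, ℝ) :=
    { toFun := fun l => ⟨fun k => l k.val,
        l.continuous_of_finiteDimensional.comp continuous_subtype_val⟩
      map_add' := fun _ _ => rfl
      map_smul' := fun _ _ => rfl }
  obtain ⟨l, hl⟩ := Module.Projective.exists_dual_ne_zero ℝ
    (sub_ne_zero.2 (Subtype.val_injective.ne hxy))
  refine ⟨J l, ⟨J l, ⟨LinearMap.range J, Module.Finite.iff_fg.1 inferInstance, ⟨l, rfl⟩, ?_⟩, rfl⟩,
    by rwa [map_sub, sub_ne_zero] at hl⟩
  rintro k _ ⟨l, rfl⟩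
  exact ⟨l.comp (LinearMap.mulLeft ℝ k.val), rfl⟩

variable {V : Type u} [AddCommGroup V] [Module ℂ V] [UniformSpace V] [Frechet V] (π : Rep F n V)

theorem Rep.dense {S : Submodule ℂ V} (hS : IsClosed (S : Set V))
    (h : ∀ v, KFinite π.ρ v → v ∈ S) (v : V) : v ∈ S := by
  borelize (KK F n)
  let μ : Measure (KK F n) := Measure.haarMeasure ⊤
  have hc : Continuous fun k : KK F n => resK π.ρ k v :=
    π.cont' (Units.continuous_iff.2 ⟨continuous_subtype_val,
      continuous_subtype_val.comp continuous_inv⟩) continuous_const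
  choose J hJ using fun f : C(KK F n, ℝ) => exists_isInt (μ := μ)
    (F := fun k => (f k : ℂ) • resK π.ρ k v) (by fun_prop) (isCompact_range (by fun_prop))
    (.of_forall fun k => ⟨k, rfl⟩)
  have J1 : ∀ k f, resK π.ρ k (J f) = J (lt k⁻¹ f) := fun k f => eq_of_dual fun η => by
    rw [(hJ _ η).2, ← integral_mul_left_eq_self _ k]
    refine ((hJ f).map (π.ρ (Unitary.toUnits k)) η).2.trans (integral_congr_ae (.of_forall
      fun x => ?_))
    simp [lt, resK]
  have J2 : ∀ f ∈ fin F n, J f ∈ S := by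
    rintro f ⟨_, ⟨t, rfl⟩, h2, h3⟩
    have : FiniteDimensional ℂ (Submodule.span ℂ (J '' t)) :=
      FiniteDimensional.span_of_finite ℂ (t.finite_toSet.image J)
    refine h _ (Submodule.finiteDimensional_of_le (S₂ := Submodule.span ℂ (J '' t))
      (Submodule.span_le.2 ?_))
    rintro _ ⟨k, rfl⟩
    simp only [J1]
    refine Submodule.span_induction (p := fun g _ => J g ∈ Submodule.span ℂ (J '' t))
      (fun g hg => Submodule.subset_span ⟨g, hg, rfl⟩) ?_ (fun f g _ _ hf hg => ?_)
      (fun r g _ hg => ?_) (h3 _ _ h2)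
    · rw [(hJ 0).unique (z := 0) fun η => by simp]
      exact zero_mem _
    · rw [(hJ _).unique (by simpa [add_smul] using (hJ f).add (hJ g))]
      exact add_mem hf hg
    · rw [(hJ _).unique (by simpa [mul_smul] using (hJ g).smul r)]
      exact Submodule.smul_mem _ _ hg
  refine mem_of_dual hS fun η hη => ?_
  have hφ : Continuous fun k : KK F n => η (resK π.ρ k v) := η.continuous.comp hc
  have key : ∀ f, η (J f) = 0 := fun f => by
    have hcl : IsClosed {f | η (J f) = 0} := by
      refine isClosed_eq (LipschitzWith.continuous (K := (∫ k, ‖η (resK π.ρ k v)‖ ∂μ).toNNReal)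
        (.of_dist_le' fun f g => ?_)) continuous_const
      rw [dist_eq_norm, (hJ f η).2, (hJ g η).2, ← integral_sub (hJ f η).1 (hJ g η).1,
        ← integral_mul_const]
      refine norm_integral_le_of_norm_le (((hφ.norm.mul
        continuous_const)).integrable_of_hasCompactSupport (.of_compactSpace _))
        (.of_forall fun k => ?_)
      rw [← map_sub, ← sub_smul, map_smul, norm_smul, mul_comm, ← Complex.ofReal_sub,
        Complex.norm_real, ← dist_eq_norm]
      gcongr
      exact ContinuousMap.dist_apply_le_dist k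
    have hf : f ∈ (fin F n).topologicalClosure := by
      rw [ContinuousMap.subalgebra_topologicalClosure_eq_top_of_separatesPoints _ fin_sep]
      trivial
    exact closure_minimal (fun g hg => hη _ (J2 g hg)) hcl hf
  have one : ∀ L : ℂ →L[ℝ] ℝ, L (η v) = 0 := fun L => by
    by_contra h0
    have c1 : Continuous fun k : KK F n => L (η (resK π.ρ k v)) := L.continuous.comp hφ
    have := (c1.mul c1).integral_pos_of_hasCompactSupport_nonneg_nonzero (μ := μ) (x := 1)
      (.of_compactSpace _) (fun k => mul_self_nonneg _) (by simpa using h0)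
    have h1 := L.integral_comp_comm (hJ ⟨_, c1⟩ η).1
    rw [← (hJ _ η).2, key, map_zero] at h1
    refine this.ne' (Eq.trans (integral_congr_ae (.of_forall fun k => ?_)) h1)
    simp only [map_smul, ContinuousMap.coe_mk, Pi.mul_apply]
    rw [Complex.coe_smul, map_smul, smul_eq_mul]
  exact Complex.ext (one Complex.reCLM) (one Complex.imCLM)

/-- equivariant maps -/
def hom {G A B : Type*} [Monoid G] [AddCommGroup A] [Module ℂ A] [AddCommGroup B] [Module ℂ B]
    (τ : Representation ℂ G A) (σ : Representation ℂ G B) : Submodule ℂ (A →ₗ[ℂ] B) where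
  carrier := {f | ∀ k w, f (τ k w) = σ k (f w)}
  zero_mem' := by simp
  add_mem' hf hg k w := by simp [hf k w, hg k w]
  smul_mem' c f hf k w := by simp [hf k w]

theorem Rep.hom_fin (d : ℕ) : ∀ (W : Type u) [AddCommGroup W] [Module ℂ W] [FiniteDimensional ℂ W]
    (τ : Representation ℂ (KK F n) W), Module.finrank ℂ W = d →
    FiniteDimensional ℂ (hom τ (resK π.ρ)) := by
  induction d using Nat.strong_induction_on with | _ d ih => ?_
  intro W _ _ _ τ hd
  rcases subsingleton_or_nontrivial W with hW | hW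
  · exact Module.Finite.of_finite
  by_cases hi : τ.IsIrreducible
  · have := π.mult W τ hi
    exact Module.Finite.of_injective
      ({ toFun := fun f => ⟨f.1, fun k => LinearMap.ext (f.2 k)⟩
         map_add' := fun _ _ => rfl
         map_smul' := fun _ _ => rfl } : hom τ (resK π.ρ) →ₗ[ℂ] τ.IntertwiningMap (resK π.ρ))
      fun f g h => Subtype.ext (congrArg (·.toLinearMap) h)
  have : Nontrivial (Subrepresentation τ) := ⟨⊥, ⊤, fun h =>
    bot_ne_top (congrArg Subrepresentation.toSubmodule h)⟩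
  obtain ⟨U, hU⟩ : ∃ U : Subrepresentation τ, ¬(U = ⊥ ∨ U = ⊤) :=
    not_forall.1 fun h => hi ⟨h⟩
  have h1 : U.toSubmodule ≠ ⊥ := fun h => hU (Or.inl (Subrepresentation.toSubmodule_injective h))
  have h2 : U.toSubmodule ≠ ⊤ := fun h => hU (Or.inr (Subrepresentation.toSubmodule_injective h))
  have i1 := ih _ (hd ▸ Submodule.finrank_lt h2) _ U.toRepresentation rfl
  have i2 := ih _ (by
    have := U.toSubmodule.finrank_quotient_add_finrank
    have := Submodule.one_le_finrank_iff.2 h1
    omega) _ (τ.quotient U.toSubmodule U.apply_mem_toSubmodule) rfl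
  refine Module.Finite.iff_fg.2 (Submodule.fg_of_fg_map_of_fg_inf_ker
    (LinearMap.lcomp ℂ V U.toSubmodule.subtype) (Module.Finite.iff_fg.1 ?_)
    (Module.Finite.iff_fg.1 ?_))
  · refine Submodule.finiteDimensional_of_le (S₂ := hom U.toRepresentation (resK π.ρ)) ?_
    rintro _ ⟨f, hf, rfl⟩ k w
    exact hf k w
  · refine Submodule.finiteDimensional_of_le (S₂ := (hom (τ.quotient U.toSubmodule
      U.apply_mem_toSubmodule) (resK π.ρ)).map (LinearMap.lcomp ℂ V U.toSubmodule.mkQ)) ?_
    rintro f ⟨hf, h0⟩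
    refine ⟨U.toSubmodule.liftQ f fun x hx => LinearMap.congr_fun h0 ⟨x, hx⟩, fun k w => ?_,
      LinearMap.ext fun _ => rfl⟩
    obtain ⟨w, rfl⟩ := U.toSubmodule.mkQ_surjective w
    exact hf k w

end Pool.Agent.Lib.MP_1176eb_al
end
end

-- part Pool.Agent.Lib.MP_1176eb_al.Cas
section

/-! A Casimir type operator on `Hom(Y, π)` satisfies a polynomial. -/

set_option autoImplicit false
set_option linter.unusedSectionVars false

noncomputable section

namespace Pool.Agent.Lib.MP_1176eb_al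

open Polynomial Matrix

universe u

theorem semi {A B : Type*} [AddCommGroup A] [Module ℂ A] [AddCommGroup B] [Module ℂ B]
    (j : A →ₗ[ℂ] B) {α : Module.End ℂ A} {β : Module.End ℂ B} (h : ∀ x, j (α x) = β (j x))
    (P : ℂ[X]) (x : A) : j (aeval α P x) = aeval β P (j x) := by
  induction P using Polynomial.induction_on' with
  | add p q hp hq => simp [hp, hq]
  | monomial k c =>
    simp only [aeval_monomial, Module.End.mul_apply, Module.algebraMap_end_apply, map_smul]
    congr 1
    induction k with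
    | zero => rfl
    | succ k ih => simp only [pow_succ', Module.End.mul_apply, h, ih]

theorem exists_monic {A : Type*} [AddCommGroup A] [Module ℂ A] (H : Submodule ℂ A)
    [FiniteDimensional ℂ H] (α : Module.End ℂ A) (h : ∀ x ∈ H, α x ∈ H) :
    ∃ P : ℂ[X], P.Monic ∧ ∀ x ∈ H, aeval α P x = 0 :=
  ⟨minpoly ℂ (α.restrict h), minpoly.monic (LinearMap.isIntegral _), fun x hx => by
    have := semi H.subtype (α := α.restrict h) (β := α) (fun _ => rfl) (minpoly ℂ (α.restrict h))
      ⟨x, hx⟩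
    rw [minpoly.aeval, LinearMap.zero_apply, map_zero] at this
    exact this.symm⟩

variable {F : Type} [RCLike F] {n : ℕ} {V : Type u} [AddCommGroup V] [Module ℂ V] [UniformSpace V]
  [Frechet V] (π : Rep F n V)

/-- the underlying linear representation -/
def Rep.lin : Representation ℂ (GL (Fin n) F) V where
  toFun g := π.ρ g
  map_one' := by rw [map_one]; rfl
  map_mul' g h := by rw [map_mul]; rfl

theorem Rep.exists_poly {Y : Type} [AddCommGroup Y] [Module ℂ Y] [FiniteDimensional ℂ Y]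
    (τ : Representation ℂ (GL (Fin n) F) Y) (t : Y →ₗ[ℂ] ℂ) (ht : ∀ g y, t (τ g y) = t y)
    (Ω : Module.End ℂ (Y →ₗ[ℂ] V)) (h1 : ∀ g f, τ.linHom π.lin g (Ω f) = Ω (τ.linHom π.lin g f))
    (h2 : ∀ φ : V → Y →ₗ[ℂ] V, (∀ y, Continuous fun v => φ v y) →
      ∀ y, Continuous fun v => Ω (φ v) y) :
    ∃ P : ℂ[X], P.Monic ∧ ∀ v, aeval Ω P (t.smulRight v) = 0 := by
  obtain ⟨s, s1, s2⟩ := π.fg
  let J : V →ₗ[ℂ] Y →ₗ[ℂ] V := LinearMap.smulRightₗ t
  have hJ : ∀ g v, τ.linHom π.lin g (J v) = J (π.ρ g v) := fun g v => LinearMap.ext fun y => by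
    simp [J, ht, Rep.lin]
  let W : Submodule ℂ V := ⨆ v : s, Submodule.span ℂ (Set.range fun k => resK π.ρ k v)
  have : ∀ v : s, FiniteDimensional ℂ (Submodule.span ℂ (Set.range fun k => resK π.ρ k v)) :=
    fun v => s1 v v.2
  have hW : ∀ k, W ≤ W.comap (resK π.ρ k) := fun k => iSup_le fun v => Submodule.span_le.2 (by
    rintro _ ⟨l, rfl⟩
    exact Submodule.mem_iSup_of_mem v (Submodule.subset_span ⟨k * l, by simp⟩))
  let H := hom ((resK π.ρ).subrepresentation W hW) ((τ.linHom π.lin).comp Unitary.toUnits)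
  have := π.hom_fin _ _ (((resK π.ρ).subrepresentation W hW).tprod (τ.comp Unitary.toUnits)) rfl
  have : FiniteDimensional ℂ H := Module.Finite.of_injective
    ((TensorProduct.lift.equiv (RingHom.id ℂ) W Y V).toLinearMap.restrict (p := H)
      (q := hom (((resK π.ρ).subrepresentation W hW).tprod (τ.comp Unitary.toUnits)) (resK π.ρ))
      fun φ hφ k z => by
        induction z using TensorProduct.induction_on with
        | zero => simp
        | add x y hx hy => simp only [map_add, hx, hy]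
        | tmul w y =>
          have := LinearMap.congr_fun (hφ k w) (τ (Unitary.toUnits k) y)
          simpa [Rep.lin, resK] using this)
    fun φ ψ h => Subtype.ext ((TensorProduct.lift.equiv (RingHom.id ℂ) W Y V).injective
      (congrArg Subtype.val h))
  obtain ⟨P, P1, P0⟩ := exists_monic H (LinearMap.llcomp ℂ W _ _ Ω) fun φ hφ k w =>
    (congrArg Ω (hφ k w)).trans (h1 _ _).symm
  refine ⟨P, P1, fun v => ?_⟩
  let S : Submodule ℂ V := LinearMap.ker (aeval Ω P ∘ₗ J)
  have hc : ∀ (Q : ℂ[X]) y, Continuous fun v => aeval Ω Q (J v) y := fun Q => by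
    induction Q using Polynomial.induction_on' with
    | add p q hp hq =>
      simp only [map_add, LinearMap.add_apply]
      exact fun y => (hp y).add (hq y)
    | monomial k c =>
      simp only [aeval_monomial, Module.End.mul_apply, Module.algebraMap_end_apply,
        LinearMap.smul_apply]
      refine fun y => Continuous.const_smul ?_ c
      induction k generalizing y with
      | zero => exact continuous_id.const_smul (t y)
      | succ k ih => simpa only [pow_succ', Module.End.mul_apply] using h2 _ ih y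
  have hS : IsClosed (S : Set V) := by
    have : (S : Set V) = ⋂ y, {v | aeval Ω P (J v) y = 0} :=
      Set.ext fun v => by simp [S, LinearMap.ext_iff]
    exact this ▸ isClosed_iInter fun y => isClosed_eq (hc P y) continuous_const
  have hG : ∀ g, ∀ v ∈ S, π.ρ g v ∈ S := fun g v hv => by
    have := semi (τ.linHom π.lin g) (h1 g) P (J v)
    rw [hJ, show aeval Ω P (J v) = 0 from hv, map_zero] at this
    exact this.symm
  refine π.dense hS (s2 S (fun w hw => ?_) (fun X v => π.d_mem hS hG X) fun k => hG _) v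
  have hw' : w ∈ W := Submodule.mem_iSup_of_mem ⟨w, hw⟩ (Submodule.subset_span ⟨1, by simp⟩)
  have := semi (LinearMap.applyₗ (⟨w, hw'⟩ : W)) (α := LinearMap.llcomp ℂ W _ _ Ω) (β := Ω)
    (fun _ => rfl) P (J.comp W.subtype)
  rw [P0 _ fun k w => (hJ _ _).symm, map_zero] at this
  exact this.symm

/-- matrix units -/
def eu (F : Type) [RCLike F] {n : ℕ} (p : Fin n × Fin n) : Mat F n := single p.1 p.2 1

theorem sum_eu (X : Mat F n) : ∑ p : Fin n × Fin n, X p.1 p.2 • eu F p = X := by
  simp only [Fintype.sum_prod_type, eu, smul_single, smul_eq_mul, mul_one]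
  exact (matrix_eq_sum_single X).symm

theorem cas {M : Type*} [AddCommGroup M] [Module ℂ M] (β : Mat ℂ n →ₗ[ℂ] Mat ℂ n →ₗ[ℂ] M)
    (A B : Mat ℂ n) : ∑ p, β (A * eu ℂ p * B) (eu ℂ p.swap) =
      ∑ p, β (eu ℂ p) (B * eu ℂ p.swap * A) := by
  have e : ∀ (A B : Mat ℂ n) p, A * eu ℂ p * B =
      ∑ q : Fin n × Fin n, (A q.1 p.1 * B p.2 q.2) • eu ℂ q := fun A B p => by
    rw [← sum_eu (A * eu ℂ p * B)]
    simp [eu, mul_apply, single_apply, ite_and]
  simp only [e, map_sum, map_smul, LinearMap.sum_apply, LinearMap.smul_apply]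
  rw [Finset.sum_comm]
  refine Finset.sum_congr rfl fun q _ => ?_
  rw [← (Equiv.prodComm _ _).sum_comp]
  simp [mul_comm]

/-- multilinear forms -/
abbrev MF (m n : ℕ) := MultilinearMap ℂ (fun _ : Fin m => Fin n → ℂ) ℂ

/-- the action of matrices on multilinear forms -/
def tau (m : ℕ) : Mat ℂ n →* Module.End ℂ (MF m n) where
  toFun A := MultilinearMap.compLinearMapₗ fun _ => vecMulLinear A
  map_one' := LinearMap.ext fun φ => MultilinearMap.ext fun y => by simp
  map_mul' A B := LinearMap.ext fun φ => MultilinearMap.ext fun y => by simp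

/-- the derived action on multilinear forms, unbundled -/
def dtau0 (m : ℕ) (X : Mat ℂ n) : Module.End ℂ (MF m n) := ∑ s, MultilinearMap.compLinearMapₗ
  (Function.update (fun _ => LinearMap.id) s (vecMulLinear X))

theorem dtau0_apply {m : ℕ} (X : Mat ℂ n) (φ : MF m n) (y : Fin m → Fin n → ℂ) :
    dtau0 m X φ y = ∑ s, φ (Function.update y s (y s ᵥ* X)) := by
  simp only [dtau0, LinearMap.sum_apply, _root_.sum_apply]
  exact Finset.sum_congr rfl fun s _ => congrArg φ (funext fun t => by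
    rcases eq_or_ne t s with rfl | h <;> simp [*])

/-- the derived action on multilinear forms -/
def dtau (m : ℕ) : Mat ℂ n →ₗ[ℂ] Module.End ℂ (MF m n) where
  toFun := dtau0 m
  map_add' X Y := LinearMap.ext fun φ => MultilinearMap.ext fun y => by
    simp [dtau0_apply, vecMul_add, Finset.sum_add_distrib]
  map_smul' c X := LinearMap.ext fun φ => MultilinearMap.ext fun y => by
    simp [dtau0_apply, vecMul_smul, Finset.mul_sum]

theorem dtau_apply {m : ℕ} (X : Mat ℂ n) (φ : MF m n) (y : Fin m → Fin n → ℂ) :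
    dtau m X φ y = ∑ s, φ (Function.update y s (y s ᵥ* X)) := dtau0_apply X φ y

theorem tau_dtau {m : ℕ} {A X X' : Mat ℂ n} (h : A * X = X' * A) :
    tau m A * dtau m X = dtau m X' * tau m A := by
  refine LinearMap.ext fun φ => MultilinearMap.ext fun y => ?_
  change dtau m X φ _ = dtau m X' (tau m A φ) y
  simp only [dtau_apply]
  exact Finset.sum_congr rfl fun s _ => congrArg φ (funext fun t => by
    rcases eq_or_ne t s with rfl | k <;> simp [*])

theorem exists_y0 {m : ℕ} (hm : m ≤ n) : ∃ (y0 : MF m n) (l : MF m n →ₗ[ℂ] ℂ), l y0 = 1 ∧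
    ∀ i j : Fin n, j.val < m ∨ m ≤ i.val →
      dtau m (eu ℂ (j, i)) y0 = if i = j ∧ i.val < m then y0 else 0 := by
  let y0 : MF m n := (detRowAlternating : (Fin m → ℂ) [⋀^Fin m]→ₗ[ℂ] ℂ).toMultilinearMap
    |>.compLinearMap fun _ => LinearMap.funLeft ℂ ℂ (Fin.castLE hm)
  have e : ∀ y, y0 y = (of fun s t => y s (Fin.castLE hm t)).det := fun _ => rfl
  refine ⟨y0, ⟨⟨fun φ => φ fun s => Pi.single (Fin.castLE hm s) 1, fun _ _ => rfl⟩,
    fun _ _ => rfl⟩, ?_, fun i j hij => ?_⟩
  · change y0 _ = 1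
    rw [e, ← det_one (n := Fin m)]
    congr 1
    ext s t
    simp [Pi.single_apply, one_apply, eq_comm]
  refine MultilinearMap.ext fun y => ?_
  have e2 : ∀ s, (of fun a t => Function.update y s (y s ᵥ* eu ℂ (j, i)) a (Fin.castLE hm t)) =
      updateRow (of fun s t => y s (Fin.castLE hm t)) s
        (y s j • fun t => if i = Fin.castLE hm t then 1 else 0) := fun s => by
    ext a t
    rcases eq_or_ne a s with rfl | k
    · simp [eu, vecMul, dotProduct, single_apply, ite_and]
    · simp [k]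
  simp only [dtau_apply, e, e2, det_updateRow_smul]
  by_cases hi : i.val < m
  · obtain ⟨i, rfl⟩ : ∃ i', i = Fin.castLE hm i' := ⟨⟨i, hi⟩, rfl⟩
    obtain ⟨j, rfl⟩ : ∃ j', j = Fin.castLE hm j' := ⟨⟨j, by omega⟩, rfl⟩
    have := congrFun₂ (adjugate_mul (of fun s t => y s (Fin.castLE hm t))) i j
    simp only [mul_apply, adjugate_apply, of_apply] at this
    have e3 : (fun t => if Fin.castLE hm i = Fin.castLE hm t then (1 : ℂ) else 0) =
        Pi.single i 1 := funext fun t => by simp [Pi.single_apply, eq_comm]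
    simp only [e3, mul_comm (y _ _), this]
    by_cases h : i = j <;> simp [h, e, one_apply]
  · have e3 : (fun t => if i = Fin.castLE hm t then (1 : ℂ) else 0) = (0 : ℂ) • 0 :=
      funext fun t => by
        have : i ≠ Fin.castLE hm t := by rintro rfl; exact hi t.2
        simp [this]
    simp only [e3, det_updateRow_smul]
    simp [hi]

end Pool.Agent.Lib.MP_1176eb_al
end
end

-- part Pool.Agent.Lib.MP_1176eb_al.Osb
section

/-! The grading element acts finitely on the coinvariants of the unipotent radical. -/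

set_option autoImplicit false
set_option linter.unusedSectionVars false

noncomputable section

namespace Pool.Agent.Lib.MP_1176eb_al

open Polynomial Matrix

universe u

open scoped IsMulCommutative in
theorem integral_add {A : Type*} [Ring A] [Algebra ℂ A] {x y : A} (h : x * y = y * x)
    (hx : IsIntegral ℂ x) (hy : IsIntegral ℂ y) : IsIntegral ℂ (x + y) := by
  have := Algebra.isMulCommutative_adjoin ℂ (s := {x, y}) (by
    rintro a (rfl | rfl) b (rfl | rfl) <;> simp [h])
  have e := fun z => isIntegral_algHom_iff (R := ℂ) (Algebra.adjoin ℂ {x, y}).val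
    Subtype.val_injective (x := z)
  exact (e _).2 (((e ⟨x, Algebra.subset_adjoin (by simp)⟩).1 hx).add
    ((e ⟨y, Algebra.subset_adjoin (by simp)⟩).1 hy))

theorem integral_half {A : Type*} [Ring A] [Algebra ℂ A] {x y : A} (h : x * y = y * x) {c : ℂ}
    (h1 : IsIntegral ℂ (x - c • y)) (h2 : IsIntegral ℂ (x - (-c) • y)) : IsIntegral ℂ x := by
  have := integral_add (by simp [mul_add, add_mul, mul_sub, sub_mul, h]; module) h1 h2
  rw [neg_smul, sub_neg_eq_add, sub_add_add_cancel, ← two_smul ℂ] at this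
  simpa [smul_smul] using this.smul (2⁻¹ : ℂ)

variable {F : Type} [RCLike F] {n : ℕ} {V : Type u} [AddCommGroup V] [Module ℂ V] [UniformSpace V]
  [Frechet V] (π : Rep F n V)

/-- the embeddings of `F` into the complex numbers -/
def sg (F : Type) [RCLike F] (ε : ℝ) (h : ε * ε = 1) : F →+* ℂ where
  toFun z := ⟨RCLike.re z, ε * RCLike.im z⟩
  map_one' := by simp [Complex.ext_iff]
  map_zero' := by simp [Complex.ext_iff]
  map_add' x y := by simp [Complex.ext_iff, mul_add]
  map_mul' x y := by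
    simp only [Complex.ext_iff, RCLike.mul_re, RCLike.mul_im, Complex.mul_re, Complex.mul_im]
    exact ⟨by linear_combination (RCLike.im x * RCLike.im y) * h, by ring⟩

namespace Rep

theorem d_zero (v : V) : π.d 0 v = 0 := (π.dv v).map_zero

variable (σ : F →+* ℂ)

/-- the part of the derived action that is linear along `σ` -/
def Ls (X : Mat F n) : V →ₗ[ℂ] V :=
  (π.d X : V →ₗ[ℂ] V) - σ RCLike.I • (π.d ((RCLike.I : F) • X) : V →ₗ[ℂ] V)

theorem Ls_apply (X : Mat F n) (v : V) :
    π.Ls σ X v = π.d X v - σ RCLike.I • π.d ((RCLike.I : F) • X) v := rfl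

/-- its linear extension to complex matrices -/
def Lt : Mat ℂ n →ₗ[ℂ] V →ₗ[ℂ] V :=
  ∑ p : Fin n × Fin n, (entryLinearMap ℂ ℂ p.1 p.2).smulRight (π.Ls σ (eu F p))

theorem Lt_apply (Z : Mat ℂ n) (v : V) :
    π.Lt σ Z v = ∑ p : Fin n × Fin n, Z p.1 p.2 • π.Ls σ (eu F p) v := by
  simp [Lt]

variable {σ} (hσ : ∀ r : ℝ, σ r = r)

include hσ

theorem Ls_smul (c : F) (X : Mat F n) (v : V) : π.Ls σ (c • X) v = σ c • π.Ls σ X v := by
  have e : ∀ Y : Mat F n, c • Y = RCLike.re c • Y + RCLike.im c • (RCLike.I : F) • Y := fun Y => by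
    conv_lhs => rw [← RCLike.re_add_im c]
    rw [add_smul, mul_smul, algebraMap_smul, algebraMap_smul]
  have e2 : σ c = RCLike.re c + RCLike.im c * σ RCLike.I := by
    conv_lhs => rw [← RCLike.re_add_im c, map_add, map_mul, hσ, hσ]
  rw [Ls_apply, Ls_apply, smul_comm RCLike.I c, e, e, e2]
  simp only [π.d_add, π.d_smul]
  rcases RCLike.I_mul_I_ax (K := F) with h | h
  · simp [RCLike.im_eq_zero h, smul_sub, smul_comm (σ RCLike.I)]
  · have h1 : σ RCLike.I * σ RCLike.I = -1 := by rw [← map_mul, h, map_neg, map_one]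
    have h2 : π.d ((RCLike.I : F) • (RCLike.I : F) • X) v = -π.d X v := by
      rw [smul_smul, h, neg_one_smul]
      exact (π.dv v).map_neg X
    rw [h2]
    match_scalars
    · ring
    · linear_combination RCLike.im c * h1

theorem Lt_map (X : Mat F n) (v : V) : π.Lt σ (X.map σ) v = π.Ls σ X v := by
  let f : Mat F n →+ V := .mk' (fun X => π.Ls σ X v) fun X Y => by
    simp only [Ls_apply, smul_add, π.d_add]
    abel
  refine Eq.trans ?_ (congrArg f (sum_eu X))
  rw [map_sum, Lt_apply]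
  exact Finset.sum_congr rfl fun p _ => (π.Ls_smul hσ _ _ v).symm

theorem Lt_eu (p : Fin n × Fin n) (v : V) : π.Lt σ (eu ℂ p) v = π.Ls σ (eu F p) v := by
  rw [← π.Lt_map hσ]
  simp [eu]

theorem Lt_conj (g : GL (Fin n) F) (p : Fin n × Fin n) (v : V) : π.ρ g (π.Lt σ (eu ℂ p) v) =
    π.Lt σ (g.val.map σ * eu ℂ p * (g⁻¹).val.map σ) (π.ρ g v) := by
  have : eu ℂ p = (eu F p).map σ := by simp [eu]
  rw [this, ← Matrix.map_mul, ← Matrix.map_mul, π.Lt_map hσ, π.Lt_map hσ]
  simp only [Ls_apply, map_sub, map_smul, π.Ad, mul_smul_comm, smul_mul_assoc]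

theorem integral_Ls {m : ℕ} (hm : m ≤ n) {N : Submodule ℂ V}
    (hN : ∀ (X : Mat F n), (∀ a b, X a b ≠ 0 → a.val < m ∧ m ≤ b.val) → ∀ v, π.d X v ∈ N)
    {α : Module.End ℂ (V ⧸ N)} (hα : ∀ v, α (N.mkQ v) = N.mkQ (π.Ls σ (IA F n m) v)) :
    IsIntegral ℂ α := by
  let τ : Representation ℂ (GL (Fin n) F) (MF m n) :=
    (tau m).comp (σ.mapMatrix.toMonoidHom.comp (Units.coeHom _))
  let Ω : Module.End ℂ (Module.End ℂ (MF m n) →ₗ[ℂ] V) :=
    { toFun := fun f => ∑ p, π.Lt σ (eu ℂ p) ∘ₗ f ∘ₗ LinearMap.mulLeft ℂ (dtau m (eu ℂ p.swap))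
      map_add' := fun f g => by
        simp only [LinearMap.add_comp, LinearMap.comp_add, Finset.sum_add_distrib]
      map_smul' := fun c f => by
        simp only [LinearMap.smul_comp, LinearMap.comp_smul, Finset.smul_sum, RingHom.id_apply] }
  have hΩ : ∀ f B, Ω f B = ∑ p, π.Lt σ (eu ℂ p) (f (dtau m (eu ℂ p.swap) * B)) := fun f B =>
    LinearMap.sum_apply _ _ _
  obtain ⟨P, P1, P2⟩ := π.exists_poly (τ.linHom τ) (LinearMap.trace ℂ _) (fun g B => by
      change LinearMap.trace ℂ _ (τ g * (B * τ g⁻¹)) = _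
      rw [LinearMap.trace_mul_comm, mul_assoc, ← map_mul, inv_mul_cancel, map_one, mul_one])
    Ω (fun g f => LinearMap.ext fun B => by
      have := cas ((π.Lt σ).compl₂ (π.lin g ∘ₗ f ∘ₗ LinearMap.mulRight ℂ (τ.linHom τ g⁻¹ B) ∘ₗ
        dtau m)) (g.val.map σ) ((g⁻¹).val.map σ)
      change π.ρ g (Ω f _) = _
      simp only [hΩ, map_sum, π.Lt_conj hσ]
      refine this.trans (Finset.sum_congr rfl fun p _ => congrArg
        (fun z => π.Lt σ (eu ℂ p) (π.ρ g (f z))) ?_)
      change dtau m _ * (tau m ((g⁻¹).val.map σ) * (B * _)) =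
        tau m ((g⁻¹).val.map σ) * (dtau m _ * B * _)
      rw [← mul_assoc, ← tau_dtau (A := (g⁻¹).val.map σ) (X := eu ℂ p.swap) (by
        rw [mul_assoc, ← Matrix.map_mul, Units.mul_inv, Matrix.map_one _ σ.map_zero σ.map_one,
          mul_one]), mul_assoc, mul_assoc])
    fun φ hφ B => by
      simp only [hΩ, Lt_apply, Ls_apply]
      fun_prop
  obtain ⟨y0, l, h1, h2⟩ := exists_y0 hm
  refine ⟨P, P1, LinearMap.ext fun v => ?_⟩
  obtain ⟨v, rfl⟩ := N.mkQ_surjective v
  have := semi (N.mkQ ∘ₗ LinearMap.applyₗ (l.smulRight y0 : Module.End ℂ (MF m n))) (α := Ω)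
    (β := α) (fun f => ?_) P ((LinearMap.trace ℂ _).smulRight v)
  · rw [P2, map_zero] at this
    simpa [h1, aeval_def] using this.symm
  have e : IA F n m = ∑ p : Fin n × Fin n, if p.1 = p.2 ∧ p.1.val < m then eu F p else 0 := by
    rw [← sum_eu (IA F n m)]
    refine Finset.sum_congr rfl fun p _ => ?_
    simp only [IA, diagonal_apply, ite_and]
    split_ifs <;> simp
  simp only [LinearMap.comp_apply, LinearMap.applyₗ_apply_apply, hα, hΩ, map_sum]
  rw [← π.Lt_map hσ, e, ← RingHom.mapMatrix_apply, map_sum, map_sum, LinearMap.sum_apply, map_sum]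
  refine Finset.sum_congr rfl fun p _ => ?_
  by_cases hp : p.2.val < m ∨ m ≤ p.1.val
  · have : dtau m (eu ℂ p.swap) * l.smulRight y0 = l.smulRight (dtau m (eu ℂ (p.2, p.1)) y0) :=
      LinearMap.ext fun z => by simp [Prod.swap]
    rw [this, h2 _ _ hp]
    split_ifs <;> simp [eu]
  · have k : ∀ c : F, ∀ a b, (c • eu F p) a b ≠ 0 → a.val < m ∧ m ≤ b.val := fun c a b h => by
      obtain ⟨rfl, rfl⟩ : p.1 = a ∧ p.2 = b := by
        by_contra hc
        exact h (by simp [eu, hc])
      omega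
    rw [if_neg (by rintro ⟨k1, k2⟩; omega), map_zero, map_zero, LinearMap.zero_apply, map_zero,
      π.Lt_eu hσ, Submodule.mkQ_apply, Submodule.Quotient.mk_eq_zero]
    exact sub_mem (hN _ (by simpa using k 1) _) (N.smul_mem _ (hN _ (k _) _))

omit hσ

theorem exists_pa {m : ℕ} (hm : m ≤ n) :
    ∃ s, ∀ v, pa (π.d (IA F n m)) s v ∈ ((uMask n m).ud π 0).pw ⊤ 1 := by
  let N := ((uMask n m).ud π 0).xs ⊤
  have hN : ∀ (X : Mat F n), (∀ a b, X a b ≠ 0 → a.val < m ∧ m ≤ b.val) → ∀ v, π.d X v ∈ N :=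
    fun X hX v => Submodule.subset_span ⟨WithLp.toLp 2 fun i => X i.1 i.2, v, trivial, by
      simp [Mask.ud, (uMask n m).mk_eq hX]⟩
  have lie : ∀ X Y v, π.d X (π.d Y v) = π.d Y (π.d X v) + π.d (X * Y - Y * X) v := fun X Y v => by
    simp [π.d_lie]
  have hq : ∀ c : F, N ≤ N.comap (π.d (c • IA F n m) : V →ₗ[ℂ] V) := fun c =>
    Submodule.span_le.2 (by
      rintro _ ⟨y, v, -, rfl⟩
      have hy := fun a b => (uMask n m).mk_ne (x := y) (a := a) (b := b)
      simp only [Mask.ud, SetLike.mem_coe, Submodule.mem_comap]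
      simp only [_root_.zero_apply, Complex.ofReal_zero, zero_mul, zero_smul, sub_zero,
        ContinuousLinearMap.coe_coe]
      rw [lie]
      refine add_mem (hN _ hy _) (hN _ (fun a b h => hy a b fun h0 => h ?_) _)
      simp [IA, h0])
  let q : F → Module.End ℂ (V ⧸ N) := fun c => N.mapQ N _ (hq c)
  have key : ∀ ε h, IsIntegral ℂ (q 1 - sg F ε h RCLike.I • q RCLike.I) := fun ε h =>
    π.integral_Ls (σ := sg F ε h) (fun r => by simp [sg, Complex.ext_iff]) hm hN fun v => by
      simp [q, Ls_apply]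
  have hc : q 1 * q RCLike.I = q RCLike.I * q 1 := LinearMap.ext fun v => by
    obtain ⟨v, rfl⟩ := N.mkQ_surjective v
    simp [q, lie (IA F n m), π.d_zero]
  obtain ⟨P, P1, P2⟩ : IsIntegral ℂ (q 1) := by
    have e : sg F (-1) (by simp) RCLike.I = -sg F 1 (by simp) RCLike.I := by
      simp [sg, Complex.ext_iff]
    exact integral_half hc (key 1 (by simp)) (e ▸ key (-1) (by simp))
  refine ⟨P.roots, fun v => UD.xs_le _ _ ?_⟩
  have h1 := semi N.mkQ (α := (π.d (IA F n m) : V →ₗ[ℂ] V)) (β := q 1) (fun v => by simp [q]) P v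
  rw [aeval_def (q 1), P2, LinearMap.zero_apply, Submodule.mkQ_apply,
    Submodule.Quotient.mk_eq_zero] at h1
  rw [pa, ← (IsAlgClosed.splits P).eq_prod_roots_of_monic P1]
  refine (congrArg (· ∈ N) ?_).mp h1
  exact LinearMap.congr_fun (aeval_algHom_apply ({ ContinuousLinearMap.toLinearMapRingHom with
    commutes' := fun _ => rfl } : (V →L[ℂ] V) →ₐ[ℂ] V →ₗ[ℂ] V) (π.d (IA F n m)) P) v

end Rep

end Pool.Agent.Lib.MP_1176eb_al
end
end

-- part Pool.Agent.Lib.MP_1176eb_al.Tower
section

/-! The functors `Φ^j` are exact and Hausdorff. -/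

set_option autoImplicit false
set_option linter.unusedSectionVars false

noncomputable section

namespace Pool.Agent.Lib.MP_1176eb_al

open Filter Topology Complex Metric
open scoped ContDiff RealInnerProductSpace

variable {F : Type} [RCLike F] {n : ℕ}

section

variable {V : Type*} [AddCommGroup V] [Module ℂ V]

/-- the span of the `α v - ψ(α) v` with `v` in `N` -/
def cN (L : Mat F n → V → V) (N : Submodule ℂ V) (c : ℕ) : Submodule ℂ V :=
  Submodule.span ℂ {w | ∃ X ∈ col c, ∃ v ∈ N, w = L X v - psi c X • v}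

/-- the kernel of the map to `Φ^j` for a subspace -/
def phiN (L : Mat F n → V → V) (N : Submodule ℂ V) : ℕ → Submodule ℂ V
  | 0 => ⊥
  | j + 1 => phiN L N j ⊔ cN L N (n - 1 - j)

end

/-- the rows from `c` on are those of the identity -/
def Hc (c : ℕ) (g : GL (Fin n) F) : Prop := ∀ a b, c ≤ a.val → g.val a b = (1 : Mat F n) a b

theorem row_mul {A : Mat F n} {a : Fin n} (h : ∀ b, A a b = (1 : Mat F n) a b) (X : Mat F n)
    (b : Fin n) : (A * X) a b = X a b := by
  simp [Matrix.mul_apply, h, Matrix.one_apply]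

theorem Hc.inv {c : ℕ} {g : GL (Fin n) F} (h : Hc c g) : Hc c g⁻¹ := fun a b ha => by
  rw [← row_mul (h a · ha) (g⁻¹).val b, Units.mul_inv]

theorem Hc.conj {c c' : ℕ} {g : GL (Fin n) F} (h : Hc c g) (hc : c ≤ c') {X : Mat F n}
    (hX : X ∈ col c') : g.val * X * (g⁻¹).val = g.val * X ∧ g.val * X ∈ col c' ∧
      (c < c' → psi c' (g.val * X) = psi c' X) := by
  refine ⟨?_, fun a b hab => ?_, fun hc => ?_⟩
  · rw [mul_assoc]
    congr 1
    conv_rhs => rw [← mul_one X]
    ext a b
    simp only [Matrix.mul_apply]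
    refine Finset.sum_congr rfl fun e _ => ?_
    by_cases he : X a e = 0
    · simp [he]
    · rw [h.inv e b (hc.trans (hX a e he).1.ge)]
  · by_cases ha : c ≤ a.val
    · exact hX a b (by rwa [row_mul (h a · ha)] at hab)
    · rw [Matrix.mul_apply] at hab
      obtain ⟨e, -, he⟩ := Finset.exists_ne_zero_of_sum_ne_zero hab
      exact ⟨(hX e b (right_ne_zero_of_mul he)).1, by omega⟩
  · unfold psi
    congr 2
    refine Finset.sum_congr rfl fun a _ => Finset.sum_congr rfl fun b _ => ?_
    split_ifs with hab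
    · rw [row_mul (h a · (by omega))]
    · rfl

theorem psi_eq {c' c : Fin n} (hc : c'.val + 1 = c.val) (X : Mat F n) :
    psi c X = (Real.pi * RCLike.re (X c' c) : ℝ) * I := by
  have : ∀ a b : Fin n, (a.val + 1 = c ∧ b.val = c) ↔ (a = c' ∧ b = c) := fun a b => by
    simp only [Fin.ext_iff]
    omega
  simp only [psi, this, ite_and]
  simp
  ring

variable {V : Type*} [AddCommGroup V] [Module ℂ V] [UniformSpace V] [Frechet V] (π : Rep F n V)

theorem Rep.cN_inv {c c' : ℕ} {g : GL (Fin n) F} (h : Hc c g) (hc : c < c') :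
    ∀ w ∈ cN (fun X => π.d X) ⊤ c', π.ρ g w ∈ cN (fun X => π.d X) ⊤ c' :=
  (Submodule.span_le (p := (cN _ ⊤ c').comap (π.ρ g : V →ₗ[ℂ] V))).2 (by
    rintro _ ⟨X, hX, v, -, rfl⟩
    obtain ⟨h1, h2, h3⟩ := h.conj hc.le hX
    exact Submodule.subset_span ⟨_, h2, π.ρ g v, trivial, by
      rw [ContinuousLinearMap.coe_coe, map_sub, map_smul, π.Ad, h1, h3 hc]⟩)

theorem Rep.phiN_inv {c j : ℕ} {g : GL (Fin n) F} (h : Hc c g) (hc : c + j < n) :
    ∀ w ∈ phiN (fun X => π.d X) ⊤ j, π.ρ g w ∈ phiN (fun X => π.d X) ⊤ j := by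
  induction j with
  | zero => exact fun w hw => by simp [(Submodule.mem_bot ℂ).1 hw]
  | succ j ih =>
    intro w hw
    obtain ⟨x, hx, y, hy, rfl⟩ := Submodule.mem_sup.1 hw
    rw [map_add]
    exact Submodule.add_mem_sup (ih (by omega) x hx) (π.cN_inv h (by omega) y hy)

theorem Mask.uu_Hc (M : Mask n) {c : ℕ} (h : ∀ a b, M.M a b → a.val < c) (x : EE F n) :
    Hc c (M.uu x) := fun a b ha => by
  have : M.mk' x a b = 0 := not_not.1 fun k => (h a b (M.mk_ne k)).not_ge ha
  simp [Mask.uu, this]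

section

variable (c' c : Fin n)

/-- the row that moves the character -/
def Nm (ξ : EE F n) : Mat F n := Matrix.of fun a b =>
  if a = c' ∧ b < c then 2 * (starRingEnd F) (ξ (b, c)) else 0

variable {c' c}

theorem Nm_mul (ξ : EE F n) (X : Mat F n) (a b : Fin n) : (Nm c' c ξ * X) a b =
    if a = c' then ∑ e, if e < c then 2 * (starRingEnd F) (ξ (e, c)) * X e b else 0 else 0 := by
  by_cases h : a = c' <;> simp [Matrix.mul_apply, Nm, h]

theorem Nm_sq (ξ : EE F n) : Nm c' c ξ * Nm c' c ξ = Nm c' c ξ c' c' • Nm c' c ξ := by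
  ext a b
  rw [Matrix.mul_apply, Finset.sum_eq_single c' (fun e _ he => by simp [Nm, he]) (by simp)]
  by_cases h : a = c' <;> simp [Nm, h]

theorem Nm_smooth (a b : Fin n) : ContDiff ℝ ∞ fun ξ : EE F n => Nm c' c ξ a b := by
  simp only [Nm, Matrix.of_apply]
  split_ifs
  · exact contDiff_const.mul ((RCLike.conjCLE (K := F)).contDiff.comp
      ((contDiff_piLp 2).1 contDiff_id (b, c)))
  · exact contDiff_const

theorem Nm_ne {ξ : EE F n} (h : ξ ∈ ball (0 : EE F n) (1 / 2)) : 1 + Nm c' c ξ c' c' ≠ 0 := by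
  have h1 : ‖Nm c' c ξ c' c'‖ < 1 := by
    have := (PiLp.norm_apply_le ξ (c', c)).trans_lt (mem_ball_zero_iff.1 h)
    simp only [Nm, Matrix.of_apply]
    split_ifs
    · rw [norm_mul, RCLike.norm_conj, RCLike.norm_two]
      linarith
    · simp
  intro h0
  rw [eq_neg_of_add_eq_zero_right h0] at h1
  simp at h1

theorem psi_rel (hc : c'.val + 1 = c.val) (ξ : EE F n) {Y : Mat F n} (hY : Y ∈ col c) :
    psi c ((1 + Nm c' c ξ) * Y) = psi c Y + cy (WithLp.toLp 2 fun i => Y i.1 i.2) ξ := by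
  have : ⟪ξ, WithLp.toLp 2 fun i : Fin n × Fin n => Y i.1 i.2⟫ =
      ∑ e, if e < c then RCLike.re ((starRingEnd F) (ξ (e, c)) * Y e c) else 0 := by
    rw [PiLp.inner_apply, Fintype.sum_prod_type]
    refine Finset.sum_congr rfl fun a _ => ?_
    change ∑ b, RCLike.re (Y a b * (starRingEnd F) (ξ (a, b))) = _
    rw [Finset.sum_eq_single c (fun b _ hb => by
      rw [not_not.1 fun k => hb (Fin.ext (hY a b k).1), zero_mul, map_zero]) (by simp), mul_comm]
    split_ifs with h
    · rfl
    · rw [not_not.1 fun k => h (hY a c k).2, mul_zero, map_zero]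
  rw [psi_eq hc, psi_eq hc, cy, this, add_mul, one_mul, Matrix.add_apply, Nm_mul, if_pos rfl,
    map_add, map_sum, ← add_mul, ← ofReal_add, mul_add, mul_comm 2, mul_assoc, Finset.mul_sum _ _ 2]
  congr 4
  refine Finset.sum_congr rfl fun e _ => ?_
  split_ifs
  · rw [mul_assoc, ← RCLike.ofReal_ofNat, RCLike.re_ofReal_mul]
  · simp

variable (c' c)

/-- the inverse matrix -/
def gm (ξ : EE F n) : Mat F n := 1 - (1 + Nm c' c ξ c' c')⁻¹ • Nm c' c ξ

open Classical in
/-- the group element that moves the character -/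
def gg (ξ : EE F n) : GL (Fin n) F :=
  if h : 1 + Nm c' c ξ c' c' ≠ 0 then
    have e : gm c' c ξ * (1 + Nm c' c ξ) = 1 := by
      rw [gm, sub_mul, one_mul, smul_mul_assoc, mul_add, mul_one, Nm_sq, show ∀ (s : F)
        (N : Mat F n), N + s • N = (1 + s) • N from fun s N => by module, smul_smul,
        inv_mul_cancel₀ h, one_smul, add_sub_cancel_right]
    ⟨gm c' c ξ, 1 + Nm c' c ξ, e, mul_eq_one_comm.1 e⟩
  else 1

variable {c' c}

theorem gg_val {ξ : EE F n} (h : ξ ∈ ball (0 : EE F n) (1 / 2)) :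
    (gg c' c ξ).val = gm c' c ξ ∧ ((gg c' c ξ)⁻¹).val = 1 + Nm c' c ξ := by
  rw [gg, dif_pos (Nm_ne h)]
  exact ⟨rfl, rfl⟩

theorem gg_Hc (hc : c' < c) (ξ : EE F n) : Hc c (gg c' c ξ) := fun a b ha => by
  have : a ≠ c' := by rintro rfl; exact absurd hc (not_lt.2 ha)
  unfold gg
  split_ifs
  · simp [gm, Nm, this]
  · rfl

theorem gm_smooth (a b : Fin n) :
    ContDiffOn ℝ ∞ (fun ξ : EE F n => gm c' c ξ a b) (ball 0 (1 / 2)) :=
  contDiffOn_const.sub (((contDiff_const.add (Nm_smooth c' c')).contDiffOn.inv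
    fun _ => Nm_ne).mul (Nm_smooth a b).contDiffOn)

end

theorem Rep.exists_R {c : ℕ} (h0 : 0 < c) (hn : c < n) : ∃ R : V →L[ℂ] V,
    (∀ w ∈ cN (fun X => π.d X) ⊤ c, R w = 0) ∧ ∀ S : Submodule ℂ V, IsClosed (S : Set V) →
      (∀ g, Hc c g → ∀ v ∈ S, π.ρ g v ∈ S) →
      ∀ v ∈ S, R v ∈ S ∧ R v - v ∈ cN (fun X => π.d X) S c := by
  obtain ⟨c', hc'⟩ : ∃ c' : Fin n, c'.val + 1 = c := ⟨⟨c - 1, by omega⟩, by simp; omega⟩
  lift c to Fin n using hn
  have hc : c' < c := by rw [Fin.lt_def]; omega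
  obtain ⟨ℓ, hℓ⟩ : ∃ ℓ : EE F n →L[ℝ] ℝ, ∀ x, ℓ x = Real.pi * RCLike.re (x (c', c)) :=
    ⟨Real.pi • RCLike.reCLM.comp (PiLp.proj 2 _ (c', c)), fun _ => rfl⟩
  have hX : ∀ y v, ((cMask n c).ud π ℓ).X y v =
      π.d ((cMask n c).mk' y) v - psi c ((cMask n c).mk' y) • v := fun y v => by
    have : (cMask n c).mk' y c' c = y (c', c) := if_pos ⟨rfl, hc⟩
    rw [psi_eq hc', this, ← hℓ]
    rfl
  have hcol : ∀ y : EE F n, (cMask n c).mk' y ∈ col c := fun y a b => (cMask n c).mk_ne
  obtain ⟨R, h1, h2⟩ := ((cMask n c).ud π ℓ).exists_proj (r := 1 / 2) (by norm_num)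
    (fun ξ => π.ρ (gg c' c ξ))
    (fun ξ y => WithLp.toLp 2 fun i => (gm c' c ξ * (cMask n c).mk' y) i.1 i.2)
    (fun v => by
      have : gg c' c (0 : EE F n) = 1 := Units.ext ((gg_val (mem_ball_self (by norm_num))).1.trans
        (by ext a b; simp [gm, Nm]))
      rw [this, π.one_apply])
    (fun v => continuousOn_iff_continuous_domRestrict.2 (π.cont' (Units.continuous_iff.2
      ⟨(continuous_matrix fun a b => (gm_smooth a b).continuousOn.domRestrict).congr
        fun ξ => (gg_val ξ.2).1.symm, ((continuous_const.add (continuous_matrix fun a b =>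
          (Nm_smooth a b).continuous)).comp continuous_subtype_val).congr
        fun ξ => (gg_val ξ.2).2.symm⟩) continuous_const))
    (fun v η => by
      obtain ⟨Φ, k1, k2⟩ := π.smooth v η
      refine (k1.comp (contDiffOn_pi.2 fun a => contDiffOn_pi.2 fun b =>
        gm_smooth (c' := c') (c := c) a b) fun ξ hξ => ?_).congr fun ξ hξ => ?_
      · change (gm c' c ξ).det ≠ 0
        rw [← (gg_val hξ).1]
        exact Matrix.GeneralLinearGroup.det_ne_zero _
      · rw [← k2, (gg_val hξ).1]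
        rfl)
    (fun y => (contDiffOn_piLp 2).2 fun i => by
      simp only [Matrix.mul_apply]
      exact ContDiffOn.sum fun e _ => (gm_smooth _ _).mul contDiffOn_const)
    (fun ξ hξ y v => by
      obtain ⟨k1, k2, -⟩ := (gg_Hc hc ξ).conj le_rfl (hcol y)
      have k3 : (cMask n c).mk' y = (1 + Nm c' c ξ) * ((gg c' c ξ).val * (cMask n c).mk' y) := by
        rw [← (gg_val hξ).2, Units.inv_mul_cancel_left]
      rw [hX, hX, ← (gg_val hξ).1, (cMask n c).mk_eq k2, map_sub, map_smul, π.Ad, k1, sub_sub,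
        ← add_smul, ← psi_rel hc' ξ k2, ← k3])
  refine ⟨R, fun w hw => ?_, fun S hS hH v hv => ?_⟩
  · refine (Submodule.span_le (p := LinearMap.ker (R : V →ₗ[ℂ] V))).2 ?_ hw
    rintro _ ⟨X, hX', v, -, rfl⟩
    have := h1 (WithLp.toLp 2 fun i => X i.1 i.2) v
    rwa [hX, (cMask n c).mk_eq hX'] at this
  · obtain ⟨k1, k2⟩ := h2 S hS (fun x v hv => S.smul_mem _
      (hH _ ((cMask n c).uu_Hc (fun _ _ h => h.2) x) v hv)) (fun ξ => hH _ (gg_Hc hc ξ)) v hv
    refine ⟨k1, Submodule.span_mono ?_ k2⟩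
    rintro _ ⟨y, v, hv, rfl⟩
    exact ⟨_, hcol y, v, hv, hX y v⟩

theorem Rep.tower {S : Submodule ℂ V} (hS : IsClosed (S : Set V)) (h : ∀ g, ∀ v ∈ S, π.ρ g v ∈ S)
    {j : ℕ} (hj : j < n) : IsClosed (phiN (fun X => π.d X) ⊤ j : Set V) ∧
      ∀ v ∈ S, v ∈ phiN (fun X => π.d X) ⊤ j → v ∈ phiN (fun X => π.d X) S j := by
  induction j with
  | zero => exact ⟨isClosed_singleton, fun _ _ h => h⟩
  | succ j ih =>
    obtain ⟨i1, i2⟩ := ih (by omega)
    obtain ⟨R, h1, h2⟩ := π.exists_R (c := n - 1 - j) (by omega) (by omega)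
    have key : ∀ v ∈ phiN (fun X => π.d X) ⊤ (j + 1), R v ∈ phiN (fun X => π.d X) ⊤ j :=
      fun v hv => by
        obtain ⟨x, hx, y, hy, rfl⟩ := Submodule.mem_sup.1 hv
        rw [map_add, h1 y hy, add_zero]
        exact (h2 _ i1 (fun g hg => π.phiN_inv hg (by omega)) x hx).1
    refine ⟨?_, fun v hv hv' => ?_⟩
    · have : (phiN (fun X => π.d X) ⊤ (j + 1) : Set V) = R ⁻¹' phiN (fun X => π.d X) ⊤ j :=
        Set.ext fun v => ⟨key v, fun hv => by
          simpa [phiN] using Submodule.add_mem_sup hv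
            (neg_mem (h2 ⊤ isClosed_univ (fun _ _ _ _ => trivial) v trivial).2)⟩
      exact this ▸ i1.preimage R.continuous
    · obtain ⟨k1, k2⟩ := h2 S hS (fun g _ => h g) v hv
      simpa [phiN] using Submodule.add_mem_sup (i2 _ k1 (key v hv')) (neg_mem k2)

end Pool.Agent.Lib.MP_1176eb_al
end
end
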